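import Pool.Agent.H5.BD.CDef
import Pool.Agent.H62.EF.LimL

/-!
# BD CTr: translates and limits of curves with bounded distortion

`bc_trans`: clear (`deriv_comp_add_const`).
`bc_lim`: `limit_curves` (`H62/EF/LimL.lean`) with `ρ n = n` (`h𝒰`) gives `G` entire with values in `X`, `pr (F n z) → pr (G z)`, `fs (F n z) ((F n)' z) → fs (G z) (G' z)`, so `c ≤ fs (G z) (G' z) ≤ L`.
`bc_affine`: if `F ∈ BC X c L`, `‖a‖ = 1`, then `z ↦ F (a z + b)` is in `BC X c L` (`fs x (a • v) = ‖a‖ fs x v`).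
-/

set_option autoImplicit false

open Topology Filter Metric

namespace Pool.Agent.H5.BD

open Pool.Agent.H36.BP (EN fs wd)
open Pool.Agent.H14.PP (IsCone Chart Form Tan aCoef jac)
open Pool.Agent.H62.EF (MN pr det2 Charts)

variable {N : ℕ} {X : Set (EN N)} {c L : ℝ}

theorem bc_trans {F : ℂ → EN N} (hF : F ∈ BC X c L) (a : ℂ) : (fun z => F (z + a)) ∈ BC X c L := by
  obtain ⟨h1, h2, h3⟩ := hF
  refine ⟨h1.comp (differentiable_id.add_const a), fun z => h2 (z + a), fun z => ?_⟩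
  have h4 : deriv (fun z => F (z + a)) z = deriv F (z + a) := deriv_comp_add_const F a z
  rw [h4]
  exact h3 (z + a)

theorem bc_lim (hX : IsCone X) (hL : 0 < L) (𝒰 : Ultrafilter ℕ) (h𝒰 : (𝒰 : Filter ℕ) ≤ atTop) (F : ℕ → ℂ → EN N)
    (hF : ∀ᶠ n in (𝒰 : Filter ℕ), F n ∈ BC X c L) : ∃ G ∈ BC X c L, ∀ z, Tendsto (fun n => evp (F n) z) 𝒰 (𝓝 (evp G z)) := by
  obtain ⟨G, hG, hGX, hlim, hfs, -⟩ := Pool.Agent.H62.EF.limit_curves hX hL 𝒰 F (fun n => (n : ℝ))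
    (tendsto_natCast_atTop_atTop.mono_left h𝒰)
    (hF.mono fun n hn => ⟨hn.1.differentiableOn, fun z _ => ⟨hn.2.1 z, (hn.2.2 z).2⟩⟩)
  refine ⟨G, ⟨hG, hGX, fun z => ⟨?_, ?_⟩⟩, hlim⟩
  · exact ge_of_tendsto (hfs z) (hF.mono fun n hn => (hn.2.2 z).1)
  · exact le_of_tendsto (hfs z) (hF.mono fun n hn => (hn.2.2 z).2)

end Pool.Agent.H5.BD
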