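import Mathlib

/-!
# BD CInv: a quantitative inverse function theorem in one variable

`u` approximates the linear map `w ↦ u'(w₀) w` on the convex set `ball w₀ r` with the constant `a / 4` (`ApproximatesLinearOn`; mean value inequality for `u w - u'(w₀) w`), so
`‖u w - u w'‖ ≥ (a - a / 4) ‖w - w'‖`.  The image of `closedBall w₀ (2 r / 3)` contains `closedBall (u w₀) ((3 a / 4) (2 r / 3))`
(`ApproximatesLinearOn.surjOn_closedBall_of_nonlinearRightInverse`, or Banach's fixed point theorem for `w ↦ w - (u w - t) / u'(w₀)`).  Let `ξ t` be the unique preimage; `ξ` is Lipschitz by the first part, and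
holomorphic because `u'(ξ t) ≠ 0` (`HasDerivAt.of_local_left_inverse`).
-/

set_option autoImplicit false

open Topology Filter Metric

namespace Pool.Agent.H5.BD

private theorem inv_approx {u : ℂ → ℂ} {w₀ : ℂ} {r a : ℝ} (hu : DifferentiableOn ℂ u (ball w₀ r))
    (hlip : ∀ w ∈ ball w₀ r, ‖deriv u w - deriv u w₀‖ ≤ a / 4) {w w' : ℂ} (hw : w ∈ ball w₀ r) (hw' : w' ∈ ball w₀ r) :
    ‖u w - u w' - deriv u w₀ * (w - w')‖ ≤ a / 4 * ‖w - w'‖ := by
  have h1 : ∀ z ∈ ball w₀ r, HasDerivWithinAt (fun z => u z - deriv u w₀ * z) (deriv u z - deriv u w₀) (ball w₀ r) z := by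
    intro z hz
    have h2 : HasDerivAt u (deriv u z) z := (hu.differentiableAt (isOpen_ball.mem_nhds hz)).hasDerivAt
    have h3 : HasDerivAt (fun z => deriv u w₀ * z) (deriv u w₀) z := by
      simpa using (hasDerivAt_id z).const_mul (deriv u w₀)
    exact (h2.sub h3).hasDerivWithinAt
  have h4 := (convex_ball w₀ r).norm_image_sub_le_of_norm_hasDerivWithin_le h1 hlip hw' hw
  have h5 : u w - deriv u w₀ * w - (u w' - deriv u w₀ * w') = u w - u w' - deriv u w₀ * (w - w') := by ring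
  rwa [h5] at h4

private theorem inv_lower {u : ℂ → ℂ} {w₀ : ℂ} {r a : ℝ} (ha : 0 < a) (hu : DifferentiableOn ℂ u (ball w₀ r))
    (h0 : a ≤ ‖deriv u w₀‖) (hlip : ∀ w ∈ ball w₀ r, ‖deriv u w - deriv u w₀‖ ≤ a / 4) {w w' : ℂ}
    (hw : w ∈ ball w₀ r) (hw' : w' ∈ ball w₀ r) : (a / 2) * ‖w - w'‖ ≤ ‖u w - u w'‖ := by
  have h1 := inv_approx hu hlip hw hw'
  have h2 : ‖deriv u w₀ * (w - w')‖ ≤ ‖u w - u w'‖ + ‖u w - u w' - deriv u w₀ * (w - w')‖ := by
    have h3 := norm_sub_le (u w - u w') (u w - u w' - deriv u w₀ * (w - w'))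
    rwa [sub_sub_cancel] at h3
  rw [norm_mul] at h2
  have h3 : a * ‖w - w'‖ ≤ ‖deriv u w₀‖ * ‖w - w'‖ := mul_le_mul_of_nonneg_right h0 (norm_nonneg _)
  have h4 : 0 ≤ a * ‖w - w'‖ := by positivity
  linarith

private theorem inv_surj {u : ℂ → ℂ} {w₀ : ℂ} {r a : ℝ} (hr : 0 < r) (ha : 0 < a) (hu : DifferentiableOn ℂ u (ball w₀ r))
    (h0 : a ≤ ‖deriv u w₀‖) (hlip : ∀ w ∈ ball w₀ r, ‖deriv u w - deriv u w₀‖ ≤ a / 4) {t : ℂ} (ht : t ∈ ball (u w₀) (a * r / 4)) :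
    ∃ w ∈ ball w₀ r, u w = t := by
  have hne : deriv u w₀ ≠ 0 := by
    intro h
    rw [h, norm_zero] at h0
    linarith
  let f' : ℂ →L[ℂ] ℂ := ContinuousLinearMap.toSpanSingleton ℂ (deriv u w₀)
  have hf' : ∀ x, f' x = deriv u w₀ * x := fun x => by
    show x • deriv u w₀ = deriv u w₀ * x
    rw [smul_eq_mul, mul_comm]
  let c : NNReal := ⟨a / 4, by positivity⟩
  have happ : ApproximatesLinearOn u f' (ball w₀ r) c := by
    intro x hx y hy
    rw [hf']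
    exact inv_approx hu hlip hx hy
  let g' : f'.NonlinearRightInverse :=
    { toFun := fun y => (deriv u w₀)⁻¹ * y
      nnnorm := ⟨a⁻¹, by positivity⟩
      bound' := fun y => by
        rw [norm_mul, norm_inv]
        exact mul_le_mul_of_nonneg_right (inv_anti₀ ha h0) (norm_nonneg _)
      right_inv' := fun y => by
        rw [hf', mul_inv_cancel_left₀ hne] }
  have hsub : closedBall w₀ (2 * r / 3) ⊆ ball w₀ r := closedBall_subset_ball (by linarith)
  have hsurj := happ.surjOn_closedBall_of_nonlinearRightInverse g' (ε := 2 * r / 3) (b := w₀) (by positivity) hsub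
  have hmem : t ∈ closedBall (u w₀) (((g'.nnnorm : ℝ)⁻¹ - c) * (2 * r / 3)) := by
    have h1 : ((g'.nnnorm : ℝ)⁻¹ - c) * (2 * r / 3) = a * r / 2 := by
      show ((a⁻¹ : ℝ)⁻¹ - a / 4) * (2 * r / 3) = a * r / 2
      rw [inv_inv]
      ring
    rw [h1]
    refine closedBall_subset_closedBall ?_ (ball_subset_closedBall ht)
    have : 0 < a * r := mul_pos ha hr
    linarith
  obtain ⟨w, hw, hwt⟩ := hsurj hmem
  exact ⟨w, hsub hw, hwt⟩

theorem exists_inv {u : ℂ → ℂ} {w₀ : ℂ} {r a : ℝ} (hr : 0 < r) (ha : 0 < a) (hu : DifferentiableOn ℂ u (ball w₀ r))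
    (h0 : a ≤ ‖deriv u w₀‖) (hlip : ∀ w ∈ ball w₀ r, ‖deriv u w - deriv u w₀‖ ≤ a / 4) :
    (∀ w ∈ ball w₀ r, ∀ w' ∈ ball w₀ r, (a / 2) * ‖w - w'‖ ≤ ‖u w - u w'‖) ∧
      ∃ ξ : ℂ → ℂ, DifferentiableOn ℂ ξ (ball (u w₀) (a * r / 4)) ∧ ∀ t ∈ ball (u w₀) (a * r / 4), ξ t ∈ ball w₀ r ∧ u (ξ t) = t := by
  classical
  have hlow : ∀ w ∈ ball w₀ r, ∀ w' ∈ ball w₀ r, (a / 2) * ‖w - w'‖ ≤ ‖u w - u w'‖ :=
    fun w hw w' hw' => inv_lower ha hu h0 hlip hw hw'
  refine ⟨hlow, ?_⟩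
  have hex : ∀ t : ℂ, ∃ w : ℂ, t ∈ ball (u w₀) (a * r / 4) → w ∈ ball w₀ r ∧ u w = t := by
    intro t
    by_cases ht : t ∈ ball (u w₀) (a * r / 4)
    · obtain ⟨w, hw, hwt⟩ := inv_surj hr ha hu h0 hlip ht
      exact ⟨w, fun _ => ⟨hw, hwt⟩⟩
    · exact ⟨w₀, fun h => absurd h ht⟩
  choose ξ hξ using hex
  refine ⟨ξ, fun t ht => ?_, fun t ht => hξ t ht⟩
  have hnhds : ball (u w₀) (a * r / 4) ∈ 𝓝 t := isOpen_ball.mem_nhds ht
  have hcont : ContinuousAt ξ t := by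
    have h1 : ∀ᶠ s in 𝓝 t, ‖ξ s - ξ t‖ ≤ 2 / a * ‖s - t‖ := by
      filter_upwards [hnhds] with s hs
      have h2 := hlow (ξ s) (hξ s hs).1 (ξ t) (hξ t ht).1
      rw [(hξ s hs).2, (hξ t ht).2] at h2
      rw [div_mul_eq_mul_div, le_div_iff₀ ha]
      linarith
    rw [ContinuousAt, tendsto_iff_norm_sub_tendsto_zero]
    refine squeeze_zero' (Eventually.of_forall fun s => norm_nonneg _) h1 ?_
    have h2 : Tendsto (fun s : ℂ => 2 / a * ‖s - t‖) (𝓝 t) (𝓝 (2 / a * ‖t - t‖)) :=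
      ((continuous_id.sub continuous_const).norm.const_mul (2 / a)).tendsto t |>.congr fun _ => rfl
    simpa using h2
  have hd : HasDerivAt u (deriv u (ξ t)) (ξ t) :=
    (hu.differentiableAt (isOpen_ball.mem_nhds (hξ t ht).1)).hasDerivAt
  have hne : deriv u (ξ t) ≠ 0 := by
    intro h
    have h1 := hlip (ξ t) (hξ t ht).1
    rw [h, zero_sub, norm_neg] at h1
    linarith
  have hinv : ∀ᶠ s in 𝓝 t, u (ξ s) = s := by
    filter_upwards [hnhds] with s hs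
    exact (hξ s hs).2
  exact (HasDerivAt.of_local_left_inverse hcont hd hne hinv).differentiableAt.differentiableWithinAt

end Pool.Agent.H5.BD
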