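import Pool.Agent.H5.BD.CZ
import Pool.Agent.H62.EF.IsoA

/-!
# BD CIso: curves in `Z` near a generic point of a curve in `Z`

Let `i = A.idx (pr (G 0))`, `π = qc A i G`, analytic at `0` (`LC.an`; `G 0` is good for `i` by `A.good`), `π' 0 ≠ 0` (`der_ge`).  `g = aCoef Ω (A.χ i)` is analytic at `π 0` and not identically `0` near `π 0` (`hΩ`; `‖π 0‖ ≤ 1 / 2`).  By `mem_ZΩ`
`g (π z) = 0` for `z` near `0`.  `exists_isolated` (`H62/EF/IsoA.lean`) with a small `ε ≤ η` (so small that `G z` is good for `i` for `‖z‖ < 2 ε`, `LC.good`: `ε ≤ r₀ / 2`, and `dist (pr (G z)) (pr (G 0)) ≤ A.δ / 2`) gives `z₁`.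
Given `η'` let `δ'` be the number of `exists_isolated` for `ε' = min η' ε`, and `δ = min (A.δ / 2) (δ' / (2 A.C))`.  Let `F` be in `Z` and `dist (evp F w) (evp G z₁) < δ`.  Then `dist (pr (F w)) (pr (G 0)) ≤ A.δ`, so `F w` is good for `i`,
`aCoef Ω (A.χ i) (qc A i F w) = 0` (`mem_ZΩ`), `‖qc A i F w - π z₁‖ ≤ A.C δ < δ'` (`le_dist`), so `qc A i F w = π z'` with `‖z' - z₁‖ < ε'`; `G z'` is good for `i`, and `dist_le` gives `evp F w = evp G z'`.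
-/

set_option autoImplicit false

open Topology Filter Metric

namespace Pool.Agent.H5.BD

open Pool.Agent.H36.BP (EN fs wd)
open Pool.Agent.H14.PP (IsCone Chart Form Tan aCoef jac)
open Pool.Agent.H62.EF (MN pr det2 Charts)

variable {N : ℕ} {X : Set (EN N)} {A : Atlas X} {c L r₀ c₁ K₀ r₂ r₃ ε₃ K : ℝ} {m : ℕ}

/-- the form is not identically zero near any point -/
def Thin (Ω : Form X m 1) : Prop := ∀ (χ : Chart X), ∀ p ∈ ball (0 : ℂ × ℂ) 2, ∃ᶠ p' in 𝓝 p, aCoef Ω χ p' ≠ 0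

theorem MC.iso (hX : IsCone X) (h : MC A c L r₀ c₁ K₀ r₂ r₃ ε₃ K) (hm : 1 ≤ m) (Ω : Form X m 1) (hΩ : Thin Ω) :
    ∀ G ∈ BC X c L, (∀ z, evp G z ∈ ZΩ Ω) → ∀ η : ℝ, 0 < η → ∃ z₁ : ℂ, ‖z₁‖ < η ∧ ∀ η' : ℝ, 0 < η' → ∃ δ : ℝ, 0 < δ ∧
      ∀ F ∈ BC X c L, (∀ z, evp F z ∈ ZΩ Ω) → ∀ w, dist (evp F w) (evp G z₁) < δ → ∃ z', ‖z' - z₁‖ < η' ∧ evp F w = evp G z' := by
  intro G hG hGZ η hη
  have hlc := h.lc
  have hδ := A.δ_pos
  have hC : 0 < A.C := lt_of_lt_of_le one_pos A.one_le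
  have hL := hlc.L_pos
  have hr := hlc.r₀_pos
  have hgood : ∀ z : ℂ, ‖z‖ < r₀ → Good (A.χ (A.idx (pr (G 0)))) (G z) := by
    intro z hz
    refine hlc.good G hG (G 0) (hG.2.1 0) 0 ?_ z ?_
    · rw [dist_self]; positivity
    · rw [mem_ball_zero_iff]; exact hz
  have hg0 : Good (A.χ (A.idx (pr (G 0)))) (G 0) := hgood 0 (by rw [norm_zero]; exact hr)
  set i := A.idx (pr (G 0)) with hi
  have hπ : AnalyticAt ℂ (qc A i G) 0 := hlc.an G hG i 0 hg0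
  have hπ' : deriv (qc A i G) 0 ≠ 0 := by
    intro h0
    have h1 := hlc.der_ge G hG i 0 hg0
    rw [h0, norm_zero] at h1
    exact absurd h1 (not_le.2 hlc.c₁_pos)
  have hball : qc A i G 0 ∈ ball (0 : ℂ × ℂ) 2 := by
    rw [mem_ball_zero_iff]
    exact lt_of_le_of_lt hg0.2.2 (by norm_num)
  have hK : Pool.Agent.H14.PP.IsOpenPart X X :=
    ⟨subset_rfl, hX.smul_mem, fun x _ => Filter.Eventually.of_forall fun y hy => hy⟩
  have han : AnalyticAt ℂ (aCoef Ω (A.χ i)) (qc A i G 0) :=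
    Pool.Agent.H14.PP.aCoef_analytic hK Ω (A.χ i) hball ((A.χ i).σ_mem _ hball).1
  have hne : ¬ ∀ᶠ p in 𝓝 (qc A i G 0), aCoef Ω (A.χ i) p = 0 := by
    intro h0
    have h1 := hΩ (A.χ i) (qc A i G 0) hball
    exact h1 (h0.mono fun p hp => not_not.2 hp)
  obtain ⟨z₁, hz₁, hiso⟩ := Pool.Agent.H62.EF.exists_isolated hπ hπ' han hne
    (ε := min η (min (r₀ / 2) (A.δ / (4 * L)))) (by positivity)
  have hz₁η : ‖z₁‖ < η := lt_of_lt_of_le hz₁ (min_le_left _ _)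
  have hz₁r : ‖z₁‖ < r₀ / 2 := lt_of_lt_of_le hz₁ ((min_le_right _ _).trans (min_le_left _ _))
  have hz₁L : ‖z₁‖ < A.δ / (4 * L) := lt_of_lt_of_le hz₁ ((min_le_right _ _).trans (min_le_right _ _))
  refine ⟨z₁, hz₁η, ?_⟩
  intro η' hη'
  obtain ⟨δ', hδ', hp⟩ := hiso (min η' (r₀ / 2)) (by positivity)
  refine ⟨min (A.δ / 2) (δ' / (2 * A.C)), by positivity, ?_⟩
  intro F hF hFZ w hw
  have hw1 : dist (pr (F w)) (pr (G z₁)) < A.δ / 2 := lt_of_lt_of_le hw (min_le_left _ _)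
  have hw2 : dist (pr (F w)) (pr (G z₁)) < δ' / (2 * A.C) := lt_of_lt_of_le hw (min_le_right _ _)
  have h01 : dist (pr (G 0)) (pr (G z₁)) ≤ A.δ / 2 := by
    have h1 := hlc.lip G hG 0 z₁
    have h2 : ‖(0 : ℂ) - z₁‖ = ‖z₁‖ := by rw [zero_sub, norm_neg]
    rw [h2] at h1
    have h3 : ‖z₁‖ * (4 * L) < A.δ := by rwa [lt_div_iff₀ (by positivity)] at hz₁L
    linarith
  have hdist : dist (pr (G 0)) (pr (F w)) ≤ A.δ := by
    have h1 := dist_triangle_right (pr (G 0)) (pr (F w)) (pr (G z₁))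
    linarith
  have hgF : Good (A.χ i) (F w) := A.good (G 0) (hG.2.1 0) (F w) (hF.2.1 w) hdist
  have hgz₁ : Good (A.χ i) (G z₁) := hgood z₁ (by linarith)
  have hzero : aCoef Ω (A.χ i) (qc A i F w) = 0 := (mem_ZΩ hX hm Ω (A.χ i) hgF).1 (hFZ w)
  have hnear : ‖qc A i F w - qc A i G z₁‖ < δ' := by
    have h1 := A.le_dist i (F w) (G z₁) hgF hgz₁
    have h2 : dist (pr (F w)) (pr (G z₁)) * (2 * A.C) < δ' := by rwa [lt_div_iff₀ (by positivity)] at hw2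
    have h3 : 0 ≤ A.C * dist (pr (F w)) (pr (G z₁)) := by positivity
    have h4 : ‖qc A i F w - qc A i G z₁‖ ≤ A.C * dist (pr (F w)) (pr (G z₁)) := h1
    linarith
  obtain ⟨z', hz', heq⟩ := hp (qc A i F w) hnear hzero
  refine ⟨z', lt_of_lt_of_le hz' (min_le_left _ _), ?_⟩
  have hz'r : ‖z'‖ < r₀ := by
    have h1 : ‖z' - z₁‖ < r₀ / 2 := lt_of_lt_of_le hz' (min_le_right _ _)
    have h2 : ‖z'‖ ≤ ‖z' - z₁‖ + ‖z₁‖ := by simpa using norm_add_le (z' - z₁) z₁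
    linarith
  have hgz' : Good (A.χ i) (G z') := hgood z' hz'r
  have h5 := A.dist_le i (F w) (G z') hgF hgz'
  have h6 : (A.χ i).q (F w) - (A.χ i).q (G z') = 0 := sub_eq_zero.2 heq
  rw [h6, norm_zero, mul_zero] at h5
  exact dist_le_zero.1 h5

end Pool.Agent.H5.BD
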