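import Pool.Agent.H5.BD.CRho
import Pool.Agent.H62.EF.MaxI
import Pool.Agent.H62.EF.PrA
import Pool.Agent.H14.PP.FormChart

/-!
# BD CLI: the local maximum principle

`κ = K⁻² / 8`.  Given `s ≤ r₃` let `γ = exp (-K⁻² s² / 16)`, `η = K⁻² s² / 128`, `θ = exp (κ (s / 2)²) γ exp (2 η) = exp (-K⁻² s² / 64) < 1`, and `ε` as in `rh_cmp` (for `s`, `η`).
Let `F, G, z₀, φ` be as in the claim, `k = A.idx (pr (F (φ z₀)))`; `dist (pr (G z₀)) (pr (F (φ z₀))) ≤ ε ≤ ε₃` and `matching` give `e, ψ`.  `z₀` is the centre: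
`h z = aCoef Ω (A.χ k) (qc A k G z) * (Dm A F G k ψ z) ^ m`, `Fh z = (A.χ k).σ (qc A k G z)`, holomorphic on `ball z₀ s` (`goodG`, `LC.an`, `aCoef_analytic`, `σ_an`, `MC.Dm_hol`; the points `qc A k G z` have norm `≤ 1 / 2`);
`‖h z‖ ‖Fh z‖ = cf A Ω k (G z) * ‖Dm A F G k ψ z‖ ^ m`.  `Fh z = a • G z` with `a ≠ 0` (`surj`), so `pr (Fh z) = pr (G z)`; for `‖z - z₀‖ = s / 2 ≤ 4 r₂`, `emb`: `dist (pr (G z)) (pr (G z₀)) ≥ K⁻¹ s / 2`, so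
by `norm_inner_sq` `‖⟨Fh z₀, Fh z⟩‖² ≤ ‖Fh z₀‖² ‖Fh z‖² (1 - K⁻² s² / 8) ≤ (γ ‖Fh z₀‖ ‖Fh z‖)²`.  `max_ineq` with `r₀ = s / 2`, `r = s`, `c = a`: there is `z` with `‖z - z₀‖ = s / 2` and
`rh (φ z₀) z₀ E z₀ ≤ e^η ‖h z₀‖ ‖Fh z₀‖ E z₀ ≤ e^η exp (κ s² / 4) γ ‖h z‖ ‖Fh z‖ E z ≤ e^(2 η) exp (κ s² / 4) γ rh (φ z) z E z`.
-/

set_option autoImplicit false

open Topology Filter Metric

namespace Pool.Agent.H5.BD

open Pool.Agent.H36.BP (EN fs wd)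
open Pool.Agent.H14.PP (IsCone Chart Form Tan aCoef jac)
open Pool.Agent.H62.EF (MN pr det2 Charts)

variable {N : ℕ} {X : Set (EN N)} {A : Atlas X} {c L r₀ c₁ K₀ r₂ r₃ ε₃ K : ℝ} {m : ℕ}

theorem rh_loc (hX : IsCone X) (h : MC A c L r₀ c₁ K₀ r₂ r₃ ε₃ K) (hm : 1 ≤ m) (Ω : Form X m 1) {s : ℝ} (hs : 0 < s) (hs₃ : s ≤ r₃) :
    ∃ θ ε : ℝ, 0 ≤ θ ∧ θ < 1 ∧ 0 < ε ∧ ∀ F ∈ BC X c L, ∀ G ∈ BC X c L, ∀ z₀ φ, FolAt evp r₂ s ε F G z₀ φ → ∀ a : ℂ,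
      ∃ z ∈ closedBall z₀ s, rh A Ω r₂ F (φ z₀) G z₀ * Real.exp (-(K⁻¹ ^ 2 / 8) * ‖z₀ - a‖ ^ 2) ≤
        θ * (rh A Ω r₂ F (φ z) G z * Real.exp (-(K⁻¹ ^ 2 / 8) * ‖z - a‖ ^ 2)) := by
  have hKpos : 0 < K := lt_of_lt_of_le one_pos (h.lc.one_le.trans h.le_K)
  obtain ⟨k2, hk2⟩ : ∃ k2, k2 = K⁻¹ ^ 2 := ⟨_, rfl⟩
  have hk2pos : 0 < k2 := by
    rw [hk2]
    positivity
  have hηpos : 0 < k2 * s ^ 2 / 128 := by positivity
  obtain ⟨ε, hε, hε₃, hcmp⟩ := rh_cmp hX h hm Ω hs hs₃ hηpos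
  refine ⟨Real.exp (-(k2 * s ^ 2 / 64)), ε, (Real.exp_pos _).le, ?_, hε, ?_⟩
  · rw [Real.exp_lt_one_iff]
    have : 0 < k2 * s ^ 2 / 64 := by positivity
    linarith
  intro F hF G hG z₀ φ hfol a
  rw [← hk2]
  have hr₂ := h.r₂_pos
  have hr₃ := h.r₃_pos
  have hr₃₂ := h.r₃_le₂
  obtain ⟨e, ψ, hM⟩ := h.matching F hF G hG (φ z₀) z₀
    ((hfol z₀ (mem_closedBall_self hs.le)).1.trans hε₃)
  have hc := hcmp F hF G hG z₀ φ hfol e ψ hM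
  obtain ⟨k, hk⟩ : ∃ k, k = A.idx (pr (F (φ z₀))) := ⟨_, rfl⟩
  rw [← hk] at hM
  have hc' := fun z hz => hc z hz k hk
  have hgood : ∀ z ∈ ball z₀ s, Good (A.χ k) (G z) := fun z hz =>
    hM.goodG z (ball_subset_ball (by linarith) hz)
  have hp : ∀ z ∈ ball z₀ s, qc A k G z ∈ ball (0 : ℂ × ℂ) 2 := fun z hz => by
    rw [mem_ball_zero_iff]
    exact lt_of_le_of_lt (hgood z hz).2.2 (by norm_num)
  have hK : Pool.Agent.H14.PP.IsOpenPart X X :=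
    ⟨subset_rfl, hX.smul_mem, fun x _ => Eventually.of_forall fun y hy => hy⟩
  have hq : ∀ z ∈ ball z₀ s, AnalyticAt ℂ (qc A k G) z := fun z hz =>
    h.lc.an G hG k z (hgood z hz)
  have hF0 : ∀ z ∈ ball z₀ s, (A.χ k).σ (qc A k G z) ≠ 0 := fun z hz =>
    (A.χ k).sigma_ne_zero hX (hp z hz)
  have hpr : ∀ z ∈ ball z₀ s, pr ((A.χ k).σ (qc A k G z)) = pr (G z) := by
    intro z hz
    obtain ⟨b, hb, hb'⟩ := ((A.χ k).surj (G z) (hgood z hz).1 (hgood z hz).2.1).2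
    have h1 : pr (G z) = pr (b • (A.χ k).σ ((A.χ k).q (G z))) := congrArg pr hb'
    rw [h1, Pool.Agent.H62.EF.pr_smul _ hb]
    rfl
  have hz₀ : z₀ ∈ ball z₀ s := mem_ball_self hs
  have hsph : ∀ z ∈ sphere z₀ (s / 2), z ∈ ball z₀ s := fun z hz => by
    rw [mem_sphere] at hz
    rw [mem_ball, hz]
    linarith
  have hh : DifferentiableOn ℂ (fun z => aCoef Ω (A.χ k) (qc A k G z) * (Dm A F G k ψ z) ^ m)
      (ball z₀ s) := by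
    intro z hz
    have h1 : AnalyticAt ℂ (aCoef Ω (A.χ k)) (qc A k G z) :=
      Pool.Agent.H14.PP.aCoef_analytic hK Ω (A.χ k) (hp z hz) ((A.χ k).σ_mem _ (hp z hz)).1
    have h2 : DifferentiableAt ℂ (fun z => aCoef Ω (A.χ k) (qc A k G z)) z :=
      h1.differentiableAt.comp z (hq z hz).differentiableAt
    have hz3 : z ∈ ball z₀ (2 * r₃) := ball_subset_ball (by linarith) hz
    have h3 : DifferentiableAt ℂ (Dm A F G k ψ) z :=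
      ((h.Dm_hol hF hG hM) z hz3).differentiableAt (isOpen_ball.mem_nhds hz3)
    exact (h2.mul (h3.pow m)).differentiableWithinAt
  have hFh : DifferentiableOn ℂ (fun z => (A.χ k).σ (qc A k G z)) (ball z₀ s) := by
    intro z hz
    exact (((A.χ k).σ_an _ (hp z hz)).differentiableAt.comp z
      (hq z hz).differentiableAt).differentiableWithinAt
  have hγ : ∀ z ∈ sphere z₀ (s / 2), ‖inner ℂ ((A.χ k).σ (qc A k G z₀)) ((A.χ k).σ (qc A k G z))‖ ≤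
      Real.exp (-(k2 * s ^ 2 / 16)) * (‖(A.χ k).σ (qc A k G z₀)‖ * ‖(A.χ k).σ (qc A k G z)‖) := by
    intro z hz
    have hz' := hsph z hz
    rw [mem_sphere, dist_comm, dist_eq_norm] at hz
    have h1 := h.emb G hG z₀ z (by rw [hz]; linarith)
    rw [← hpr z₀ hz₀, ← hpr z hz', hz] at h1
    have h2 : k2 * s ^ 2 / 4 ≤
        dist (pr ((A.χ k).σ (qc A k G z₀))) (pr ((A.χ k).σ (qc A k G z))) ^ 2 := by
      have h3 : (K⁻¹ * (s / 2)) ^ 2 ≤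
          dist (pr ((A.χ k).σ (qc A k G z₀))) (pr ((A.χ k).σ (qc A k G z))) ^ 2 :=
        pow_le_pow_left₀ (by positivity) h1 2
      rw [hk2]
      linarith
    have h4 := Pool.Agent.H62.EF.norm_inner_sq (hF0 z₀ hz₀) (hF0 z hz')
    have h5 : 1 - k2 * s ^ 2 / 8 ≤ Real.exp (-(k2 * s ^ 2 / 16)) ^ 2 := by
      have h6 := Real.add_one_le_exp (-(k2 * s ^ 2 / 8))
      have h7 : Real.exp (-(k2 * s ^ 2 / 16)) ^ 2 = Real.exp (-(k2 * s ^ 2 / 8)) := by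
        rw [← Real.exp_nat_mul]
        congr 1
        push_cast
        ring
      rw [h7]
      linarith
    refine le_of_sq_le_sq ?_ (by positivity)
    rw [h4]
    calc ‖(A.χ k).σ (qc A k G z₀)‖ ^ 2 * ‖(A.χ k).σ (qc A k G z)‖ ^ 2 *
          (1 - dist (pr ((A.χ k).σ (qc A k G z₀))) (pr ((A.χ k).σ (qc A k G z))) ^ 2 / 2)
        ≤ ‖(A.χ k).σ (qc A k G z₀)‖ ^ 2 * ‖(A.χ k).σ (qc A k G z)‖ ^ 2 *
          Real.exp (-(k2 * s ^ 2 / 16)) ^ 2 := by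
          refine mul_le_mul_of_nonneg_left ?_ (by positivity)
          linarith
      _ = (Real.exp (-(k2 * s ^ 2 / 16)) *
          (‖(A.χ k).σ (qc A k G z₀)‖ * ‖(A.χ k).σ (qc A k G z)‖)) ^ 2 := by ring
  obtain ⟨z, hz, hmax⟩ := Pool.Agent.H62.EF.max_ineq (by linarith : 0 < s / 2)
    (by linarith : s / 2 < s) hh hFh (hF0 z₀ hz₀) hγ (k2 / 8) a
  have hzc : z ∈ closedBall z₀ (s / 2) := sphere_subset_closedBall hz
  refine ⟨z, closedBall_subset_closedBall (by linarith) hzc, ?_⟩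
  have hQ : ∀ z, ‖aCoef Ω (A.χ k) (qc A k G z) * (Dm A F G k ψ z) ^ m‖ *
      ‖(A.χ k).σ (qc A k G z)‖ = cf A Ω k (G z) * ‖Dm A F G k ψ z‖ ^ m := by
    intro z
    rw [norm_mul, norm_pow]
    unfold cf qc
    ring
  rw [hQ, hQ] at hmax
  have h1 := (hc' z₀ (mem_closedBall_self (by linarith))).2
  have h2 := (hc' z hzc).1
  obtain ⟨Q₀, hQ₀⟩ : ∃ Q₀, Q₀ = cf A Ω k (G z₀) * ‖Dm A F G k ψ z₀‖ ^ m := ⟨_, rfl⟩
  obtain ⟨Q₁, hQ₁⟩ : ∃ Q₁, Q₁ = cf A Ω k (G z) * ‖Dm A F G k ψ z‖ ^ m := ⟨_, rfl⟩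
  rw [← hQ₀] at h1 hmax
  rw [← hQ₁] at h2 hmax
  obtain ⟨E₀, hE₀⟩ : ∃ E₀, E₀ = Real.exp (-(k2 / 8) * ‖z₀ - a‖ ^ 2) := ⟨_, rfl⟩
  obtain ⟨E₁, hE₁⟩ : ∃ E₁, E₁ = Real.exp (-(k2 / 8) * ‖z - a‖ ^ 2) := ⟨_, rfl⟩
  rw [← hE₀, ← hE₁] at hmax ⊢
  have hE₀pos : 0 < E₀ := by
    rw [hE₀]
    exact Real.exp_pos _
  have hE₁pos : 0 < E₁ := by
    rw [hE₁]
    exact Real.exp_pos _
  have h3 : Q₁ ≤ Real.exp (k2 * s ^ 2 / 128) * rh A Ω r₂ F (φ z) G z := by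
    have h4 := mul_le_mul_of_nonneg_left h2 (Real.exp_pos (k2 * s ^ 2 / 128)).le
    rw [← mul_assoc, ← Real.exp_add, add_neg_cancel, Real.exp_zero, one_mul] at h4
    exact h4
  calc rh A Ω r₂ F (φ z₀) G z₀ * E₀ ≤ Real.exp (k2 * s ^ 2 / 128) * Q₀ * E₀ :=
        mul_le_mul_of_nonneg_right h1 hE₀pos.le
    _ = Real.exp (k2 * s ^ 2 / 128) * (Q₀ * E₀) := by ring
    _ ≤ Real.exp (k2 * s ^ 2 / 128) * (Real.exp (k2 / 8 * (s / 2) ^ 2) *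
          Real.exp (-(k2 * s ^ 2 / 16)) * (Q₁ * E₁)) :=
        mul_le_mul_of_nonneg_left hmax (Real.exp_pos _).le
    _ ≤ Real.exp (k2 * s ^ 2 / 128) * (Real.exp (k2 / 8 * (s / 2) ^ 2) *
          Real.exp (-(k2 * s ^ 2 / 16)) *
            (Real.exp (k2 * s ^ 2 / 128) * rh A Ω r₂ F (φ z) G z * E₁)) := by
        refine mul_le_mul_of_nonneg_left ?_ (Real.exp_pos _).le
        refine mul_le_mul_of_nonneg_left ?_ (by positivity)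
        exact mul_le_mul_of_nonneg_right h3 hE₁pos.le
    _ = (Real.exp (k2 * s ^ 2 / 128) * Real.exp (k2 / 8 * (s / 2) ^ 2) *
          Real.exp (-(k2 * s ^ 2 / 16)) * Real.exp (k2 * s ^ 2 / 128)) *
            (rh A Ω r₂ F (φ z) G z * E₁) := by ring
    _ = Real.exp (-(k2 * s ^ 2 / 64)) * (rh A Ω r₂ F (φ z) G z * E₁) := by
        congr 1
        rw [← Real.exp_add, ← Real.exp_add, ← Real.exp_add]
        congr 1
        ring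

end Pool.Agent.H5.BD
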