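import Pool.Agent.H5.BD.CZ

/-!
# BD CSm: if `rh` is small then the point is near `Z` or near the plaque; the identity theorem for plaques

`rh_small`: let `K₂` be as in `exists_dmBound`; `ε` is the minimum of the number of `rh_cmp` (for `s` and `η = 1`), of `ε₃` and of `s / K₂`.  Given `η`: let `δ₁` be as in `ZΩ_small` for `η`, and
`δ = exp (-1) δ₁ (η / (A.C K₂)) ^ m` (half of it if you need a strict inequality).
Let `F, G, z₀, φ` be as in the claim, `k = A.idx (pr (F (φ z₀)))`; `matching` gives `e, ψ` (`FolAt` at `z₀`: `dist ≤ ε ≤ ε₃`).  `rh_cmp` at `z = z₀`: `cf A Ω k (G z₀) ‖Dm z₀‖ ^ m ≤ e δ`.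
If `cf A Ω k (G z₀) ≤ δ₁` then `ZΩ_small` (`goodG`) gives the first alternative.  Otherwise `‖Dm z₀‖ ^ m ≤ e δ / δ₁ = (η / (C K₂)) ^ m`, `‖Dm z₀‖ ≤ η / (C K₂)`, so by `lower` (`K₂ ε / s ≤ 1`)
`‖qc A k F (ψ z₀) - qc A k G z₀‖ ≤ η / C`, and (`dist_le`) `dist (pr (G z₀)) (pr (F (ψ z₀))) ≤ η`, with `ψ z₀ ∈ closedBall (φ z₀) r₂`.

`ident`: `ε = ε₃`; `matching` gives `e, ψ` with `i = A.idx (pr (F w₀))`.  `d z = qc A i F (ψ z) - qc A i G z` is holomorphic on `ball z₀ (2 r₃)` (`MC.d_hol`).  If `z ∈ ball z₀ (2 r₃)` and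
`evp G z = evp F w` with `w ∈ closedBall w₀ r₂` then (`le_dist`) `qc A i F w = qc A i G z`, by `near` `w = ψ z`, so `d z = 0`.  The points `z` near `z₁ ∈ closedBall z₀ r₃` are in `ball z₀ (2 r₃)`; so `d` has
zeros accumulating at `z₁`, hence `d = 0` on the connected set `ball z₀ (2 r₃)` (identity theorem, e.g. `AnalyticOnNhd.eqOn_zero_of_preconnected_of_frequently_eq_zero`).  Then `dist_le` gives
`evp G z = evp F (ψ z)` for `z ∈ closedBall z₀ r₃`, with `ψ z ∈ closedBall w₀ r₂`.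
-/

set_option autoImplicit false

open Topology Filter Metric

namespace Pool.Agent.H5.BD

open Pool.Agent.H36.BP (EN fs wd)
open Pool.Agent.H14.PP (IsCone Chart Form Tan aCoef jac)
open Pool.Agent.H62.EF (MN pr det2 Charts)

variable {N : ℕ} {X : Set (EN N)} {A : Atlas X} {c L r₀ c₁ K₀ r₂ r₃ ε₃ K : ℝ} {m : ℕ}

theorem rh_small (hX : IsCone X) (h : MC A c L r₀ c₁ K₀ r₂ r₃ ε₃ K) (hm : 1 ≤ m) (Ω : Form X m 1) {s : ℝ} (hs : 0 < s) (hs₃ : s ≤ r₃) :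
    ∃ ε : ℝ, 0 < ε ∧ ∀ η : ℝ, 0 < η → ∃ δ : ℝ, 0 < δ ∧ ∀ F ∈ BC X c L, ∀ G ∈ BC X c L, ∀ z₀ φ, FolAt evp r₂ s ε F G z₀ φ →
      rh A Ω r₂ F (φ z₀) G z₀ ≤ δ → (∃ y ∈ ZΩ Ω, dist (evp G z₀) y ≤ η) ∨ ∃ w ∈ closedBall (φ z₀) r₂, dist (evp G z₀) (evp F w) ≤ η := by
  obtain ⟨K₂, hK₂, hdm⟩ := h.exists_dmBound
  obtain ⟨ε₁, hε₁, hε₁₃, hcmp⟩ := rh_cmp hX h hm Ω hs hs₃ (η := 1) one_pos
  have hK₂0 : 0 < K₂ := lt_of_lt_of_le one_pos hK₂
  have hC0 : 0 < A.C := lt_of_lt_of_le one_pos A.one_le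
  refine ⟨min ε₁ (s / K₂), lt_min hε₁ (by positivity), fun η hη => ?_⟩
  obtain ⟨δ₁, hδ₁, hZ⟩ := ZΩ_small hX A hm Ω hη
  refine ⟨Real.exp (-1) * (δ₁ * (η / (A.C * K₂)) ^ m), by positivity, fun F hF G hG z₀ φ hfol hrh => ?_⟩
  have hz₀ : z₀ ∈ closedBall z₀ s := mem_closedBall_self hs.le
  have hε0 : 0 ≤ min ε₁ (s / K₂) := (lt_min hε₁ (by positivity)).le
  obtain ⟨e, ψ, hmat⟩ := h.matching F hF G hG (φ z₀) z₀ (((hfol z₀ hz₀).1.trans (min_le_left _ _)).trans hε₁₃)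
  have hfol' : FolAt evp r₂ s ε₁ F G z₀ φ := fun z hz => ⟨(hfol z hz).1.trans (min_le_left _ _), (hfol z hz).2⟩
  have h1 := (hcmp F hF G hG z₀ φ hfol' e ψ hmat z₀ (mem_closedBall_self (by positivity)) _ rfl).1
  set k := A.idx (pr (F (φ z₀))) with hk
  have h2 : cf A Ω k (G z₀) * ‖Dm A F G k ψ z₀‖ ^ m ≤ δ₁ * (η / (A.C * K₂)) ^ m :=
    le_of_mul_le_mul_left (h1.trans hrh) (Real.exp_pos _)
  have hr₂ := h.r₂_pos
  have hr₃ := h.r₃_pos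
  have hzb : z₀ ∈ ball z₀ (2 * r₃) := mem_ball_self (by positivity)
  rcases le_or_gt (cf A Ω k (G z₀)) δ₁ with hcase | hcase
  · exact Or.inl (hZ k (G z₀) (hmat.goodG z₀ hzb) hcase)
  · right
    have h3 : δ₁ * ‖Dm A F G k ψ z₀‖ ^ m ≤ δ₁ * (η / (A.C * K₂)) ^ m :=
      (mul_le_mul_of_nonneg_right hcase.le (by positivity)).trans h2
    have h4 : ‖Dm A F G k ψ z₀‖ ^ m ≤ (η / (A.C * K₂)) ^ m := le_of_mul_le_mul_left h3 hδ₁
    have h5 : ‖Dm A F G k ψ z₀‖ ≤ η / (A.C * K₂) := by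
      by_contra hcon
      push Not at hcon
      have h6 := pow_lt_pow_left₀ hcon (by positivity) (show m ≠ 0 by omega)
      linarith
    have hDB := hdm F hF G hG k (φ z₀) z₀ e ψ hmat s (min ε₁ (s / K₂)) hs hs₃ hε0 (fun z hz => by
      refine ⟨φ z, ?_, (hfol z hz).1⟩
      rw [mem_closedBall, dist_eq_norm]
      have h6 := (hfol z hz).2
      linarith)
    have h7 : K₂ * (min ε₁ (s / K₂) / s) ≤ 1 := by
      have h8 : min ε₁ (s / K₂) / s ≤ (s / K₂) / s := div_le_div_of_nonneg_right (min_le_right _ _) hs.le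
      have h9 : K₂ * ((s / K₂) / s) = 1 := by field_simp
      calc K₂ * (min ε₁ (s / K₂) / s) ≤ K₂ * ((s / K₂) / s) := mul_le_mul_of_nonneg_left h8 hK₂0.le
        _ = 1 := h9
    have h10 := hDB.lower h7 z₀ (mem_closedBall_self (by positivity))
    have h11 : ‖qc A k F (ψ z₀) - qc A k G z₀‖ ≤ η / A.C := by
      calc ‖qc A k F (ψ z₀) - qc A k G z₀‖ ≤ K₂ * ‖Dm A F G k ψ z₀‖ := h10
        _ ≤ K₂ * (η / (A.C * K₂)) := mul_le_mul_of_nonneg_left h5 hK₂0.le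
        _ = η / A.C := by field_simp
    have hψ := hmat.mem z₀ hzb
    have hψ2 : ψ z₀ ∈ closedBall (φ z₀) (2 * r₂) := closedBall_subset_closedBall (by linarith) hψ
    refine ⟨ψ z₀, hψ, ?_⟩
    rw [dist_comm]
    calc dist (evp F (ψ z₀)) (evp G z₀) ≤ A.C * ‖qc A k F (ψ z₀) - qc A k G z₀‖ :=
          A.dist_le k _ _ (hmat.goodF _ hψ2) (hmat.goodG z₀ hzb)
      _ ≤ A.C * (η / A.C) := mul_le_mul_of_nonneg_left h11 hC0.le
      _ = η := by field_simp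

theorem MC.ident (hX : IsCone X) (h : MC A c L r₀ c₁ K₀ r₂ r₃ ε₃ K) : ∃ ε : ℝ, 0 < ε ∧ ∀ F ∈ BC X c L, ∀ G ∈ BC X c L, ∀ z₀ w₀,
    dist (evp G z₀) (evp F w₀) ≤ ε → ∀ z₁ ∈ closedBall z₀ r₃, (∃ᶠ z in 𝓝[≠] z₁, evp G z ∈ Pl evp r₂ F w₀) →
      ∀ z ∈ closedBall z₀ r₃, evp G z ∈ Pl evp r₂ F w₀ := by
  refine ⟨ε₃, h.ε₃_pos, fun F hF G hG z₀ w₀ hd z₁ hz₁ hfreq z hz => ?_⟩
  have hr₂ := h.r₂_pos
  have hr₃ := h.r₃_pos
  obtain ⟨e, ψ, hmat⟩ := h.matching F hF G hG w₀ z₀ hd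
  set i := A.idx (pr (F w₀)) with hi
  set d : ℂ → ℂ × ℂ := fun z => qc A i F (ψ z) - qc A i G z with hdd
  have hhol : DifferentiableOn ℂ d (ball z₀ (2 * r₃)) := h.d_hol hF hG hmat
  have han : AnalyticOnNhd ℂ d (ball z₀ (2 * r₃)) := hhol.analyticOnNhd isOpen_ball
  have hz₁b : z₁ ∈ ball z₀ (2 * r₃) := closedBall_subset_ball (by linarith) hz₁
  have hzb : z ∈ ball z₀ (2 * r₃) := closedBall_subset_ball (by linarith) hz
  have hzero : ∀ y ∈ ball z₀ (2 * r₃), evp G y ∈ Pl evp r₂ F w₀ → d y = 0 := by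
    rintro y hy ⟨w, hw, hwy⟩
    have hw2 : w ∈ closedBall w₀ (2 * r₂) := closedBall_subset_closedBall (by linarith) hw
    have h1 : ‖qc A i F w - qc A i G y‖ ≤ 0 := by
      have h2 := A.le_dist i (F w) (G y) (hmat.goodF w hw2) (hmat.goodG y hy)
      have h3 : dist (pr (F w)) (pr (G y)) = 0 := by
        have h4 : pr (F w) = pr (G y) := hwy
        rw [h4, dist_self]
      rw [h3, mul_zero] at h2
      exact h2
    have h5 := hmat.near y hy w hw2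
    have h6 : ‖w - ψ y‖ ≤ 0 := by
      have h7 : ‖qc A i F w - qc A i G y‖ = 0 := le_antisymm h1 (norm_nonneg _)
      rw [h7, mul_zero] at h5
      exact h5
    have h8 : w = ψ y := sub_eq_zero.1 (norm_le_zero_iff.1 h6)
    have h9 : qc A i F w - qc A i G y = 0 := norm_le_zero_iff.1 h1
    show qc A i F (ψ y) - qc A i G y = 0
    rw [← h8]; exact h9
  have hfreq' : ∃ᶠ y in 𝓝[≠] z₁, d y = 0 := by
    have h1 : ∀ᶠ y in 𝓝[≠] z₁, y ∈ ball z₀ (2 * r₃) := mem_nhdsWithin_of_mem_nhds (isOpen_ball.mem_nhds hz₁b)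
    exact (hfreq.and_eventually h1).mono fun y hy => hzero y hy.2 hy.1
  have hEq := han.eqOn_zero_of_preconnected_of_frequently_eq_zero (convex_ball z₀ (2 * r₃)).isPreconnected hz₁b hfreq'
  have hdz : qc A i F (ψ z) - qc A i G z = 0 := hEq hzb
  have hψ := hmat.mem z hzb
  have hψ2 : ψ z ∈ closedBall w₀ (2 * r₂) := closedBall_subset_closedBall (by linarith) hψ
  have h1 := A.dist_le i (F (ψ z)) (G z) (hmat.goodF _ hψ2) (hmat.goodG z hzb)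
  have h2 : (A.χ i).q (F (ψ z)) - (A.χ i).q (G z) = 0 := hdz
  rw [h2, norm_zero, mul_zero] at h1
  exact ⟨ψ z, hψ, dist_le_zero.1 h1⟩

end Pool.Agent.H5.BD
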