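import Pool.Agent.H5.BD.AFin
import Pool.Agent.H5.BD.CLI
import Pool.Agent.H5.BD.CSm
import Pool.Agent.H5.BD.CIso
import Pool.Agent.H5.BD.CTr

/-!
# BD CFlow: the family of the curves with bounded distortion
-/

set_option autoImplicit false

open Topology Filter Metric

namespace Pool.Agent.H5.BD

open Pool.Agent.H36.BP (EN fs wd)
open Pool.Agent.H14.PP (IsCone Chart Form Tan aCoef jac)
open Pool.Agent.H62.EF (MN pr det2 Charts)

variable {N : ℕ} {X : Set (EN N)} {A : Atlas X} {c L r₀ c₁ K₀ r₂ r₃ ε₃ K : ℝ} {m : ℕ}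

theorem MC.flow (hX : IsCone X) (h : MC A c L r₀ c₁ K₀ r₂ r₃ ε₃ K) (hm : 1 ≤ m) (Ω : Form X m 1) (hΩ : Thin Ω) :
    BFlow (BC X c L) evp (ZΩ Ω) (rh A Ω r₂) (2 * L) K⁻¹ r₂ r₃ (K⁻¹ ^ 2 / 8) where
  L_pos := by have := h.lc.L_pos; positivity
  c_pos := inv_pos.2 (lt_of_lt_of_le one_pos (h.lc.one_le.trans h.le_K))
  r₂_pos := h.r₂_pos
  r₃_pos := h.r₃_pos
  κ_pos := by
    have : 0 < K := lt_of_lt_of_le one_pos (h.lc.one_le.trans h.le_K)
    positivity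
  lip := fun F hF z w => h.lc.lip F hF z w
  emb := fun F hF z w hzw => h.emb F hF z w hzw
  trans := fun F hF a => ⟨_, bc_trans hF a, fun _ => rfl⟩
  lim := fun 𝒰 h𝒰 F hF => bc_lim hX h.lc.L_pos 𝒰 h𝒰 F hF
  closed := isClosed_ZΩ hX A hm Ω
  dense := fun F hF => ZΩ_dense hX A hm Ω hF.1 hF.2.1
  bdd := rh_bdd hX h Ω
  loc := fun s hs hs₃ => rh_loc hX h hm Ω hs hs₃
  small := fun s hs hs₃ => rh_small hX h hm Ω hs hs₃
  ident := h.ident hX
  iso := h.iso hX hm Ω hΩ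

end Pool.Agent.H5.BD
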