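import Pool.Agent.H5.BD.ADef
import Pool.Agent.H62.EF.PrLip
import Pool.Agent.H14.PP.ChartBasic

/-!
# Project BD, local analysis: definitions

`X` is the cone of a smooth projective surface.  `BC X c L` is the family of the entire curves whose Fubini-Study derivative is between `c` and `L`.
-/

set_option autoImplicit false

open Topology Filter Metric

namespace Pool.Agent.H5.BD

open Pool.Agent.H36.BP (EN fs wd)
open Pool.Agent.H14.PP (IsCone Chart Form Tan aCoef jac)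
open Pool.Agent.H62.EF (MN pr det2 Charts)

variable {N : ℕ}

/-- the entire curves (lifts to the cone) with bounded distortion -/
def BC (X : Set (EN N)) (c L : ℝ) : Set (ℂ → EN N) :=
  {F | Differentiable ℂ F ∧ (∀ z, F z ∈ X) ∧ ∀ z, c ≤ fs (F z) (deriv F z) ∧ fs (F z) (deriv F z) ≤ L}

/-- the curve in the projective space -/
noncomputable def evp (F : ℂ → EN N) (z : ℂ) : MN N := pr (F z)

/-- `x` is in the middle of the chart -/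
def Good {X : Set (EN N)} (χ : Chart X) (x : EN N) : Prop := x ∈ X ∧ x ∈ χ.U ∧ ‖χ.q x‖ ≤ 1 / 2

/-- a finite atlas with a Lebesgue number `δ`, and a bound `C` for the charts and the changes of charts -/
structure Atlas (X : Set (EN N)) where
  n : ℕ
  χ : Fin n → Chart X
  idx : MN N → Fin n
  δ : ℝ
  C : ℝ
  δ_pos : 0 < δ
  one_le : 1 ≤ C
  good : ∀ x ∈ X, ∀ y ∈ X, dist (pr x) (pr y) ≤ δ → Good (χ (idx (pr x))) y
  dist_le : ∀ i x y, Good (χ i) x → Good (χ i) y → dist (pr x) (pr y) ≤ C * ‖(χ i).q x - (χ i).q y‖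
  le_dist : ∀ i x y, Good (χ i) x → Good (χ i) y → ‖(χ i).q x - (χ i).q y‖ ≤ C * dist (pr x) (pr y)
  fd_le : ∀ i j x, Good (χ i) x → Good (χ j) x → ‖fderiv ℂ (fun p => (χ j).q ((χ i).σ p)) ((χ i).q x)‖ ≤ C
  jac_ge : ∀ i j x, Good (χ i) x → Good (χ j) x → 1 ≤ C * ‖jac (fun p => (χ j).q ((χ i).σ p)) ((χ i).q x)‖
  trans : ∀ i j x y, Good (χ i) x → Good (χ j) x → Good (χ i) y → Good (χ j) y →
    ‖(χ j).q y - (χ j).q x - fderiv ℂ (fun p => (χ j).q ((χ i).σ p)) ((χ i).q x) ((χ i).q y - (χ i).q x)‖ ≤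
      C * ‖(χ i).q y - (χ i).q x‖ ^ 2

/-- the curve `F` in the chart `i` -/
noncomputable def qc {X : Set (EN N)} (A : Atlas X) (i : Fin A.n) (F : ℂ → EN N) (z : ℂ) : ℂ × ℂ := (A.χ i).q (F z)

/-- uniform bounds for the curves of `BC X c L` in the charts of the atlas, on discs of radius `r₀` -/
structure LC {X : Set (EN N)} (A : Atlas X) (c L r₀ c₁ K : ℝ) : Prop where
  r₀_pos : 0 < r₀
  c₁_pos : 0 < c₁
  one_le : 1 ≤ K
  L_pos : 0 < L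
  lip : ∀ F ∈ BC X c L, ∀ z w, dist (pr (F z)) (pr (F w)) ≤ 2 * L * ‖z - w‖
  good : ∀ F ∈ BC X c L, ∀ x ∈ X, ∀ w₀, dist (pr x) (pr (F w₀)) ≤ A.δ / 2 → ∀ w ∈ ball w₀ r₀, Good (A.χ (A.idx (pr x))) (F w)
  an : ∀ F ∈ BC X c L, ∀ i w, Good (A.χ i) (F w) → AnalyticAt ℂ (qc A i F) w
  der_ge : ∀ F ∈ BC X c L, ∀ i w, Good (A.χ i) (F w) → c₁ ≤ ‖deriv (qc A i F) w‖
  der_le : ∀ F ∈ BC X c L, ∀ i w, Good (A.χ i) (F w) → ‖deriv (qc A i F) w‖ ≤ K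
  der_lip : ∀ F ∈ BC X c L, ∀ i w₀, (∀ w ∈ ball w₀ r₀, Good (A.χ i) (F w)) → ∀ w ∈ ball w₀ (r₀ / 2), ∀ w' ∈ ball w₀ (r₀ / 2),
    ‖deriv (qc A i F) w - deriv (qc A i F) w'‖ ≤ K * ‖w - w'‖

/-- one of the two coordinates -/
def co (e : Bool) (p : ℂ × ℂ) : ℂ := if e = true then p.1 else p.2

/-- in the chart `i` the points `F (ψ z)` (near `F w₀`) and `G z` (near `G z₀`) have the same coordinate `co e` -/
structure Match {X : Set (EN N)} (A : Atlas X) (r₂ r₃ K : ℝ) (F G : ℂ → EN N) (i : Fin A.n) (w₀ z₀ : ℂ) (e : Bool) (ψ : ℂ → ℂ) : Prop where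
  hol : DifferentiableOn ℂ ψ (ball z₀ (2 * r₃))
  mem : ∀ z ∈ ball z₀ (2 * r₃), ψ z ∈ closedBall w₀ r₂
  eq : ∀ z ∈ ball z₀ (2 * r₃), co e (qc A i F (ψ z)) = co e (qc A i G z)
  goodF : ∀ w ∈ closedBall w₀ (2 * r₂), Good (A.χ i) (F w)
  goodG : ∀ z ∈ ball z₀ (2 * r₃), Good (A.χ i) (G z)
  near : ∀ z ∈ ball z₀ (2 * r₃), ∀ w ∈ closedBall w₀ (2 * r₂), ‖w - ψ z‖ ≤ K * ‖qc A i F w - qc A i G z‖
  coF : ∀ w ∈ closedBall w₀ (2 * r₂), 1 ≤ K * ‖co e (deriv (qc A i F) w)‖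

/-- the constants of the matching -/
structure MC {X : Set (EN N)} (A : Atlas X) (c L r₀ c₁ K₀ r₂ r₃ ε₃ K : ℝ) : Prop where
  lc : LC A c L r₀ c₁ K₀
  r₂_pos : 0 < r₂
  r₃_pos : 0 < r₃
  ε₃_pos : 0 < ε₃
  le_K : K₀ ≤ K
  r₂_le : 8 * r₂ ≤ r₀
  r₃_le : 4 * r₃ ≤ r₀
  r₃_le₂ : r₃ ≤ r₂
  emb : ∀ F ∈ BC X c L, ∀ z w, ‖z - w‖ ≤ 4 * r₂ → K⁻¹ * ‖z - w‖ ≤ dist (pr (F z)) (pr (F w))
  matching : ∀ F ∈ BC X c L, ∀ G ∈ BC X c L, ∀ w₀ z₀, dist (pr (G z₀)) (pr (F w₀)) ≤ ε₃ →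
    ∃ e ψ, Match A r₂ r₃ K F G (A.idx (pr (F w₀))) w₀ z₀ e ψ

/-- the holomorphic function which measures the distance of `G z` to the plaque of `F` -/
noncomputable def Dm {X : Set (EN N)} (A : Atlas X) (F G : ℂ → EN N) (i : Fin A.n) (ψ : ℂ → ℂ) (z : ℂ) : ℂ :=
  det2 (qc A i F (ψ z) - qc A i G z) (deriv (qc A i G) z)

end Pool.Agent.H5.BD
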