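import Pool.Agent.H5.BD.AIso

/-!
# BD AAdm: the constants, and the decay of `ρ` on discs where `g` follows `f`

`decay`: let `B, ε_b` be as in `bdd`, `θ, ε_l` as in `loc` (for `s`), `ε₀ = min ε_b ε_l`.  Let `g` follow `f` on the disc of radius `R` (`Fol`, with `ε ≤ ε₀`, `s ≤ r`), `s ≤ R`.
Let `W z = ρ f (φ z) g z * exp (-κ ‖z‖²)` for `z ∈ ball 0 R`; `0 ≤ W z ≤ B`.  Let `m` be the supremum of `W` over `ball 0 R` (bounded above by `B`, not empty if `R > 0`).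
* If `‖z₀‖ + s < R` then `Fol.folAt` and `loc` with `a = 0` give `z ∈ closedBall z₀ s ⊆ ball 0 R` with `W z₀ ≤ θ W z ≤ θ m`.
* If `z₀ ∈ ball 0 R`, `R - s ≤ ‖z₀‖`, then `W z₀ ≤ B exp (-κ ‖z₀‖²) ≤ B exp (-κ (R - s)²)` (`0 ≤ R - s ≤ ‖z₀‖`).
So `m ≤ max (θ m) (B exp (-κ (R - s)²))`; as `θ < 1` and `m ≥ 0`, `m ≤ B exp (-κ (R - s)²)` (if `m ≤ θ m` then `m ≤ 0`).  Hence
`ρ f (φ z) g z ≤ m exp (κ ‖z‖²) ≤ B exp (-κ ((R - s)² - ‖z‖²))`.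

`exists_adm`: choose `r = min (min (r₂ / 4) r₃) (c r₂ / (32 L))`, `s = r / 32`, and `ε` the minimum of `c r₂ / 64` and of the numbers `ε` of `decay`, `small`, `ident`, `BFlow.plaque_of_fol` (for `s`).
(`FolAt` with `ε` implies `FolAt` with a larger number.)
-/

set_option autoImplicit false

open Topology Filter Metric

namespace Pool.Agent.H5.BD

variable {Y ι : Type} [MetricSpace Y] {S : Set ι} {ev : ι → ℂ → Y} {Z : Set Y} {ρ : ι → ℂ → ι → ℂ → ℝ} {L c r₂ r₃ κ : ℝ}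

theorem BFlow.decay (h : BFlow S ev Z ρ L c r₂ r₃ κ) {s : ℝ} (hs : 0 < s) (hs₃ : s ≤ r₃) :
    ∃ B ε₀ : ℝ, 0 ≤ B ∧ 0 < ε₀ ∧ ∀ r ε : ℝ, s ≤ r → ε ≤ ε₀ → ∀ f ∈ S, ∀ g ∈ S, ∀ (φ : ℂ → ℂ) (R : ℝ), s ≤ R → Fol ev r₂ r ε R f g φ →
      ∀ z ∈ ball (0 : ℂ) R, ρ f (φ z) g z ≤ B * Real.exp (-κ * ((R - s) ^ 2 - ‖z‖ ^ 2)) := by
  obtain ⟨B, εb, hB, hεb, hbdd⟩ := h.bdd
  obtain ⟨θ, εl, hθ0, hθ1, hεl, hloc⟩ := h.loc s hs hs₃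
  have hκ := h.κ_pos
  refine ⟨B, min εb εl, hB, lt_min hεb hεl, ?_⟩
  intro r ε hsr hε f hf g hg φ R hsR hFol z hz
  have hρ : ∀ y ∈ ball (0 : ℂ) R, 0 ≤ ρ f (φ y) g y ∧ ρ f (φ y) g y ≤ B := fun y hy =>
    hbdd f hf g hg (φ y) y ((hFol.close y hy).trans (hε.trans (min_le_left _ _)))
  have hW0 : ∀ y ∈ ball (0 : ℂ) R, 0 ≤ ρ f (φ y) g y * Real.exp (-κ * ‖y‖ ^ 2) := fun y hy =>
    mul_nonneg (hρ y hy).1 (Real.exp_pos _).le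
  have hWB : ∀ y ∈ ball (0 : ℂ) R, ρ f (φ y) g y * Real.exp (-κ * ‖y‖ ^ 2) ≤ B * Real.exp (-κ * ‖y‖ ^ 2) :=
    fun y hy => mul_le_mul_of_nonneg_right (hρ y hy).2 (Real.exp_pos _).le
  have hexp1 : ∀ y : ℂ, Real.exp (-κ * ‖y‖ ^ 2) ≤ 1 := by
    intro y
    rw [Real.exp_le_one_iff]
    have h1 : 0 ≤ κ * ‖y‖ ^ 2 := by positivity
    linarith
  have hbdd' : BddAbove ((fun y : ℂ => ρ f (φ y) g y * Real.exp (-κ * ‖y‖ ^ 2)) '' ball (0 : ℂ) R) := by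
    refine ⟨B, ?_⟩
    rintro _ ⟨y, hy, rfl⟩
    exact (hWB y hy).trans (mul_le_of_le_one_right hB (hexp1 y))
  set m : ℝ := sSup ((fun y : ℂ => ρ f (φ y) g y * Real.exp (-κ * ‖y‖ ^ 2)) '' ball (0 : ℂ) R) with hm
  have hle : ∀ y ∈ ball (0 : ℂ) R, ρ f (φ y) g y * Real.exp (-κ * ‖y‖ ^ 2) ≤ m := fun y hy =>
    le_csSup hbdd' ⟨y, hy, rfl⟩
  have hm0 : 0 ≤ m := (hW0 z hz).trans (hle z hz)
  have hmax : m ≤ max (θ * m) (B * Real.exp (-κ * (R - s) ^ 2)) := by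
    refine csSup_le ⟨_, z, hz, rfl⟩ ?_
    rintro _ ⟨y, hy, rfl⟩
    rcases lt_or_ge (‖y‖ + s) R with hcase | hcase
    · refine le_trans ?_ (le_max_left _ _)
      obtain ⟨x, hx, hle2⟩ := hloc f hf g hg y φ
        (hFol.folAt hsr hs.le hcase (hε.trans (min_le_right _ _))) 0
      rw [sub_zero, sub_zero] at hle2
      have hxR : x ∈ ball (0 : ℂ) R := by
        rw [mem_closedBall, dist_eq_norm] at hx
        rw [mem_ball_zero_iff]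
        have h1 : ‖x‖ ≤ ‖x - y‖ + ‖y‖ := by simpa using norm_add_le (x - y) y
        linarith
      exact hle2.trans (mul_le_mul_of_nonneg_left (hle x hxR) hθ0)
    · refine le_trans ?_ (le_max_right _ _)
      refine (hWB y hy).trans (mul_le_mul_of_nonneg_left ?_ hB)
      rw [Real.exp_le_exp]
      have h2 : (R - s) ^ 2 ≤ ‖y‖ ^ 2 := pow_le_pow_left₀ (by linarith) (by linarith) 2
      nlinarith
  have hmB : m ≤ B * Real.exp (-κ * (R - s) ^ 2) := by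
    rcases le_max_iff.1 hmax with h1 | h1
    · have h2 : m ≤ 0 := by nlinarith
      exact h2.trans (mul_nonneg hB (Real.exp_pos _).le)
    · exact h1
  have hsplit : ρ f (φ z) g z = ρ f (φ z) g z * Real.exp (-κ * ‖z‖ ^ 2) * Real.exp (κ * ‖z‖ ^ 2) := by
    rw [mul_assoc, ← Real.exp_add]
    have h0 : -κ * ‖z‖ ^ 2 + κ * ‖z‖ ^ 2 = 0 := by ring
    rw [h0, Real.exp_zero, mul_one]
  rw [hsplit]
  calc ρ f (φ z) g z * Real.exp (-κ * ‖z‖ ^ 2) * Real.exp (κ * ‖z‖ ^ 2)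
      ≤ B * Real.exp (-κ * (R - s) ^ 2) * Real.exp (κ * ‖z‖ ^ 2) :=
        mul_le_mul_of_nonneg_right ((hle z hz).trans hmB) (Real.exp_pos _).le
    _ = B * Real.exp (-κ * ((R - s) ^ 2 - ‖z‖ ^ 2)) := by
        rw [mul_assoc, ← Real.exp_add]
        congr 2
        ring

/-- the constants `r`, `ε` (with `s = r / 32`) are small enough -/
structure Adm (S : Set ι) (ev : ι → ℂ → Y) (Z : Set Y) (ρ : ι → ℂ → ι → ℂ → ℝ) (L c r₂ r₃ κ r ε B : ℝ) : Prop where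
  cst : Cst L c r₂ r₃ r ε
  B_nonneg : 0 ≤ B
  decay : ∀ f ∈ S, ∀ g ∈ S, ∀ (φ : ℂ → ℂ) (R : ℝ), r ≤ R → Fol ev r₂ r ε R f g φ → ∀ z ∈ ball (0 : ℂ) R,
    ρ f (φ z) g z ≤ B * Real.exp (-κ * ((R - r / 32) ^ 2 - ‖z‖ ^ 2))
  small : ∀ η : ℝ, 0 < η → ∃ δ : ℝ, 0 < δ ∧ ∀ f ∈ S, ∀ g ∈ S, ∀ z₀ φ, FolAt ev r₂ (r / 32) ε f g z₀ φ → ρ f (φ z₀) g z₀ ≤ δ →
    (∃ y ∈ Z, dist (ev g z₀) y ≤ η) ∨ ∃ w ∈ closedBall (φ z₀) r₂, dist (ev g z₀) (ev f w) ≤ η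
  ident : ∀ f ∈ S, ∀ g ∈ S, ∀ z₀ w₀, dist (ev g z₀) (ev f w₀) ≤ ε → ∀ z₁ ∈ closedBall z₀ r₃,
    (∃ᶠ z in 𝓝[≠] z₁, ev g z ∈ Pl ev r₂ f w₀) → ∀ z ∈ closedBall z₀ r₃, ev g z ∈ Pl ev r₂ f w₀
  iso : ∀ f ∈ S, ∀ g ∈ S, (∀ z, ev f z ∈ Z) → (∀ z, ev g z ∈ Z) → ∀ z₀ φ, FolAt ev r₂ (r / 32) ε f g z₀ φ →
    ∀ z ∈ closedBall z₀ r₃, ev g z ∈ Pl ev r₂ f (φ z₀)

theorem BFlow.exists_adm (h : BFlow S ev Z ρ L c r₂ r₃ κ) : ∃ r ε B : ℝ, Adm S ev Z ρ L c r₂ r₃ κ r ε B := by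
  have hL := h.L_pos
  have hc := h.c_pos
  have hr₂ := h.r₂_pos
  have hr₃ := h.r₃_pos
  obtain ⟨r, hr, hr1, hr2, hr3⟩ : ∃ r : ℝ, 0 < r ∧ r ≤ r₂ / 4 ∧ r ≤ r₃ ∧ r ≤ c * r₂ / (32 * L) :=
    ⟨min (min (r₂ / 4) r₃) (c * r₂ / (32 * L)), lt_min (lt_min (by positivity) hr₃) (by positivity),
      (min_le_left _ _).trans (min_le_left _ _), (min_le_left _ _).trans (min_le_right _ _), min_le_right _ _⟩
  have hs : 0 < r / 32 := by positivity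
  have hs₃ : r / 32 ≤ r₃ := by linarith
  obtain ⟨B, ε₁, hB, hε₁, hdecay⟩ := h.decay hs hs₃
  obtain ⟨ε₂, hε₂, hsmall⟩ := h.small (r / 32) hs hs₃
  obtain ⟨ε₃, hε₃, hident⟩ := h.ident
  obtain ⟨ε₄, hε₄, hiso⟩ := h.plaque_of_fol hs hs₃
  obtain ⟨ε, hε, he0, he1, he2, he3, he4⟩ : ∃ ε : ℝ, 0 < ε ∧ ε ≤ c * r₂ / 64 ∧ ε ≤ ε₁ ∧ ε ≤ ε₂ ∧ ε ≤ ε₃ ∧ ε ≤ ε₄ := by
    refine ⟨min (c * r₂ / 64) (min ε₁ (min ε₂ (min ε₃ ε₄))), ?_, min_le_left _ _, ?_, ?_, ?_, ?_⟩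
    · exact lt_min (by positivity) (lt_min hε₁ (lt_min hε₂ (lt_min hε₃ hε₄)))
    · exact (min_le_right _ _).trans (min_le_left _ _)
    · exact (min_le_right _ _).trans ((min_le_right _ _).trans (min_le_left _ _))
    · exact (min_le_right _ _).trans ((min_le_right _ _).trans ((min_le_right _ _).trans (min_le_left _ _)))
    · exact (min_le_right _ _).trans ((min_le_right _ _).trans ((min_le_right _ _).trans (min_le_right _ _)))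
  refine ⟨r, ε, B, ?_, hB, ?_, ?_, ?_, ?_⟩
  · refine ⟨hr, hε, hr1, hr2, ?_, ?_⟩
    · rw [le_div_iff₀ (by positivity)] at hr3
      linarith
    · linarith
  · intro f hf g hg φ R hR hFol z hz
    exact hdecay r ε (by linarith) he1 f hf g hg φ R (by linarith) hFol z hz
  · intro η hη
    obtain ⟨δ, hδ, hsm⟩ := hsmall η hη
    refine ⟨δ, hδ, fun f hf g hg z₀ φ hFol hρ => ?_⟩
    exact hsm f hf g hg z₀ φ (fun z hz => ⟨(hFol z hz).1.trans he2, (hFol z hz).2⟩) hρ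
  · intro f hf g hg z₀ w₀ hd z₁ hz₁ hfreq z hz
    exact hident f hf g hg z₀ w₀ (hd.trans he3) z₁ hz₁ hfreq z hz
  · intro f hf g hg hfZ hgZ z₀ φ hFol z hz
    exact hiso f hf g hg hfZ hgZ z₀ φ (fun y hy => ⟨(hFol y hy).1.trans he4, (hFol y hy).2⟩) z hz

end Pool.Agent.H5.BD
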