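import Mathlib

/-!
# Project BD, abstract part: definitions

`S` is a family of maps `ev f : ℂ → Y` (`f ∈ S`), closed under translations and limits, uniformly bi-Lipschitz on discs of radius `4 r₂`.
`Z` is a closed subset of `Y`.  The plaque of `f` at `w` is the image of `closedBall w r₂`.  `ρ f w g z` is a measure for the distance of the point
`ev g z` to the plaque of `f` at `w`, which is compared with holomorphic functions: it satisfies a local maximum principle with a Gaussian weight.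
-/

set_option autoImplicit false

open Topology Filter Metric

namespace Pool.Agent.H5.BD

variable {Y ι : Type} [MetricSpace Y]

/-- the plaque of `f` at `w` -/
def Pl (ev : ι → ℂ → Y) (r₂ : ℝ) (f : ι) (w : ℂ) : Set Y := ev f '' closedBall w r₂

/-- near `z₀` the curve `g` follows the curve `f`: `ev g z` is near `ev f (φ z)` -/
def FolAt (ev : ι → ℂ → Y) (r₂ s ε : ℝ) (f g : ι) (z₀ : ℂ) (φ : ℂ → ℂ) : Prop :=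
  ∀ z ∈ closedBall z₀ s, dist (ev g z) (ev f (φ z)) ≤ ε ∧ ‖φ z - φ z₀‖ ≤ r₂ / 4

/-- a family of uniformly bi-Lipschitz maps with a local maximum principle for the distance of two plaques -/
structure BFlow (S : Set ι) (ev : ι → ℂ → Y) (Z : Set Y) (ρ : ι → ℂ → ι → ℂ → ℝ) (L c r₂ r₃ κ : ℝ) : Prop where
  L_pos : 0 < L
  c_pos : 0 < c
  r₂_pos : 0 < r₂
  r₃_pos : 0 < r₃
  κ_pos : 0 < κ
  lip : ∀ f ∈ S, ∀ z w, dist (ev f z) (ev f w) ≤ L * ‖z - w‖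
  emb : ∀ f ∈ S, ∀ z w, ‖z - w‖ ≤ 4 * r₂ → c * ‖z - w‖ ≤ dist (ev f z) (ev f w)
  trans : ∀ f ∈ S, ∀ a : ℂ, ∃ f' ∈ S, ∀ z, ev f' z = ev f (z + a)
  lim : ∀ (𝒰 : Ultrafilter ℕ), (𝒰 : Filter ℕ) ≤ atTop → ∀ F : ℕ → ι, (∀ᶠ n in (𝒰 : Filter ℕ), F n ∈ S) →
    ∃ f ∈ S, ∀ z, Tendsto (fun n => ev (F n) z) 𝒰 (𝓝 (ev f z))
  closed : IsClosed Z
  dense : ∀ f ∈ S, (∀ z, ev f z ∈ Z) ∨ ∀ z₀, ∀ᶠ z in 𝓝[≠] z₀, ev f z ∉ Z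
  bdd : ∃ B ε : ℝ, 0 ≤ B ∧ 0 < ε ∧ ∀ f ∈ S, ∀ g ∈ S, ∀ w z, dist (ev g z) (ev f w) ≤ ε → 0 ≤ ρ f w g z ∧ ρ f w g z ≤ B
  loc : ∀ s, 0 < s → s ≤ r₃ → ∃ θ ε : ℝ, 0 ≤ θ ∧ θ < 1 ∧ 0 < ε ∧ ∀ f ∈ S, ∀ g ∈ S, ∀ z₀ φ, FolAt ev r₂ s ε f g z₀ φ → ∀ a : ℂ,
    ∃ z ∈ closedBall z₀ s, ρ f (φ z₀) g z₀ * Real.exp (-κ * ‖z₀ - a‖ ^ 2) ≤ θ * (ρ f (φ z) g z * Real.exp (-κ * ‖z - a‖ ^ 2))
  small : ∀ s, 0 < s → s ≤ r₃ → ∃ ε : ℝ, 0 < ε ∧ ∀ η : ℝ, 0 < η → ∃ δ : ℝ, 0 < δ ∧ ∀ f ∈ S, ∀ g ∈ S, ∀ z₀ φ,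
    FolAt ev r₂ s ε f g z₀ φ → ρ f (φ z₀) g z₀ ≤ δ → (∃ y ∈ Z, dist (ev g z₀) y ≤ η) ∨ ∃ w ∈ closedBall (φ z₀) r₂, dist (ev g z₀) (ev f w) ≤ η
  ident : ∃ ε : ℝ, 0 < ε ∧ ∀ f ∈ S, ∀ g ∈ S, ∀ z₀ w₀, dist (ev g z₀) (ev f w₀) ≤ ε → ∀ z₁ ∈ closedBall z₀ r₃,
    (∃ᶠ z in 𝓝[≠] z₁, ev g z ∈ Pl ev r₂ f w₀) → ∀ z ∈ closedBall z₀ r₃, ev g z ∈ Pl ev r₂ f w₀
  iso : ∀ g ∈ S, (∀ z, ev g z ∈ Z) → ∀ η : ℝ, 0 < η → ∃ z₁ : ℂ, ‖z₁‖ < η ∧ ∀ η' : ℝ, 0 < η' → ∃ δ : ℝ, 0 < δ ∧ ∀ f ∈ S, (∀ z, ev f z ∈ Z) →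
    ∀ w, dist (ev f w) (ev g z₁) < δ → ∃ z', ‖z' - z₁‖ < η' ∧ ev f w = ev g z'

/-- `g` is `f` up to a change of the variable -/
def Rel (ev : ι → ℂ → Y) (r₂ r : ℝ) (f g : ι) : Prop :=
  ∃ ψ : ℂ → ℂ, (∀ z, ev g z = ev f (ψ z)) ∧ (∀ z z', ‖z - z'‖ ≤ r → ‖ψ z - ψ z'‖ ≤ r₂) ∧ ‖ψ 0‖ ≤ r₂

/-- on the disc of radius `R` the curve `g` follows the curve `f` -/
structure Fol (ev : ι → ℂ → Y) (r₂ r ε R : ℝ) (f g : ι) (φ : ℂ → ℂ) : Prop where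
  close : ∀ z ∈ ball (0 : ℂ) R, dist (ev g z) (ev f (φ z)) ≤ ε
  cont : ∀ z ∈ ball (0 : ℂ) R, ∀ z' ∈ ball (0 : ℂ) R, ‖z - z'‖ ≤ r → ‖φ z - φ z'‖ ≤ r₂ / 4
  zero : φ 0 = 0

/-- the conditions on the constants `r` and `ε` -/
structure Cst (L c r₂ r₃ r ε : ℝ) : Prop where
  r_pos : 0 < r
  ε_pos : 0 < ε
  r_le : r ≤ r₂ / 4
  r_le₃ : r ≤ r₃
  hr : 32 * (L * r) ≤ c * r₂
  hε : 64 * ε ≤ c * r₂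

theorem Fol.folAt {ev : ι → ℂ → Y} {r₂ r ε R : ℝ} {f g : ι} {φ : ℂ → ℂ} (h : Fol ev r₂ r ε R f g φ) {z₀ : ℂ} {s : ℝ} (hs : s ≤ r) (hs0 : 0 ≤ s)
    (hz : ‖z₀‖ + s < R) {ε' : ℝ} (hε : ε ≤ ε') : FolAt ev r₂ s ε' f g z₀ φ := by
  intro z hz'
  rw [mem_closedBall, dist_eq_norm] at hz'
  have h0 : z₀ ∈ ball (0 : ℂ) R := by rw [mem_ball_zero_iff]; linarith
  have h1 : z ∈ ball (0 : ℂ) R := by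
    rw [mem_ball_zero_iff]
    have : ‖z‖ ≤ ‖z - z₀‖ + ‖z₀‖ := by simpa using norm_add_le (z - z₀) z₀
    linarith
  exact ⟨(h.close z h1).trans hε, h.cont z h1 z₀ h0 (hz'.trans hs)⟩

/-- the entire curves of `S` are continuous -/
theorem BFlow.continuous {S : Set ι} {ev : ι → ℂ → Y} {Z : Set Y} {ρ : ι → ℂ → ι → ℂ → ℝ} {L c r₂ r₃ κ : ℝ}
    (h : BFlow S ev Z ρ L c r₂ r₃ κ) {f : ι} (hf : f ∈ S) : Continuous (ev f) :=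
  (LipschitzWith.of_dist_le_mul (K := L.toNNReal) fun z w => by
    rw [Real.coe_toNNReal _ h.L_pos.le, dist_eq_norm z w]
    exact h.lip f hf z w).continuous

end Pool.Agent.H5.BD
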