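import Pool.Agent.H5.BD.ADef

/-!
# BD AExt: extension of a following function

`Fol.extend`.  Suppose that there are no such `z₁, z'`.  For `z ∈ ball 0 (R + r / 8)` with `R ≤ ‖z‖` let `z' = ((R - r / 8) / ‖z‖) • z`: `‖z'‖ = R - r / 8`,
`‖z - z'‖ = ‖z‖ - (R - r / 8) ≤ r / 4`, so there is `w ∈ closedBall (φ z') r₂` with `dist (ev g z) (ev f w) ≤ ε`; let `φ' z` be such a `w`; let `φ' z = φ z` for `‖z‖ < R`.
`close` and `zero` are clear (`R > 0`).  `cont`: for `z` with `‖z‖ < R + r / 8` let `p z = z` if `‖z‖ ≤ R - r / 8`, and `p z = ((R - r / 8) / ‖z‖) • z` otherwise;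
`‖z - p z‖ ≤ r / 4` and `‖p z‖ ≤ R - r / 8 < R`.  Then `‖φ' z - φ (p z)‖ ≤ r₂ / 20`: it is at most `4 r₂` (by the choice of `w`, resp. by `cont` for `φ` because `r / 4 ≤ r`; it is `0` if `p z = z`), so by
`emb`, `c ‖φ' z - φ (p z)‖ ≤ dist (ev f (φ' z)) (ev f (φ (p z))) ≤ 2 ε + dist (ev g z) (ev g (p z)) ≤ 2 ε + L r / 4 ≤ c r₂ / 32 + c r₂ / 128`.
Let `‖z - z̃‖ ≤ r`.  `‖p z - p z̃‖ ≤ r + r / 2`; let `m` be the midpoint of `p z`, `p z̃`, in `ball 0 R`; by `cont` twice `‖φ (p z) - φ (p z̃)‖ ≤ r₂ / 2 ≤ 4 r₂`, so by `emb`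
`c ‖φ (p z) - φ (p z̃)‖ ≤ 2 ε + 3 L r / 2 ≤ c r₂ / 32 + 3 c r₂ / 64`.  Together `‖φ' z - φ' z̃‖ ≤ 2 * (r₂ / 20) + 5 r₂ / 64 ≤ r₂ / 4`.

`exists_bad`.  If the second alternative does not hold then by induction on `k` there is a following function on the disc of radius `R₀ + k * (r / 8)` (`Fol.extend`).

`fol_id`: the identity follows if `f` and `g` are close.
-/

set_option autoImplicit false

open Topology Filter Metric

namespace Pool.Agent.H5.BD

variable {Y ι : Type} [MetricSpace Y] {S : Set ι} {ev : ι → ℂ → Y} {Z : Set Y} {ρ : ι → ℂ → ι → ℂ → ℝ} {L c r₂ r₃ κ r ε : ℝ}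

/-- the following function `φ` cannot be extended to a larger disc because of the point `z₁` -/
structure Bad (ev : ι → ℂ → Y) (r₂ r ε R : ℝ) (f g : ι) (φ : ℂ → ℂ) (z' z₁ : ℂ) : Prop where
  fol : Fol ev r₂ r ε R f g φ
  norm : ‖z'‖ = R - r / 8
  dist_le : ‖z₁ - z'‖ ≤ r / 4
  far : ∀ w ∈ closedBall (φ z') r₂, ε < dist (ev g z₁) (ev f w)

/-- the point of the disc of radius `R - r / 8` near `z` -/
private noncomputable def prj (q : ℝ) (z : ℂ) : ℂ := if ‖z‖ ≤ q then z else ((q / ‖z‖ : ℝ) : ℂ) * z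

private theorem norm_prj_le {q : ℝ} (hq : 0 ≤ q) (z : ℂ) : ‖prj q z‖ ≤ q := by
  unfold prj
  split_ifs with h
  · exact h
  · have hz : 0 < ‖z‖ := by linarith
    rw [norm_mul, Complex.norm_real, Real.norm_of_nonneg (by positivity), div_mul_cancel₀ _ hz.ne']

private theorem norm_prj_eq {q : ℝ} (hq : 0 ≤ q) {z : ℂ} (hz : q < ‖z‖) : ‖prj q z‖ = q := by
  unfold prj
  rw [if_neg (not_le.mpr hz)]
  have hz : 0 < ‖z‖ := by linarith
  rw [norm_mul, Complex.norm_real, Real.norm_of_nonneg (by positivity), div_mul_cancel₀ _ hz.ne']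

private theorem norm_sub_prj {q t : ℝ} (hq : 0 ≤ q) (ht : 0 ≤ t) {z : ℂ} (hz : ‖z‖ ≤ q + t) : ‖z - prj q z‖ ≤ t := by
  unfold prj
  split_ifs with h
  · simpa using ht
  · have hz0 : 0 < ‖z‖ := by linarith
    have h1 : z - ((q / ‖z‖ : ℝ) : ℂ) * z = (((‖z‖ - q) / ‖z‖ : ℝ) : ℂ) * z := by
      have : ((‖z‖ - q) / ‖z‖ : ℝ) = 1 - q / ‖z‖ := by field_simp
      rw [this]
      push_cast
      ring
    rw [h1, norm_mul, Complex.norm_real, Real.norm_of_nonneg (div_nonneg (by linarith) hz0.le), div_mul_cancel₀ _ hz0.ne']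
    linarith

theorem Fol.extend (h : BFlow S ev Z ρ L c r₂ r₃ κ) (hc : Cst L c r₂ r₃ r ε) {f g : ι} (hf : f ∈ S) (hg : g ∈ S) {R : ℝ} (hR : r ≤ R)
    {φ : ℂ → ℂ} (hfol : Fol ev r₂ r ε R f g φ) :
    (∃ φ', Fol ev r₂ r ε (R + r / 8) f g φ') ∨ ∃ z' z₁, Bad ev r₂ r ε R f g φ z' z₁ := by
  by_cases hbad : ∃ z' z₁, Bad ev r₂ r ε R f g φ z' z₁
  · exact Or.inr hbad
  refine Or.inl ?_
  have hr := hc.r_pos
  have hr₂ := h.r₂_pos
  have hcp := h.c_pos
  have hL := h.L_pos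
  have hq0 : 0 ≤ R - r / 8 := by linarith
  have hpR : ∀ z : ℂ, prj (R - r / 8) z ∈ ball (0 : ℂ) R := by
    intro z
    rw [mem_ball_zero_iff]
    have := norm_prj_le hq0 z
    linarith
  have hpd : ∀ z : ℂ, ‖z‖ < R + r / 8 → ‖z - prj (R - r / 8) z‖ ≤ r / 4 := by
    intro z hz
    exact norm_sub_prj hq0 (by linarith) (by linarith)
  have hex : ∀ z : ℂ, ∃ w : ℂ, (‖z‖ < R → w = φ z) ∧
      (R ≤ ‖z‖ → ‖z‖ < R + r / 8 → ‖w - φ (prj (R - r / 8) z)‖ ≤ r₂ ∧ dist (ev g z) (ev f w) ≤ ε) := by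
    intro z
    by_cases h1 : ‖z‖ < R
    · exact ⟨φ z, fun _ => rfl, fun h2 => absurd h1 (not_lt.mpr h2)⟩
    by_cases h2 : ‖z‖ < R + r / 8
    · have h3 : ∃ w ∈ closedBall (φ (prj (R - r / 8) z)) r₂, dist (ev g z) (ev f w) ≤ ε := by
        by_contra hcon
        push Not at hcon
        exact hbad ⟨prj (R - r / 8) z, z, hfol, norm_prj_eq hq0 (by linarith), hpd z h2, hcon⟩
      obtain ⟨w, hw, hw'⟩ := h3
      rw [mem_closedBall, dist_eq_norm] at hw
      exact ⟨w, fun h4 => absurd h4 h1, fun _ _ => ⟨hw, hw'⟩⟩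
    · exact ⟨0, fun h4 => absurd h4 h1, fun _ h4 => absurd h4 h2⟩
  choose φ' hφ1 hφ2 using hex
  have hclose : ∀ z ∈ ball (0 : ℂ) (R + r / 8), dist (ev g z) (ev f (φ' z)) ≤ ε := by
    intro z hz
    rw [mem_ball_zero_iff] at hz
    rcases lt_or_ge ‖z‖ R with h1 | h1
    · rw [hφ1 z h1]
      exact hfol.close z (by rw [mem_ball_zero_iff]; exact h1)
    · exact (hφ2 z h1 hz).2
  have hB0 : ∀ z ∈ ball (0 : ℂ) (R + r / 8), ‖φ' z - φ (prj (R - r / 8) z)‖ ≤ 4 * r₂ := by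
    intro z hz
    rw [mem_ball_zero_iff] at hz
    rcases lt_or_ge ‖z‖ R with h1 | h1
    · rw [hφ1 z h1]
      have h2 := hfol.cont z (by rw [mem_ball_zero_iff]; exact h1) _ (hpR z) ((hpd z hz).trans (by linarith))
      linarith
    · have := (hφ2 z h1 hz).1
      linarith
  have hB : ∀ z ∈ ball (0 : ℂ) (R + r / 8), ‖φ' z - φ (prj (R - r / 8) z)‖ ≤ r₂ / 20 := by
    intro z hz
    have h1 := h.emb f hf _ _ (hB0 z hz)
    have h2 := hclose z hz
    rw [mem_ball_zero_iff] at hz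
    have h3 := hfol.close _ (hpR z)
    have h4 := h.lip g hg z (prj (R - r / 8) z)
    have h5 : L * ‖z - prj (R - r / 8) z‖ ≤ L * (r / 4) := mul_le_mul_of_nonneg_left (hpd z hz) hL.le
    have h6 : dist (ev f (φ' z)) (ev f (φ (prj (R - r / 8) z))) ≤
        dist (ev g z) (ev f (φ' z)) + dist (ev g z) (ev g (prj (R - r / 8) z)) + dist (ev g (prj (R - r / 8) z)) (ev f (φ (prj (R - r / 8) z))) := by
      have e1 := dist_triangle (ev f (φ' z)) (ev g z) (ev f (φ (prj (R - r / 8) z)))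
      have e2 := dist_triangle (ev g z) (ev g (prj (R - r / 8) z)) (ev f (φ (prj (R - r / 8) z)))
      rw [dist_comm (ev f (φ' z)) (ev g z)] at e1
      linarith
    have h7 : c * ‖φ' z - φ (prj (R - r / 8) z)‖ ≤ c * (r₂ / 20) := by
      have := hc.hr
      have := hc.hε
      have : 0 < c * r₂ := by positivity
      linarith
    exact le_of_mul_le_mul_left h7 hcp
  refine ⟨φ', hclose, ?_, ?_⟩
  · intro z hz z' hz' hzz
    set p := prj (R - r / 8) z with hp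
    set p' := prj (R - r / 8) z' with hp'
    have a1 := hB z hz
    have a2 := hB z' hz'
    rw [← hp] at a1
    rw [← hp'] at a2
    have b1 : ‖z - p‖ ≤ r / 4 := hpd z (by rwa [mem_ball_zero_iff] at hz)
    have b2 : ‖z' - p'‖ ≤ r / 4 := hpd z' (by rwa [mem_ball_zero_iff] at hz')
    have hpp : ‖p - p'‖ ≤ r + r / 2 := by
      have e : p - p' = (z - z') - (z - p) + (z' - p') := by ring
      have e1 := norm_add_le ((z - z') - (z - p)) (z' - p')
      have e2 := norm_sub_le (z - z') (z - p)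
      rw [e]
      linarith
    have hpm : p ∈ ball (0 : ℂ) R := hpR z
    have hpm' : p' ∈ ball (0 : ℂ) R := hpR z'
    have hm : (p + p') / 2 ∈ ball (0 : ℂ) R := by
      rw [mem_ball_zero_iff] at hpm hpm' ⊢
      have e1 := norm_add_le p p'
      rw [norm_div, Complex.norm_ofNat]
      linarith
    have m1 : ‖p - (p + p') / 2‖ ≤ r := by
      have e : p - (p + p') / 2 = (p - p') / 2 := by ring
      rw [e, norm_div, Complex.norm_ofNat]
      linarith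
    have m2 : ‖(p + p') / 2 - p'‖ ≤ r := by
      have e : (p + p') / 2 - p' = (p - p') / 2 := by ring
      rw [e, norm_div, Complex.norm_ofNat]
      linarith
    have c1 := hfol.cont _ hpm _ hm m1
    have c2 := hfol.cont _ hm _ hpm' m2
    have c3 : ‖φ p - φ p'‖ ≤ 4 * r₂ := by
      have := norm_sub_le_norm_sub_add_norm_sub (φ p) (φ ((p + p') / 2)) (φ p')
      linarith
    have h1 := h.emb f hf _ _ c3
    have h2 := hfol.close _ hpm
    have h3 := hfol.close _ hpm'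
    have h4 := h.lip g hg p p'
    have h5 : L * ‖p - p'‖ ≤ L * (r + r / 2) := mul_le_mul_of_nonneg_left hpp hL.le
    have h6 : dist (ev f (φ p)) (ev f (φ p')) ≤ dist (ev g p) (ev f (φ p)) + dist (ev g p) (ev g p') + dist (ev g p') (ev f (φ p')) := by
      have e1 := dist_triangle (ev f (φ p)) (ev g p) (ev f (φ p'))
      have e2 := dist_triangle (ev g p) (ev g p') (ev f (φ p'))
      rw [dist_comm (ev f (φ p)) (ev g p)] at e1
      linarith
    have h7 : c * ‖φ p - φ p'‖ ≤ c * (5 * r₂ / 64) := by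
      have := hc.hr
      have := hc.hε
      have : 0 < c * r₂ := by positivity
      linarith
    have h8 := le_of_mul_le_mul_left h7 hcp
    have e : φ' z - φ' z' = (φ' z - φ p) + (φ p - φ p') - (φ' z' - φ p') := by ring
    have e1 := norm_sub_le ((φ' z - φ p) + (φ p - φ p')) (φ' z' - φ p')
    have e2 := norm_add_le (φ' z - φ p) (φ p - φ p')
    rw [e]
    linarith
  · rw [hφ1 0 (by rw [norm_zero]; linarith)]
    exact hfol.zero

theorem exists_bad (h : BFlow S ev Z ρ L c r₂ r₃ κ) (hc : Cst L c r₂ r₃ r ε) {f g : ι} (hf : f ∈ S) (hg : g ∈ S) {R₀ : ℝ} (hR : r ≤ R₀)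
    (h0 : ∃ φ, Fol ev r₂ r ε R₀ f g φ) :
    (∀ k : ℕ, ∃ (R : ℝ) (φ : ℂ → ℂ), (k : ℝ) ≤ R ∧ Fol ev r₂ r ε R f g φ) ∨
      ∃ (R : ℝ) (φ : ℂ → ℂ) (z' z₁ : ℂ), R₀ ≤ R ∧ Bad ev r₂ r ε R f g φ z' z₁ := by
  by_cases hbad : ∃ (R : ℝ) (φ : ℂ → ℂ) (z' z₁ : ℂ), R₀ ≤ R ∧ Bad ev r₂ r ε R f g φ z' z₁
  · exact Or.inr hbad
  refine Or.inl ?_
  have hr := hc.r_pos
  have hind : ∀ m : ℕ, ∃ φ : ℂ → ℂ, Fol ev r₂ r ε (R₀ + m * (r / 8)) f g φ := by
    intro m
    induction m with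
    | zero => simpa using h0
    | succ m ih =>
      obtain ⟨φ, hφ⟩ := ih
      have hm : (0 : ℝ) ≤ m * (r / 8) := by positivity
      rcases Fol.extend h hc hf hg (by linarith) hφ with ⟨φ', hφ'⟩ | ⟨z', z₁, hb⟩
      · refine ⟨φ', ?_⟩
        have e : R₀ + ((m + 1 : ℕ) : ℝ) * (r / 8) = R₀ + m * (r / 8) + r / 8 := by
          push_cast
          ring
        rw [e]
        exact hφ'
      · exact absurd ⟨_, φ, z', z₁, by linarith, hb⟩ hbad
  intro k
  obtain ⟨m, hm⟩ := exists_nat_ge ((k : ℝ) / (r / 8))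
  obtain ⟨φ, hφ⟩ := hind m
  refine ⟨_, φ, ?_, hφ⟩
  rw [div_le_iff₀ (by positivity)] at hm
  linarith

theorem fol_id (hc : Cst L c r₂ r₃ r ε) {f g : ι} {n : ℝ} (hfg : ∀ z ∈ closedBall (0 : ℂ) n, dist (ev f z) (ev g z) ≤ ε) :
    Fol ev r₂ r ε n f g id := by
  refine ⟨?_, ?_, rfl⟩
  · intro z hz
    rw [dist_comm]
    exact hfg z (ball_subset_closedBall hz)
  · intro z _ z' _ hzz
    exact hzz.trans hc.r_le

end Pool.Agent.H5.BD
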