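import Pool.Agent.H5.BD.ADef

/-!
# BD ALim: limits of translates

`lim_trans`: choose `f' n ∈ S` with `ev (f' n) z = ev (f n) (z + a n)` (`trans`; for `n` with `f n ∈ S`) and apply `lim`.
`unif`: `closedBall 0 R` is covered by finitely many balls of radius `ε / (4 L)`; `ev F` has the Lipschitz constant `L` (`F ∈ S`), and at the finitely many centres eventually
`dist < ε / 4`.
`tendsto_at`: `dist (ev (f n) (b n + a n)) (ev F b) ≤ L ‖b n - b‖ + dist (ev (f n) (b + a n)) (ev F b)`.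
`exists_lim_bdd`: a bounded sequence in `ℂ` has a limit along an ultrafilter (`closedBall 0 C` is compact, `IsCompact.ultrafilter_le_nhds` for the image ultrafilter).
-/

set_option autoImplicit false

open Topology Filter Metric

namespace Pool.Agent.H5.BD

variable {Y ι : Type} [MetricSpace Y] {S : Set ι} {ev : ι → ℂ → Y} {Z : Set Y} {ρ : ι → ℂ → ι → ℂ → ℝ} {L c r₂ r₃ κ : ℝ}

theorem BFlow.lim_trans (h : BFlow S ev Z ρ L c r₂ r₃ κ) (𝒰 : Ultrafilter ℕ) (h𝒰 : (𝒰 : Filter ℕ) ≤ atTop) (f : ℕ → ι) (a : ℕ → ℂ)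
    (hf : ∀ᶠ n in (𝒰 : Filter ℕ), f n ∈ S) : ∃ F ∈ S, ∀ z, Tendsto (fun n => ev (f n) (z + a n)) 𝒰 (𝓝 (ev F z)) := by
  classical
  have key : ∀ n, ∃ g, f n ∈ S → (g ∈ S ∧ ∀ z, ev g z = ev (f n) (z + a n)) := by
    intro n
    by_cases hn : f n ∈ S
    · obtain ⟨g, hg, hg'⟩ := h.trans (f n) hn (a n)
      exact ⟨g, fun _ => ⟨hg, hg'⟩⟩
    · exact ⟨f n, fun h' => absurd h' hn⟩
  choose F' hF' using key
  obtain ⟨F, hF, hlim⟩ := h.lim 𝒰 h𝒰 F' (hf.mono fun n hn => (hF' n hn).1)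
  refine ⟨F, hF, fun z => (hlim z).congr' ?_⟩
  filter_upwards [hf] with n hn
  exact (hF' n hn).2 z

theorem BFlow.unif (h : BFlow S ev Z ρ L c r₂ r₃ κ) (𝒰 : Ultrafilter ℕ) {f : ℕ → ι} {a : ℕ → ℂ}
    (hf : ∀ᶠ n in (𝒰 : Filter ℕ), f n ∈ S) {F : ι} (hF : F ∈ S) (hlim : ∀ z, Tendsto (fun n => ev (f n) (z + a n)) 𝒰 (𝓝 (ev F z)))
    (R : ℝ) {ε : ℝ} (hε : 0 < ε) : ∀ᶠ n in (𝒰 : Filter ℕ), ∀ z ∈ closedBall (0 : ℂ) R, dist (ev (f n) (z + a n)) (ev F z) < ε := by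
  have hL := h.L_pos
  have hδ : 0 < ε / (4 * L) := by positivity
  have hLδ : L * (ε / (4 * L)) = ε / 4 := by field_simp
  obtain ⟨t, -, htf, hcov⟩ := (isCompact_closedBall (0 : ℂ) R).finite_cover_balls hδ
  have h1 : ∀ᶠ n in (𝒰 : Filter ℕ), ∀ x ∈ t, dist (ev (f n) (x + a n)) (ev F x) < ε / 4 :=
    (Filter.eventually_all_finite htf).2 fun x _ =>
      Metric.tendsto_nhds.1 (hlim x) (ε / 4) (by positivity)
  filter_upwards [hf, h1] with n hn h1n z hz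
  obtain ⟨x, hx, hzx⟩ : ∃ x ∈ t, z ∈ ball x (ε / (4 * L)) := by
    have := hcov hz
    simpa only [Set.mem_iUnion, exists_prop] using this
  rw [mem_ball, dist_eq_norm] at hzx
  have e1 : dist (ev (f n) (z + a n)) (ev (f n) (x + a n)) ≤ ε / 4 := by
    refine (h.lip (f n) hn _ _).trans ?_
    rw [add_sub_add_right_eq_sub]
    calc L * ‖z - x‖ ≤ L * (ε / (4 * L)) := mul_le_mul_of_nonneg_left hzx.le hL.le
      _ = ε / 4 := hLδ
  have e2 : dist (ev F x) (ev F z) ≤ ε / 4 := by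
    refine (h.lip F hF _ _).trans ?_
    rw [norm_sub_rev]
    calc L * ‖z - x‖ ≤ L * (ε / (4 * L)) := mul_le_mul_of_nonneg_left hzx.le hL.le
      _ = ε / 4 := hLδ
  have e3 := h1n x hx
  have e4 := dist_triangle4 (ev (f n) (z + a n)) (ev (f n) (x + a n)) (ev F x) (ev F z)
  linarith

theorem BFlow.tendsto_at (h : BFlow S ev Z ρ L c r₂ r₃ κ) (𝒰 : Ultrafilter ℕ) {f : ℕ → ι} {a b : ℕ → ℂ}
    (hf : ∀ᶠ n in (𝒰 : Filter ℕ), f n ∈ S) {F : ι} (hlim : ∀ z, Tendsto (fun n => ev (f n) (z + a n)) 𝒰 (𝓝 (ev F z)))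
    {b₀ : ℂ} (hb : Tendsto b 𝒰 (𝓝 b₀)) : Tendsto (fun n => ev (f n) (b n + a n)) 𝒰 (𝓝 (ev F b₀)) := by
  rw [tendsto_iff_dist_tendsto_zero]
  have h1 : Tendsto (fun n => L * ‖b n - b₀‖ + dist (ev (f n) (b₀ + a n)) (ev F b₀)) 𝒰 (𝓝 0) := by
    have h2 : Tendsto (fun n => ‖b n - b₀‖) 𝒰 (𝓝 0) := tendsto_iff_norm_sub_tendsto_zero.1 hb
    have h3 := tendsto_iff_dist_tendsto_zero.1 (hlim b₀)
    have h4 := (h2.const_mul L).add h3
    rwa [mul_zero, add_zero] at h4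
  refine squeeze_zero' (Eventually.of_forall fun n => dist_nonneg) ?_ h1
  filter_upwards [hf] with n hn
  refine (dist_triangle _ (ev (f n) (b₀ + a n)) _).trans (add_le_add ?_ le_rfl)
  have := h.lip (f n) hn (b n + a n) (b₀ + a n)
  rwa [add_sub_add_right_eq_sub] at this

theorem exists_lim_bdd (𝒰 : Ultrafilter ℕ) {b : ℕ → ℂ} {C : ℝ} (hb : ∀ᶠ n in (𝒰 : Filter ℕ), ‖b n‖ ≤ C) :
    ∃ b₀ : ℂ, ‖b₀‖ ≤ C ∧ Tendsto b 𝒰 (𝓝 b₀) := by
  obtain ⟨b₀, hb₀, hle⟩ := (isCompact_closedBall (0 : ℂ) C).ultrafilter_le_nhds (𝒰.map b) (by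
    rw [le_principal_iff, Ultrafilter.coe_map, Filter.mem_map]
    filter_upwards [hb] with n hn
    rw [Set.mem_preimage, mem_closedBall_zero_iff]
    exact hn)
  refine ⟨b₀, mem_closedBall_zero_iff.1 hb₀, ?_⟩
  rwa [Ultrafilter.coe_map] at hle

end Pool.Agent.H5.BD
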