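import Pool.Agent.H5.BD.AAdm
import Pool.Agent.H5.BD.ALim

/-!
# BD AInf: `g` follows `f` everywhere

Let `R k ≥ k` and `φ k` be as in the hypothesis.  For fixed `z` and `k > ‖z‖`: `‖φ k z‖ ≤ (‖z‖ / r + 1) (r₂ / 4)` (go from `0` to `z` in steps of length `≤ r`; `φ k 0 = 0`).  Let `φ z` be the
limit of `φ k z` along `hyperfilter ℕ` (`exists_lim_bdd`).  Then (`lip` for `f`) `dist (ev g z) (ev f (φ z)) ≤ ε` for all `z`, `‖φ z - φ z'‖ ≤ r₂ / 4` if `‖z - z'‖ ≤ r`, `φ 0 = 0`: so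
`Fol ev r₂ r ε R f g φ` for all `R`.  `decay` for fixed `z` and `R → ∞` gives `ρ f (φ z) g z ≤ 0`.  Let `s = r / 32`; `FolAt ev r₂ s ε f g z φ` holds for all `z` (`Fol.folAt`).
By `small` (for all `η > 0`): for every `z`, `ev g z ∈ Z` (closed) or `ev g z` is in the plaque `Pl ev r₂ f (φ z)` (compact).
Claim: `ev g z₀ ∈ Pl ev r₂ f (φ z₀)` for all `z₀`.
* If not all `ev g z` are in `Z`: by `dense` `ev g z ∉ Z` for `z ≠ z₀` near `z₀`, so `ev g z = ev f w` with `w ∈ closedBall (φ z) r₂`; by `emb`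
  `c ‖w - φ z‖ ≤ dist (ev f w) (ev f (φ z)) ≤ ε ≤ c r₂ / 64` and `‖φ z - φ z₀‖ ≤ r₂ / 4`, so `w ∈ closedBall (φ z₀) r₂`.  `ident` (`w₀ = φ z₀`, `z₁ = z₀`).
* If all `ev g z` are in `Z` then by `hZ` all `ev f z` are in `Z`: `iso`.
Let `ψ z ∈ closedBall (φ z) r₂` with `ev g z = ev f (ψ z)`; as above `‖ψ z - φ z‖ ≤ r₂ / 64`.  So `‖ψ z - ψ z'‖ ≤ r₂ / 64 + r₂ / 4 + r₂ / 64 ≤ r₂` if `‖z - z'‖ ≤ r`; and
`‖ψ 0‖ ≤ ‖φ 0‖ + r₂ / 64 ≤ r₂`.
-/

set_option autoImplicit false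

open Topology Filter Metric

namespace Pool.Agent.H5.BD

variable {Y ι : Type} [MetricSpace Y] {S : Set ι} {ev : ι → ℂ → Y} {Z : Set Y} {ρ : ι → ℂ → ι → ℂ → ℝ} {L c r₂ r₃ κ r ε B : ℝ}

/-- the parameter of a point at distance at most `n * r` from `0` has norm at most `n * (r₂ / 4)` -/
private theorem norm_le_of_fol {f g : ι} {φ : ℂ → ℂ} {R : ℝ} (hr : 0 < r) (h : Fol ev r₂ r ε R f g φ) (n : ℕ) :
    ∀ z ∈ ball (0 : ℂ) R, ‖z‖ ≤ n * r → ‖φ z‖ ≤ n * (r₂ / 4) := by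
  induction n with
  | zero =>
    intro z _ hz
    have h0 : z = 0 := by
      have : ‖z‖ ≤ 0 := by simpa using hz
      exact norm_le_zero_iff.mp this
    subst h0
    rw [h.zero]
    simp
  | succ n ih =>
    intro z hzR hz
    have hn : (0 : ℝ) < (n : ℝ) + 1 := by positivity
    push_cast at hz ⊢
    set t : ℝ := (n : ℝ) / ((n : ℝ) + 1) with ht
    have ht0 : 0 ≤ t := by positivity
    have ht1 : t ≤ 1 := by
      rw [ht, div_le_one hn]
      linarith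
    have hnt : ‖((t : ℂ) * z)‖ = t * ‖z‖ := by
      rw [norm_mul, Complex.norm_real, Real.norm_eq_abs, abs_of_nonneg ht0]
    have hz'R : ((t : ℂ) * z) ∈ ball (0 : ℂ) R := by
      rw [mem_ball_zero_iff] at hzR ⊢
      rw [hnt]
      have : t * ‖z‖ ≤ 1 * ‖z‖ := mul_le_mul_of_nonneg_right ht1 (norm_nonneg _)
      linarith
    have h1 : ‖((t : ℂ) * z)‖ ≤ n * r := by
      rw [hnt]
      calc t * ‖z‖ ≤ t * (((n : ℝ) + 1) * r) := mul_le_mul_of_nonneg_left hz ht0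
        _ = n * r := by rw [ht]; field_simp
    have h2 : ‖z - (t : ℂ) * z‖ ≤ r := by
      have e1 : z - (t : ℂ) * z = ((1 - t : ℝ) : ℂ) * z := by push_cast; ring
      rw [e1, norm_mul, Complex.norm_real, Real.norm_eq_abs, abs_of_nonneg (by linarith)]
      have e2 : 1 - t = 1 / ((n : ℝ) + 1) := by rw [ht]; field_simp; ring
      rw [e2, one_div, inv_mul_le_iff₀ hn]
      linarith
    have h3 := h.cont z hzR _ hz'R h2
    have h4 := ih _ hz'R h1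
    have h5 : ‖φ z‖ ≤ ‖φ z - φ ((t : ℂ) * z)‖ + ‖φ ((t : ℂ) * z)‖ := by
      simpa using norm_add_le (φ z - φ ((t : ℂ) * z)) (φ ((t : ℂ) * z))
    linarith

/-- limits of the parameters along an ultrafilter -/
private theorem exists_phi (h : BFlow S ev Z ρ L c r₂ r₃ κ) (hr : 0 < r) {f g : ι} (hf : f ∈ S)
    (hall : ∀ k : ℕ, ∃ (R : ℝ) (φ : ℂ → ℂ), (k : ℝ) ≤ R ∧ Fol ev r₂ r ε R f g φ) :
    ∃ φ : ℂ → ℂ, (∀ z, dist (ev g z) (ev f (φ z)) ≤ ε) ∧ (∀ z z', ‖z - z'‖ ≤ r → ‖φ z - φ z'‖ ≤ r₂ / 4) ∧ φ 0 = 0 := by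
  choose R φ hR hFol using hall
  have hU : ((hyperfilter ℕ : Ultrafilter ℕ) : Filter ℕ) ≤ atTop := by
    rw [← Nat.cofinite_eq_atTop]
    exact hyperfilter_le_cofinite
  have hev : ∀ z : ℂ, ∀ᶠ k in ((hyperfilter ℕ : Ultrafilter ℕ) : Filter ℕ), z ∈ ball (0 : ℂ) (R k) := by
    intro z
    have : ∀ᶠ k : ℕ in atTop, ‖z‖ < (k : ℝ) := (tendsto_natCast_atTop_atTop (R := ℝ)).eventually_gt_atTop ‖z‖
    filter_upwards [hU this] with k hk
    rw [mem_ball_zero_iff]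
    exact lt_of_lt_of_le hk (hR k)
  have hlim : ∀ z : ℂ, ∃ b₀ : ℂ, Tendsto (fun k => φ k z) ((hyperfilter ℕ : Ultrafilter ℕ) : Filter ℕ) (𝓝 b₀) := by
    intro z
    obtain ⟨b₀, _, hb⟩ := exists_lim_bdd (hyperfilter ℕ) (b := fun k => φ k z) (C := (⌈‖z‖ / r⌉₊ : ℝ) * (r₂ / 4)) (by
      filter_upwards [hev z] with k hk
      refine norm_le_of_fol hr (hFol k) _ z hk ?_
      rw [← div_le_iff₀ hr]
      exact Nat.le_ceil _)
    exact ⟨b₀, hb⟩
  choose ψ hψ using hlim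
  refine ⟨ψ, ?_, ?_, ?_⟩
  · intro z
    have h1 : Tendsto (fun k => dist (ev g z) (ev f (φ k z))) ((hyperfilter ℕ : Ultrafilter ℕ) : Filter ℕ) (𝓝 (dist (ev g z) (ev f (ψ z)))) :=
      tendsto_const_nhds.dist (((h.continuous hf).tendsto _).comp (hψ z))
    refine le_of_tendsto h1 ?_
    filter_upwards [hev z] with k hk
    exact (hFol k).close z hk
  · intro z z' hzz
    have h1 : Tendsto (fun k => ‖φ k z - φ k z'‖) ((hyperfilter ℕ : Ultrafilter ℕ) : Filter ℕ) (𝓝 ‖ψ z - ψ z'‖) :=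
      ((hψ z).sub (hψ z')).norm
    refine le_of_tendsto h1 ?_
    filter_upwards [hev z, hev z'] with k hk hk'
    exact (hFol k).cont z hk z' hk' hzz
  · have h1 : Tendsto (fun k => φ k 0) ((hyperfilter ℕ : Ultrafilter ℕ) : Filter ℕ) (𝓝 0) := by
      have : (fun k => φ k 0) = fun _ => (0 : ℂ) := by
        funext k
        exact (hFol k).zero
      rw [this]
      exact tendsto_const_nhds
    exact tendsto_nhds_unique (hψ 0) h1

private theorem exp_tendsto {B κ r a : ℝ} (hκ : 0 < κ) :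
    Tendsto (fun R : ℝ => B * Real.exp (-κ * ((R - r / 32) ^ 2 - a ^ 2))) atTop (𝓝 0) := by
  have h1 : Tendsto (fun R : ℝ => R - r / 32) atTop atTop := tendsto_atTop_add_const_right _ _ tendsto_id
  have h2 : Tendsto (fun R : ℝ => (R - r / 32) ^ 2) atTop atTop := (tendsto_pow_atTop (two_ne_zero)).comp h1
  have h3 : Tendsto (fun R : ℝ => (R - r / 32) ^ 2 - a ^ 2) atTop atTop := tendsto_atTop_add_const_right _ _ h2
  have h4 : Tendsto (fun R : ℝ => -κ * ((R - r / 32) ^ 2 - a ^ 2)) atTop atBot :=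
    h3.const_mul_atTop_of_neg (by linarith)
  have h5 := (Real.tendsto_exp_atBot.comp h4).const_mul B
  simpa using h5

theorem Adm.rel_of_all (h : BFlow S ev Z ρ L c r₂ r₃ κ) (ha : Adm S ev Z ρ L c r₂ r₃ κ r ε B) {f g : ι} (hf : f ∈ S) (hg : g ∈ S)
    (hall : ∀ k : ℕ, ∃ (R : ℝ) (φ : ℂ → ℂ), (k : ℝ) ≤ R ∧ Fol ev r₂ r ε R f g φ)
    (hZ : (∀ z, ev g z ∈ Z) → ∀ z, ev f z ∈ Z) : Rel ev r₂ r f g := by
  have hr : 0 < r := ha.cst.r_pos
  have hr₂ : 0 < r₂ := h.r₂_pos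
  have hr₃ : 0 < r₃ := h.r₃_pos
  have hc : 0 < c := h.c_pos
  obtain ⟨φ, hclose, hcont, hzero⟩ := exists_phi h hr hf hall
  have hFol : ∀ R : ℝ, Fol ev r₂ r ε R f g φ := fun R =>
    ⟨fun z _ => hclose z, fun z _ z' _ hz => hcont z z' hz, hzero⟩
  have hFolAt : ∀ z : ℂ, FolAt ev r₂ (r / 32) ε f g z φ := fun z =>
    (hFol (‖z‖ + r / 32 + 1)).folAt (by linarith) (by linarith) (by linarith) le_rfl
  have hρ : ∀ z, ρ f (φ z) g z ≤ 0 := by
    intro z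
    refine ge_of_tendsto (exp_tendsto (B := B) (κ := κ) (r := r) (a := ‖z‖) h.κ_pos) ?_
    filter_upwards [eventually_ge_atTop r, eventually_gt_atTop ‖z‖] with R h1 h2
    exact ha.decay f hf g hg φ R h1 (hFol R) z (by rwa [mem_ball_zero_iff])
  -- `g` is on the plaque of `f` or in `Z`
  have hor : ∀ z, ev g z ∈ Z ∨ ev g z ∈ Pl ev r₂ f (φ z) := by
    intro z
    by_contra hcon
    rw [not_or] at hcon
    obtain ⟨hn1, hn2⟩ := hcon
    have hcl : IsClosed (Pl ev r₂ f (φ z)) :=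
      ((isCompact_closedBall (φ z) r₂).image (h.continuous hf)).isClosed
    obtain ⟨η₁, hη₁, hb₁⟩ := Metric.isOpen_iff.mp h.closed.isOpen_compl _ hn1
    obtain ⟨η₂, hη₂, hb₂⟩ := Metric.isOpen_iff.mp hcl.isOpen_compl _ hn2
    have hη : 0 < min η₁ η₂ / 2 := by positivity
    obtain ⟨δ, hδ, hsm⟩ := ha.small (min η₁ η₂ / 2) hη
    have hlt₁ : min η₁ η₂ / 2 < η₁ := by
      have := min_le_left η₁ η₂
      linarith
    have hlt₂ : min η₁ η₂ / 2 < η₂ := by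
      have := min_le_right η₁ η₂
      linarith
    rcases hsm f hf g hg z φ (hFolAt z) ((hρ z).trans hδ.le) with ⟨y, hy, hd⟩ | ⟨w, hw, hd⟩
    · exact hb₁ (show y ∈ ball (ev g z) η₁ by
        rw [mem_ball, dist_comm]
        exact lt_of_le_of_lt hd hlt₁) hy
    · exact hb₂ (show ev f w ∈ ball (ev g z) η₂ by
        rw [mem_ball, dist_comm]
        exact lt_of_le_of_lt hd hlt₂) ⟨w, hw, rfl⟩
  -- points of the plaque are near the centre
  have hnear : ∀ z w, w ∈ closedBall (φ z) r₂ → ev f w = ev g z → ‖w - φ z‖ ≤ r₂ / 64 := by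
    intro z w hw hwe
    rw [mem_closedBall, dist_eq_norm] at hw
    have h1 := h.emb f hf w (φ z) (by linarith)
    rw [hwe] at h1
    have h2 := ha.cst.hε
    have h3 : c * ‖w - φ z‖ ≤ c * (r₂ / 64) := by
      have := h1.trans (hclose z)
      linarith
    exact le_of_mul_le_mul_left h3 hc
  have hclaim : ∀ z₀, ev g z₀ ∈ Pl ev r₂ f (φ z₀) := by
    intro z₀
    rcases h.dense g hg with hZg | hd
    · exact ha.iso f hf g hg (hZ hZg) hZg z₀ φ (hFolAt z₀) z₀ (mem_closedBall_self hr₃.le)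
    · refine ha.ident f hf g hg z₀ (φ z₀) (hclose z₀) z₀ (mem_closedBall_self hr₃.le) ?_ z₀ (mem_closedBall_self hr₃.le)
      have hev : ∀ᶠ z in 𝓝[≠] z₀, ev g z ∈ Pl ev r₂ f (φ z₀) := by
        have hball : ∀ᶠ z in 𝓝[≠] z₀, z ∈ closedBall z₀ r :=
          nhdsWithin_le_nhds (closedBall_mem_nhds z₀ hr)
        filter_upwards [hd z₀, hball] with z hz hzr
        rcases hor z with h1 | h1
        · exact absurd h1 hz
        · obtain ⟨w, hw, hwe⟩ := h1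
          refine ⟨w, ?_, hwe⟩
          have h2 := hnear z w hw hwe
          rw [mem_closedBall, dist_eq_norm] at hzr
          have h3 := hcont z z₀ hzr
          rw [mem_closedBall, dist_eq_norm]
          have h4 : ‖w - φ z₀‖ ≤ ‖w - φ z‖ + ‖φ z - φ z₀‖ := by
            simpa using norm_add_le (w - φ z) (φ z - φ z₀)
          linarith
      exact hev.frequently
  choose ψ hψ₁ hψ₂ using hclaim
  have hψ₃ : ∀ z, ‖ψ z - φ z‖ ≤ r₂ / 64 := fun z => hnear z (ψ z) (hψ₁ z) (hψ₂ z)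
  refine ⟨ψ, fun z => (hψ₂ z).symm, ?_, ?_⟩
  · intro z z' hzz
    have h1 := hcont z z' hzz
    have h2 := hψ₃ z
    have h3 := hψ₃ z'
    have h4 : ψ z - ψ z' = (ψ z - φ z) + (φ z - φ z') - (ψ z' - φ z') := by ring
    have h5 : ‖(ψ z - φ z) + (φ z - φ z') - (ψ z' - φ z')‖ ≤ ‖(ψ z - φ z) + (φ z - φ z')‖ + ‖ψ z' - φ z'‖ := norm_sub_le _ _
    have h6 : ‖(ψ z - φ z) + (φ z - φ z')‖ ≤ ‖ψ z - φ z‖ + ‖φ z - φ z'‖ := norm_add_le _ _
    rw [h4]
    linarith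
  · have h1 := hψ₃ 0
    rw [hzero, sub_zero] at h1
    linarith

end Pool.Agent.H5.BD
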