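import Pool.Agent.H5.BD.AHalf
import Pool.Agent.H5.BD.AInf

/-!
# BD AFin: two curves which are close on a large disc are the same up to a change of the variable

`claimE`.  Otherwise for every `n` there are `E n ∈ S` (in `Z`), `g n ∈ S` with `dist (ev (E n) z) (ev (g n) z) ≤ 1 / (n + 1)` on `closedBall 0 n`, not `Rel (E n) (g n)`.  For `n` with
`1 / (n + 1) ≤ ε`, `r ≤ n`: `fol_id` and `exists_bad` (with `R₀ = n`).  The first alternative is impossible by `rel_of_all` (`E n` is in `Z`).  So there are `R n ≥ n`, `φ n`, `z' n`, `z₁ n` as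
in `Bad`; `half` (`𝒰 = hyperfilter ℕ`) gives `F`, a limit of translates of the `E n`, not in `Z`: contradiction (`Z` is closed).

`main`.  Let `n₀, ε₂` be as in `claimE`.  Otherwise for every `n` there are `f n, g n ∈ S`, `dist ≤ 1 / (n + 1)` on `closedBall 0 n`, neither `Rel (f n) (g n)` nor `Rel (g n) (f n)`.
For large `n` not all `ev (g n) z` are in `Z`: otherwise `claimE` (with `E = g n`, `g = f n`, `dist_comm`) gives `Rel (g n) (f n)`.  As before `exists_bad`: the first alternative is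
impossible by `rel_of_all` (`hZ` holds because `g n` is not in `Z`), so `half` applies: `G ∈ S` is a limit of `ev (g n) (z + z' n)`, and in `Z`.  For almost all `n` (`unif`)
`dist (ev (g n) (z + z' n)) (ev G z) ≤ ε₂` on `closedBall 0 n₀`; with `g' ∈ S`, `ev g' z = ev (g n) (z + z' n)` (`trans`), `claimE` gives `Rel G g'`, so all `ev g' z` are in `Z`,
so all `ev (g n) z` are in `Z`: contradiction.
-/

set_option autoImplicit false

open Topology Filter Metric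

namespace Pool.Agent.H5.BD

variable {Y ι : Type} [MetricSpace Y] {S : Set ι} {ev : ι → ℂ → Y} {Z : Set Y} {ρ : ι → ℂ → ι → ℂ → ℝ} {L c r₂ r₃ κ r ε B : ℝ}

/-- a following function on a large disc which cannot be extended -/
theorem afin_bad (h : BFlow S ev Z ρ L c r₂ r₃ κ) (ha : Adm S ev Z ρ L c r₂ r₃ κ r ε B) {f g : ι} (hf : f ∈ S) (hg : g ∈ S) {n : ℕ} (hn : r ≤ n)
    (hd : ∀ z ∈ closedBall (0 : ℂ) n, dist (ev f z) (ev g z) ≤ ε) (hZ : (∀ z, ev g z ∈ Z) → ∀ z, ev f z ∈ Z) (hnot : ¬ Rel ev r₂ r f g) :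
    ∃ (R : ℝ) (φ : ℂ → ℂ) (z' z₁ : ℂ), (n : ℝ) ≤ R ∧ Bad ev r₂ r ε R f g φ z' z₁ := by
  rcases exists_bad h ha.cst hf hg hn ⟨id, fol_id ha.cst hd⟩ with h1 | h1
  · exact absurd (ha.rel_of_all h hf hg h1 hZ) hnot
  · exact h1

theorem afin_tendsto {R : ℕ → ℝ} {N : ℕ} (hR : ∀ n, N ≤ n → (n : ℝ) ≤ R n) : Tendsto R (hyperfilter ℕ : Filter ℕ) atTop := by
  have h1 : Tendsto R atTop atTop := by
    refine tendsto_atTop_mono' atTop ?_ tendsto_natCast_atTop_atTop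
    filter_upwards [eventually_ge_atTop N] with n hn
    exact hR n hn
  exact h1.mono_left Nat.hyperfilter_le_atTop

/-- a large number -/
theorem afin_large (a : ℝ) {e : ℝ} (he : 0 < e) : ∃ N : ℕ, ∀ n : ℕ, N ≤ n → a ≤ n ∧ 1 / ((n : ℝ) + 1) ≤ e := by
  obtain ⟨N₁, h₁⟩ := exists_nat_ge a
  obtain ⟨N₂, h₂⟩ := exists_nat_one_div_lt he
  refine ⟨N₁ + N₂, fun n hn => ⟨?_, ?_⟩⟩
  · have : (N₁ : ℝ) ≤ n := by exact_mod_cast (by omega : N₁ ≤ n)
    linarith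
  · have h3 : (N₂ : ℝ) ≤ n := by exact_mod_cast (by omega : N₂ ≤ n)
    refine le_trans ?_ h₂.le
    apply one_div_le_one_div_of_le
    · positivity
    · linarith

theorem Adm.claimE (h : BFlow S ev Z ρ L c r₂ r₃ κ) (ha : Adm S ev Z ρ L c r₂ r₃ κ r ε B) :
    ∃ n₀ ε₂ : ℝ, 0 < ε₂ ∧ ∀ E ∈ S, (∀ z, ev E z ∈ Z) → ∀ g ∈ S, (∀ z ∈ closedBall (0 : ℂ) n₀, dist (ev E z) (ev g z) ≤ ε₂) →
      Rel ev r₂ r E g := by
  by_contra hcon
  have key : ∀ n : ℕ, ∃ E g : ι, E ∈ S ∧ (∀ z, ev E z ∈ Z) ∧ g ∈ S ∧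
      (∀ z ∈ closedBall (0 : ℂ) n, dist (ev E z) (ev g z) ≤ 1 / ((n : ℝ) + 1)) ∧ ¬ Rel ev r₂ r E g := by
    intro n
    by_contra h1
    apply hcon
    refine ⟨n, 1 / ((n : ℝ) + 1), by positivity, fun E hE hEZ g hg hd => ?_⟩
    by_contra h2
    exact h1 ⟨E, g, hE, hEZ, hg, hd, h2⟩
  choose E g hE hEZ hg hd hnot using key
  obtain ⟨N, hN⟩ := afin_large r ha.cst.ε_pos
  have hbad : ∀ n : ℕ, ∃ (R : ℝ) (φ : ℂ → ℂ) (z' z₁ : ℂ), N ≤ n → ((n : ℝ) ≤ R ∧ Bad ev r₂ r ε R (E n) (g n) φ z' z₁) := by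
    intro n
    by_cases hn : N ≤ n
    · obtain ⟨R, φ, z', z₁, h1, h2⟩ := afin_bad h ha (hE n) (hg n) (hN n hn).1 (fun z hz => (hd n z hz).trans (hN n hn).2)
        (fun _ => hEZ n) (hnot n)
      exact ⟨R, φ, z', z₁, fun _ => ⟨h1, h2⟩⟩
    · exact ⟨0, id, 0, 0, fun h1 => absurd h1 hn⟩
  choose R φ z' z₁ hb using hbad
  have hev : ∀ᶠ n in (hyperfilter ℕ : Filter ℕ), N ≤ n := Nat.hyperfilter_le_atTop (eventually_ge_atTop N)
  obtain ⟨F, _, G, _, hF, _, _, hnF⟩ := ha.half h (hyperfilter ℕ) Nat.hyperfilter_le_atTop (afin_tendsto fun n hn => (hb n hn).1)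
    (Eventually.of_forall hE) (Eventually.of_forall hg) (hev.mono fun n hn => (hb n hn).2)
  exact hnF fun z => h.closed.mem_of_tendsto (hF z) (Eventually.of_forall fun n => hEZ n _)

theorem BFlow.main (h : BFlow S ev Z ρ L c r₂ r₃ κ) :
    ∃ n₁ ε₁ r : ℝ, 0 < ε₁ ∧ 0 < r ∧ ∀ f ∈ S, ∀ g ∈ S, (∀ z ∈ closedBall (0 : ℂ) n₁, dist (ev f z) (ev g z) ≤ ε₁) →
      Rel ev r₂ r f g ∨ Rel ev r₂ r g f := by
  obtain ⟨r, ε, B, ha⟩ := h.exists_adm
  obtain ⟨n₀, ε₂, hε₂, hclaim⟩ := ha.claimE h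
  by_contra hcon
  have key : ∀ n : ℕ, ∃ f g : ι, f ∈ S ∧ g ∈ S ∧
      (∀ z ∈ closedBall (0 : ℂ) n, dist (ev f z) (ev g z) ≤ 1 / ((n : ℝ) + 1)) ∧ ¬ (Rel ev r₂ r f g ∨ Rel ev r₂ r g f) := by
    intro n
    by_contra h1
    apply hcon
    refine ⟨n, 1 / ((n : ℝ) + 1), r, by positivity, ha.cst.r_pos, fun f hf g hg hd => ?_⟩
    by_contra h2
    exact h1 ⟨f, g, hf, hg, hd, h2⟩
  choose f g hf hg hd hnot using key
  obtain ⟨N, hN⟩ := afin_large (max r n₀) (lt_min ha.cst.ε_pos hε₂)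
  have hgZ : ∀ n, N ≤ n → ¬ ∀ z, ev (g n) z ∈ Z := by
    intro n hn hall
    apply hnot n
    right
    refine hclaim (g n) (hg n) hall (f n) (hf n) fun z hz => ?_
    rw [dist_comm]
    refine (hd n z ?_).trans ((hN n hn).2.trans (min_le_right _ _))
    exact closedBall_subset_closedBall ((le_max_right _ _).trans (hN n hn).1) hz
  have hbad : ∀ n : ℕ, ∃ (R : ℝ) (φ : ℂ → ℂ) (z' z₁ : ℂ), N ≤ n → ((n : ℝ) ≤ R ∧ Bad ev r₂ r ε R (f n) (g n) φ z' z₁) := by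
    intro n
    by_cases hn : N ≤ n
    · obtain ⟨R, φ, z', z₁, h1, h2⟩ := afin_bad h ha (hf n) (hg n) ((le_max_left _ _).trans (hN n hn).1)
        (fun z hz => (hd n z hz).trans ((hN n hn).2.trans (min_le_left _ _))) (fun h1 => absurd h1 (hgZ n hn))
        (fun h1 => hnot n (Or.inl h1))
      exact ⟨R, φ, z', z₁, fun _ => ⟨h1, h2⟩⟩
    · exact ⟨0, id, 0, 0, fun h1 => absurd h1 hn⟩
  choose R φ z' z₁ hb using hbad
  have hev : ∀ᶠ n in (hyperfilter ℕ : Filter ℕ), N ≤ n := Nat.hyperfilter_le_atTop (eventually_ge_atTop N)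
  obtain ⟨F, _, G, hG, _, hlim, hGZ, _⟩ := ha.half h (hyperfilter ℕ) Nat.hyperfilter_le_atTop (afin_tendsto fun n hn => (hb n hn).1)
    (Eventually.of_forall hf) (Eventually.of_forall hg) (hev.mono fun n hn => (hb n hn).2)
  have hu := h.unif (hyperfilter ℕ) (Eventually.of_forall hg) hG hlim n₀ hε₂
  obtain ⟨n, hn, hun⟩ := (hev.and hu).exists
  obtain ⟨g', hg', hgt⟩ := h.trans (g n) (hg n) (z' n)
  obtain ⟨ψ, hψ, _, _⟩ := hclaim G hG hGZ g' hg' fun z hz => by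
    rw [hgt, dist_comm]
    exact (hun z hz).le
  apply hgZ n hn
  intro z
  have h1 : ev g' (z - z' n) ∈ Z := by
    rw [hψ]
    exact hGZ _
  rw [hgt, sub_add_cancel] at h1
  exact h1

end Pool.Agent.H5.BD
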