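import Pool.Agent.H5.BD.AAdm
import Pool.Agent.H5.BD.AExt
import Pool.Agent.H5.BD.ALim

/-!
# BD AHalf: the limit at the boundary of the disc where `g` follows `f`

Let `s = r / 32`, so `‖z' n‖ = R n - 4 s`.  `lim_trans` gives `F` (for `f n`, `a n = φ n (z' n)`) and `G` (for `g n`, `a n = z' n`).
Let `‖ζ‖ ≤ s` and let `n` be large (`R n ≥ r`).  `‖ζ + z' n‖ + s ≤ R n - 2 s < R n`, so `Fol.folAt` gives `FolAt` (radius `s`) at the point `ζ + z' n`, in particular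
`dist (ev (g n) (ζ + z' n)) (ev (f n) (φ n (ζ + z' n))) ≤ ε` and `‖φ n (ζ + z' n) - φ n (z' n)‖ ≤ r₂ / 4`.
(1) Let `φ∞ ζ` be the limit of `φ n (ζ + z' n) - φ n (z' n)` along `𝒰` (`exists_lim_bdd`; `φ∞ 0 = 0`; for `‖ζ‖ > s` put `φ∞ ζ = 0`).  By `tendsto_at` and the above
`FolAt ev r₂ s ε F G 0 φ∞`.
(2) `decay`: `ρ (f n) (φ n (ζ + z' n)) (g n) (ζ + z' n) ≤ B exp (-κ ((R n - s)² - (R n - 3 s)²)) = B exp (-κ (4 s R n - 8 s²)) → 0`.  By `small`, for every `η > 0` and almost all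
`n`: `ev (g n) (ζ + z' n)` has distance `≤ η` to a point of `Z`, or to `ev (f n) w` with `w ∈ closedBall (φ n (ζ + z' n)) r₂`.  In the second case
`dist (ev (f n) w) (ev (f n) (φ n (ζ + z' n))) ≤ η + ε`, so by `emb` `c ‖w - φ n (ζ + z' n)‖ ≤ η + ε ≤ c r₂ / 32` for small `η`, so `‖w - φ n (z' n)‖ ≤ r₂ / 32 + r₂ / 4 ≤ r₂`.
As `𝒰` is an ultrafilter one of the two cases holds for `𝒰`-almost all `n`.  If for every `η` it is the first case then `ev G ζ ∈ closure Z = Z`; otherwise for all small `η` it is the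
second case (if it holds for `η` it holds for larger `η`; so if the first case fails for one `η₀` then the second case holds for all `η ≤ η₀`), and then, with `w - φ n (z' n) → w∞`
(`exists_lim_bdd`), `dist (ev G ζ) (ev F w∞) ≤ η` with `w∞ ∈ closedBall 0 r₂`; as the plaque `Pl ev r₂ F 0` is compact, `ev G ζ ∈ Pl ev r₂ F 0`.
So for `‖ζ‖ ≤ s`: `ev G ζ ∈ Z` or `ev G ζ ∈ Pl ev r₂ F 0`.
(3) The limit of `z₁ n - z' n` is a point `a`, `‖a‖ ≤ r / 4 ≤ r₃`; for `w ∈ closedBall 0 r₂`: `ε ≤ dist (ev G a) (ev F w)` (`tendsto_at`; `far` for `w + φ n (z' n)`).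
So `ev G a ∉ Pl ev r₂ F 0`.
(4) If not all `ev G z` are in `Z` then by `dense` `ev G z ∉ Z` for all `z ≠ 0` near `0`, so `ev G z ∈ Pl ev r₂ F 0` for all `z ≠ 0` near `0`, and by `ident`
(`z₀ = 0`, `w₀ = 0`, `z₁ = 0`; `dist (ev G 0) (ev F 0) ≤ ε` by (1)) `ev G a ∈ Pl ev r₂ F 0`: contradiction to (3).
(5) If also all `ev F z` are in `Z` then `iso` (with (1), `φ∞ 0 = 0`) gives `ev G a ∈ Pl ev r₂ F 0`: contradiction to (3).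
-/

set_option autoImplicit false

open Topology Filter Metric

namespace Pool.Agent.H5.BD

variable {Y ι : Type} [MetricSpace Y] {S : Set ι} {ev : ι → ℂ → Y} {Z : Set Y} {ρ : ι → ℂ → ι → ℂ → ℝ} {L c r₂ r₃ κ r ε B : ℝ}

/-- the data of the limit at the boundary of the disc -/
private structure HLim (S : Set ι) (ev : ι → ℂ → Y) (r₂ r ε : ℝ) (𝒰 : Ultrafilter ℕ) (f g : ℕ → ι) (R : ℕ → ℝ) (φ : ℕ → ℂ → ℂ)
    (z' z₁ : ℕ → ℂ) (F G : ι) : Prop where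
  hF : F ∈ S
  hG : G ∈ S
  hR : Tendsto R 𝒰 atTop
  hf : ∀ᶠ n in (𝒰 : Filter ℕ), f n ∈ S
  hg : ∀ᶠ n in (𝒰 : Filter ℕ), g n ∈ S
  bad : ∀ᶠ n in (𝒰 : Filter ℕ), Bad ev r₂ r ε (R n) (f n) (g n) (φ n) (z' n) (z₁ n)
  limF : ∀ z, Tendsto (fun n => ev (f n) (z + φ n (z' n))) 𝒰 (𝓝 (ev F z))
  limG : ∀ z, Tendsto (fun n => ev (g n) (z + z' n)) 𝒰 (𝓝 (ev G z))

private theorem Bad.half_folAt {f g : ι} {R : ℝ} {φ : ℂ → ℂ} {z' z₁ : ℂ} (h : Bad ev r₂ r ε R f g φ z' z₁) (hr : 0 < r) {ζ : ℂ}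
    (hζ : ‖ζ‖ ≤ r / 32) : FolAt ev r₂ (r / 32) ε f g (ζ + z') φ := by
  refine h.fol.folAt (by linarith) (by linarith) ?_ le_rfl
  have h1 := norm_add_le ζ z'
  have h2 := h.norm
  linarith

private theorem Bad.half_close {f g : ι} {R : ℝ} {φ : ℂ → ℂ} {z' z₁ : ℂ} (h : Bad ev r₂ r ε R f g φ z' z₁) (hr : 0 < r) {ζ : ℂ}
    (hζ : ‖ζ‖ ≤ r / 32) : dist (ev g (ζ + z')) (ev f (φ (ζ + z'))) ≤ ε :=
  (h.half_folAt hr hζ (ζ + z') (mem_closedBall_self (by linarith))).1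

private theorem Bad.half_cont {f g : ι} {R : ℝ} {φ : ℂ → ℂ} {z' z₁ : ℂ} (h : Bad ev r₂ r ε R f g φ z' z₁) (hr : 0 < r) {ζ : ℂ}
    (hζ : ‖ζ‖ ≤ r / 32) : ‖φ (ζ + z') - φ z'‖ ≤ r₂ / 4 := by
  have h0 : ‖(0 : ℂ)‖ ≤ r / 32 := by rw [norm_zero]; linarith
  have h1 := (h.half_folAt hr h0 (ζ + z') (by
    rw [mem_closedBall, dist_eq_norm]
    simpa using hζ)).2
  rwa [zero_add] at h1

/-- (1) -/
private theorem HLim.fol (h : BFlow S ev Z ρ L c r₂ r₃ κ) (hr : 0 < r) {𝒰 : Ultrafilter ℕ} {f g : ℕ → ι}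
    {R : ℕ → ℝ} {φ : ℕ → ℂ → ℂ} {z' z₁ : ℕ → ℂ} {F G : ι} (H : HLim S ev r₂ r ε 𝒰 f g R φ z' z₁ F G) :
    ∃ ψ : ℂ → ℂ, ψ 0 = 0 ∧ FolAt ev r₂ (r / 32) ε F G 0 ψ := by
  have hex : ∀ ζ : ℂ, ∃ b : ℂ, ‖ζ‖ ≤ r / 32 → ‖b‖ ≤ r₂ / 4 ∧ Tendsto (fun n => φ n (ζ + z' n) - φ n (z' n)) 𝒰 (𝓝 b) := by
    intro ζ
    by_cases hζ : ‖ζ‖ ≤ r / 32
    · obtain ⟨b, hb, hb'⟩ := exists_lim_bdd 𝒰 (b := fun n => φ n (ζ + z' n) - φ n (z' n)) (C := r₂ / 4)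
        (H.bad.mono fun n hn => hn.half_cont hr hζ)
      exact ⟨b, fun _ => ⟨hb, hb'⟩⟩
    · exact ⟨0, fun h0 => absurd h0 hζ⟩
  choose ψ hψ using hex
  have h0 : ψ 0 = 0 := by
    have h1 := (hψ 0 (by rw [norm_zero]; linarith)).2
    have h2 : Tendsto (fun n => φ n (0 + z' n) - φ n (z' n)) 𝒰 (𝓝 0) := by simp
    exact tendsto_nhds_unique h1 h2
  refine ⟨ψ, h0, fun z hz => ?_⟩
  have hz' : ‖z‖ ≤ r / 32 := by simpa using hz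
  refine ⟨?_, by rw [h0, sub_zero]; exact (hψ z hz').1⟩
  have h1 := h.tendsto_at 𝒰 (a := fun n => φ n (z' n)) H.hf H.limF (hψ z hz').2
  have h2 : Tendsto (fun n => dist (ev (g n) (z + z' n)) (ev (f n) (φ n (z + z' n) - φ n (z' n) + φ n (z' n)))) 𝒰
      (𝓝 (dist (ev G z) (ev F (ψ z)))) := (H.limG z).dist h1
  refine le_of_tendsto h2 (H.bad.mono fun n hn => ?_)
  rw [sub_add_cancel]
  exact hn.half_close hr hz'

/-- the decay of `ρ` -/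
private theorem HLim.rho_le (h : BFlow S ev Z ρ L c r₂ r₃ κ) (ha : Adm S ev Z ρ L c r₂ r₃ κ r ε B) {𝒰 : Ultrafilter ℕ} {f g : ℕ → ι}
    {R : ℕ → ℝ} {φ : ℕ → ℂ → ℂ} {z' z₁ : ℕ → ℂ} {F G : ι} (H : HLim S ev r₂ r ε 𝒰 f g R φ z' z₁ F G) {ζ : ℂ} (hζ : ‖ζ‖ ≤ r / 32)
    {δ : ℝ} (hδ : 0 < δ) : ∀ᶠ n in (𝒰 : Filter ℕ), ρ (f n) (φ n (ζ + z' n)) (g n) (ζ + z' n) ≤ δ := by
  have hr : 0 < r := ha.cst.r_pos
  have hκ : 0 < κ := h.κ_pos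
  have h1 : Tendsto (fun n => B * Real.exp (-(κ * (r / 8)) * R n + κ * (r ^ 2 / 128))) 𝒰 (𝓝 (B * 0)) := by
    refine Tendsto.const_mul B (Real.tendsto_exp_atBot.comp ?_)
    refine tendsto_atBot_add_const_right _ _ ?_
    exact H.hR.const_mul_atTop_of_neg (by
      have : 0 < κ * (r / 8) := by positivity
      linarith)
  rw [mul_zero] at h1
  filter_upwards [H.hf, H.hg, H.bad, H.hR.eventually_ge_atTop r, h1.eventually (gt_mem_nhds hδ)] with n h2 h3 h4 h5 h6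
  have h7 : ‖ζ + z' n‖ ≤ R n - 3 * (r / 32) := by
    have h8 := norm_add_le ζ (z' n)
    have h9 := h4.norm
    linarith
  have h8 : ζ + z' n ∈ ball (0 : ℂ) (R n) := by
    rw [mem_ball_zero_iff]
    linarith
  refine (ha.decay (f n) h2 (g n) h3 (φ n) (R n) h5 h4.fol _ h8).trans (le_trans ?_ h6.le)
  refine mul_le_mul_of_nonneg_left (Real.exp_le_exp.2 ?_) ha.B_nonneg
  have h9 : ‖ζ + z' n‖ ^ 2 ≤ (R n - 3 * (r / 32)) ^ 2 := pow_le_pow_left₀ (norm_nonneg _) h7 2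
  nlinarith [mul_le_mul_of_nonneg_left h9 hκ.le]

/-- (2) -/
private theorem HLim.mem (h : BFlow S ev Z ρ L c r₂ r₃ κ) (ha : Adm S ev Z ρ L c r₂ r₃ κ r ε B) {𝒰 : Ultrafilter ℕ} {f g : ℕ → ι}
    {R : ℕ → ℝ} {φ : ℕ → ℂ → ℂ} {z' z₁ : ℕ → ℂ} {F G : ι} (H : HLim S ev r₂ r ε 𝒰 f g R φ z' z₁ F G) {ζ : ℂ} (hζ : ‖ζ‖ ≤ r / 32) :
    ev G ζ ∈ Z ∨ ev G ζ ∈ Pl ev r₂ F 0 := by
  have hr : 0 < r := ha.cst.r_pos
  have hr₂ : 0 < r₂ := h.r₂_pos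
  have hc : 0 < c := h.c_pos
  have hcr : 0 < c * r₂ := mul_pos hc hr₂
  have hε := ha.cst.hε
  have hor : ∀ η : ℝ, 0 < η → (∀ᶠ n in (𝒰 : Filter ℕ), ∃ y ∈ Z, dist (ev (g n) (ζ + z' n)) y ≤ η) ∨
      ∀ᶠ n in (𝒰 : Filter ℕ), ∃ w ∈ closedBall (φ n (ζ + z' n)) r₂, dist (ev (g n) (ζ + z' n)) (ev (f n) w) ≤ η := by
    intro η hη
    obtain ⟨δ, hδ, hδ'⟩ := ha.small η hη
    refine Ultrafilter.eventually_or.1 ?_
    filter_upwards [H.hf, H.hg, H.bad, H.rho_le h ha hζ hδ] with n h2 h3 h4 h5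
    exact hδ' (f n) h2 (g n) h3 _ _ (h4.half_folAt hr hζ) h5
  by_cases hA : ∀ η : ℝ, 0 < η → ∀ᶠ n in (𝒰 : Filter ℕ), ∃ y ∈ Z, dist (ev (g n) (ζ + z' n)) y ≤ η
  · left
    rw [← h.closed.closure_eq, Metric.mem_closure_iff]
    intro η hη
    obtain ⟨n, ⟨y, hy, hy'⟩, hn⟩ := ((hA (η / 3) (by linarith)).and
      ((H.limG ζ).eventually (Metric.ball_mem_nhds (ev G ζ) (show 0 < η / 3 by linarith)))).exists
    refine ⟨y, hy, ?_⟩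
    have h1 := dist_triangle_left (ev G ζ) y (ev (g n) (ζ + z' n))
    linarith
  · right
    obtain ⟨η₀, hη₀'⟩ := not_forall.1 hA
    obtain ⟨hη₀, hA'⟩ := Classical.not_imp.1 hη₀'
    have hB : ∀ η : ℝ, 0 < η → η ≤ η₀ → ∀ᶠ n in (𝒰 : Filter ℕ), ∃ w ∈ closedBall (φ n (ζ + z' n)) r₂,
        dist (ev (g n) (ζ + z' n)) (ev (f n) w) ≤ η := by
      intro η hη hle
      refine (hor η hη).resolve_left fun hcon => hA' (hcon.mono fun n hn => ?_)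
      obtain ⟨y, hy, hy'⟩ := hn
      exact ⟨y, hy, hy'.trans hle⟩
    have hcomp : IsCompact (Pl ev r₂ F 0) := (isCompact_closedBall (0 : ℂ) r₂).image (h.continuous H.hF)
    rw [← hcomp.isClosed.closure_eq, Metric.mem_closure_iff]
    intro η hη
    set η₁ : ℝ := min (η / 2) (min η₀ (c * r₂ / 64)) with hη₁
    have h1 : 0 < η₁ := lt_min (by linarith) (lt_min hη₀ (by linarith))
    have h2 : η₁ ≤ η / 2 := min_le_left _ _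
    have h3 : η₁ ≤ η₀ := (min_le_right _ _).trans (min_le_left _ _)
    have h4 : η₁ ≤ c * r₂ / 64 := (min_le_right _ _).trans (min_le_right _ _)
    obtain ⟨w, hw⟩ := Filter.skolem.1 (hB η₁ h1 h3)
    have h5 : ∀ᶠ n in (𝒰 : Filter ℕ), ‖w n - φ n (z' n)‖ ≤ r₂ := by
      filter_upwards [H.hf, H.bad, hw] with n h6 h7 h8
      obtain ⟨h9, h10⟩ := h8
      rw [mem_closedBall, dist_eq_norm] at h9
      have h11 := h.emb (f n) h6 (w n) (φ n (ζ + z' n)) (by linarith)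
      have h12 := h7.half_close hr hζ
      have h13 := dist_triangle_left (ev (f n) (w n)) (ev (f n) (φ n (ζ + z' n))) (ev (g n) (ζ + z' n))
      have h14 : c * ‖w n - φ n (ζ + z' n)‖ ≤ c * (r₂ / 32) := by linarith
      have h15 : ‖w n - φ n (ζ + z' n)‖ ≤ r₂ / 32 := le_of_mul_le_mul_left h14 hc
      have h16 := h7.half_cont hr hζ
      have h17 := norm_add_le (w n - φ n (ζ + z' n)) (φ n (ζ + z' n) - φ n (z' n))
      rw [sub_add_sub_cancel] at h17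
      linarith
    obtain ⟨w₀, hw₀, hlim⟩ := exists_lim_bdd 𝒰 h5
    have h6 := h.tendsto_at 𝒰 (a := fun n => φ n (z' n)) H.hf H.limF hlim
    have h7 : Tendsto (fun n => dist (ev (g n) (ζ + z' n)) (ev (f n) (w n - φ n (z' n) + φ n (z' n)))) 𝒰
        (𝓝 (dist (ev G ζ) (ev F w₀))) := (H.limG ζ).dist h6
    have h8 : dist (ev G ζ) (ev F w₀) ≤ η₁ := by
      refine le_of_tendsto h7 (hw.mono fun n hn => ?_)
      rw [sub_add_cancel]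
      exact hn.2
    exact ⟨ev F w₀, ⟨w₀, by simpa using hw₀, rfl⟩, by linarith⟩

/-- (3) -/
private theorem HLim.far (h : BFlow S ev Z ρ L c r₂ r₃ κ) (ha : Adm S ev Z ρ L c r₂ r₃ κ r ε B) {𝒰 : Ultrafilter ℕ} {f g : ℕ → ι}
    {R : ℕ → ℝ} {φ : ℕ → ℂ → ℂ} {z' z₁ : ℕ → ℂ} {F G : ι} (H : HLim S ev r₂ r ε 𝒰 f g R φ z' z₁ F G) :
    ∃ a ∈ closedBall (0 : ℂ) r₃, ev G a ∉ Pl ev r₂ F 0 := by
  have hr : 0 < r := ha.cst.r_pos
  obtain ⟨a, ha1, hlim⟩ := exists_lim_bdd 𝒰 (b := fun n => z₁ n - z' n) (C := r / 4) (H.bad.mono fun n hn => hn.dist_le)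
  have hle := ha.cst.r_le₃
  refine ⟨a, by rw [mem_closedBall_zero_iff]; linarith, ?_⟩
  rintro ⟨w, hw, hwa⟩
  have h1 := h.tendsto_at 𝒰 (a := z') H.hg H.limG hlim
  have h2 : Tendsto (fun n => dist (ev (g n) (z₁ n - z' n + z' n)) (ev (f n) (w + φ n (z' n)))) 𝒰
      (𝓝 (dist (ev G a) (ev F w))) := h1.dist (H.limF w)
  have h3 : ε ≤ dist (ev G a) (ev F w) := by
    refine ge_of_tendsto h2 (H.bad.mono fun n hn => ?_)
    rw [sub_add_cancel]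
    refine (hn.far (w + φ n (z' n)) ?_).le
    rw [mem_closedBall, dist_eq_norm, add_sub_cancel_right]
    simpa using hw
  rw [hwa, dist_self] at h3
  have := ha.cst.ε_pos
  linarith

theorem Adm.half (h : BFlow S ev Z ρ L c r₂ r₃ κ) (ha : Adm S ev Z ρ L c r₂ r₃ κ r ε B) (𝒰 : Ultrafilter ℕ)
    (h𝒰 : (𝒰 : Filter ℕ) ≤ atTop) {f g : ℕ → ι} {R : ℕ → ℝ} {φ : ℕ → ℂ → ℂ} {z' z₁ : ℕ → ℂ} (hR : Tendsto R 𝒰 atTop)
    (hf : ∀ᶠ n in (𝒰 : Filter ℕ), f n ∈ S) (hg : ∀ᶠ n in (𝒰 : Filter ℕ), g n ∈ S)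
    (hbad : ∀ᶠ n in (𝒰 : Filter ℕ), Bad ev r₂ r ε (R n) (f n) (g n) (φ n) (z' n) (z₁ n)) :
    ∃ F ∈ S, ∃ G ∈ S, (∀ z, Tendsto (fun n => ev (f n) (z + φ n (z' n))) 𝒰 (𝓝 (ev F z))) ∧
      (∀ z, Tendsto (fun n => ev (g n) (z + z' n)) 𝒰 (𝓝 (ev G z))) ∧ (∀ z, ev G z ∈ Z) ∧ ¬ ∀ z, ev F z ∈ Z := by
  classical
  obtain ⟨F, hF, limF⟩ := h.lim_trans 𝒰 h𝒰 f (fun n => φ n (z' n)) hf
  obtain ⟨G, hG, limG⟩ := h.lim_trans 𝒰 h𝒰 g z' hg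
  have H : HLim S ev r₂ r ε 𝒰 f g R φ z' z₁ F G := ⟨hF, hG, hR, hf, hg, hbad, limF, limG⟩
  have hr : 0 < r := ha.cst.r_pos
  obtain ⟨ψ, hψ0, hψ⟩ := H.fol h hr
  obtain ⟨a, ha1, hfar⟩ := H.far h ha
  have hGZ : ∀ z, ev G z ∈ Z := by
    refine (h.dense G hG).resolve_right fun hd => hfar ?_
    have h0 : dist (ev G 0) (ev F 0) ≤ ε := by
      have h1 := (hψ 0 (mem_closedBall_self (by linarith))).1
      rwa [hψ0] at h1
    have h1 : ∀ᶠ z in 𝓝[≠] (0 : ℂ), ev G z ∈ Pl ev r₂ F 0 := by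
      have h2 : ∀ᶠ z in 𝓝[≠] (0 : ℂ), z ∈ closedBall (0 : ℂ) (r / 32) :=
        nhdsWithin_le_nhds (closedBall_mem_nhds _ (by linarith))
      filter_upwards [hd 0, h2] with z h3 h4
      exact (H.mem h ha (by simpa using h4)).resolve_left h3
    exact ha.ident F hF G hG 0 0 h0 0 (mem_closedBall_self h.r₃_pos.le) h1.frequently a ha1
  refine ⟨F, hF, G, hG, limF, limG, hGZ, fun hFZ => hfar ?_⟩
  have h1 := ha.iso F hF G hG hFZ hGZ 0 ψ hψ a ha1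
  rwa [hψ0] at h1

end Pool.Agent.H5.BD
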