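import Pool.Agent.H5.BD.ALim

/-!
# BD AIso: two curves in `Z` which are close have the same plaques

Suppose the claim is false: for every `n` there are `f n, g n ∈ S` with all `ev (f n) z`, `ev (g n) z` in `Z`, `a n ∈ ℂ`, `φ n` with `FolAt ev r₂ s (1 / (n + 1)) (f n) (g n) (a n) (φ n)` and
`z n ∈ closedBall (a n) r₃` with `ev (g n) (z n) ∉ Pl ev r₂ (f n) (φ n (a n))`.  Along `𝒰 = hyperfilter ℕ` (`lim_trans`): `ev (f n) (w + φ n (a n)) → ev F w`, `ev (g n) (z + a n) → ev G z`;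
all `ev F w`, `ev G z` are in `Z` (closed).  For `‖ζ‖ ≤ s` let `φ∞ ζ` be the limit of `φ n (ζ + a n) - φ n (a n)` (`exists_lim_bdd`, `‖φ∞ ζ‖ ≤ r₂ / 4`); by `tendsto_at` and `FolAt`
`ev G ζ = ev F (φ∞ ζ)`.
`iso` for `G`, `η = min s (r₃ / 2)` gives `z₁`; let `w₁ = φ∞ z₁`, so `ev F w₁ = ev G z₁`.  `η' = min (r₃ / 2) r₂` gives `δ > 0`.  Let `f' n, g' n ∈ S` be the translates
(`ev (f' n) w = ev (f n) (w + φ n (a n))`, `ev (g' n) z = ev (g n) (z + a n)`).  For almost all `n`: `dist (ev (f' n) w) (ev G z₁) < δ` for `‖w - w₁‖ ≤ t`, where `t = δ / (2 L)` (and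
`t ≤ r₂ / 2`): it is at most `L t + dist (ev (f' n) w₁) (ev F w₁)`; in the same way `dist (ev (g' n) ζ) (ev G z₁) < δ` for `‖ζ - z₁‖ ≤ t`.  Fix such an `n`, for which also
`dist (ev G 0) (ev (f' n) 0) ≤ ε` and `dist (ev (g' n) 0) (ev (f' n) 0) ≤ ε` with the `ε` of `ident` (`φ∞ 0 = 0`, so `ev G 0 = ev F 0`).
(1) For `‖w - w₁‖ ≤ t` choose `z' w` with `‖z' w - z₁‖ < η'` and `ev (f' n) w = ev G (z' w)`.  By `emb` for `G` (`‖z' w - z' w₁‖ ≤ 2 η' ≤ 4 r₂`):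
`c ‖z' w - z' w₁‖ ≤ dist (ev (f' n) w) (ev (f' n) w₁) ≤ L ‖w - w₁‖ → 0`, and `z' w ≠ z' w₁` for `w ≠ w₁` near `w₁` by `emb` for `f' n`.  So
`∃ᶠ z in 𝓝[≠] (z' w₁), ev G z ∈ Pl ev r₂ (f' n) 0` (`w ∈ closedBall 0 r₂`), `z' w₁ ∈ closedBall 0 r₃`.  `ident` for `f' n`, `G` (`z₀ = 0`, `w₀ = 0`): `ev G z ∈ Pl ev r₂ (f' n) 0` for
all `z ∈ closedBall 0 r₃`.
(2) For `‖ζ - z₁‖ ≤ t`: `ev (g' n) ζ = ev G ζ'` with `‖ζ' - z₁‖ < η'`, `ζ' ∈ closedBall 0 r₃`, so `ev (g' n) ζ ∈ Pl ev r₂ (f' n) 0`.  `ident` for `f' n`, `g' n` (`z₁`): this holds for all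
`ζ ∈ closedBall 0 r₃`, in particular for `ζ = z n - a n`.  But `Pl ev r₂ (f' n) 0 = Pl ev r₂ (f n) (φ n (a n))`: contradiction.
-/

set_option autoImplicit false

open Topology Filter Metric

namespace Pool.Agent.H5.BD

variable {Y ι : Type} [MetricSpace Y] {S : Set ι} {ev : ι → ℂ → Y} {Z : Set Y} {ρ : ι → ℂ → ι → ℂ → ℝ} {L c r₂ r₃ κ : ℝ}

theorem BFlow.plaque_of_fol (h : BFlow S ev Z ρ L c r₂ r₃ κ) {s : ℝ} (hs : 0 < s) (hs₃ : s ≤ r₃) :
    ∃ ε : ℝ, 0 < ε ∧ ∀ f ∈ S, ∀ g ∈ S, (∀ z, ev f z ∈ Z) → (∀ z, ev g z ∈ Z) → ∀ z₀ φ, FolAt ev r₂ s ε f g z₀ φ →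
      ∀ z ∈ closedBall z₀ r₃, ev g z ∈ Pl ev r₂ f (φ z₀) := by
  by_contra hcon
  push Not at hcon
  have hε1 : ∀ n : ℕ, (0 : ℝ) < 1 / ((n : ℝ) + 1) := fun n => by positivity
  choose f hf g hg hfZ hgZ a φ hfol z hz hnot using fun n : ℕ => hcon (1 / ((n : ℝ) + 1)) (hε1 n)
  have h𝒰 : ((hyperfilter ℕ : Ultrafilter ℕ) : Filter ℕ) ≤ atTop := Nat.hyperfilter_le_atTop
  generalize hU : (hyperfilter ℕ : Ultrafilter ℕ) = 𝒰 at h𝒰
  have hL := h.L_pos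
  have hc := h.c_pos
  have hr₂ := h.r₂_pos
  have hr₃ := h.r₃_pos
  have hdec : Tendsto (fun n : ℕ => 1 / ((n : ℝ) + 1)) 𝒰 (𝓝 0) :=
    tendsto_one_div_add_atTop_nhds_zero_nat.mono_left h𝒰
  obtain ⟨F, hF, limF⟩ := h.lim_trans 𝒰 h𝒰 f (fun n => φ n (a n)) (Eventually.of_forall hf)
  obtain ⟨G, hG, limG⟩ := h.lim_trans 𝒰 h𝒰 g a (Eventually.of_forall hg)
  have hGZ : ∀ z, ev G z ∈ Z := fun z =>
    h.closed.mem_of_tendsto (limG z) (Eventually.of_forall fun n => hgZ n _)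
  obtain ⟨z₁, hz₁, hiso⟩ := h.iso G hG hGZ (min s (r₃ / 2)) (lt_min hs (by positivity))
  have hz₁s : ‖z₁‖ < s := hz₁.trans_le (min_le_left _ _)
  have hz₁r : ‖z₁‖ < r₃ / 2 := hz₁.trans_le (min_le_right _ _)
  have hmem1 : ∀ n, z₁ + a n ∈ closedBall (a n) s := fun n => by
    rw [mem_closedBall, dist_eq_norm, add_sub_cancel_right]
    exact hz₁s.le
  have hmem0 : ∀ n, a n ∈ closedBall (a n) s := fun n => mem_closedBall_self hs.le
  obtain ⟨w₁, hw₁, limb⟩ := exists_lim_bdd 𝒰 (b := fun n => φ n (z₁ + a n) - φ n (a n)) (C := r₂ / 4)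
    (Eventually.of_forall fun n => ((hfol n) _ (hmem1 n)).2)
  have limF1 := h.tendsto_at 𝒰 (Eventually.of_forall hf) limF limb
  have hFG1 : ev F w₁ = ev G z₁ := by
    refine tendsto_nhds_unique limF1 ?_
    refine (limG z₁).congr_dist ?_
    refine squeeze_zero (fun n => dist_nonneg) (fun n => ?_) hdec
    have := ((hfol n) _ (hmem1 n)).1
    rw [sub_add_cancel]
    exact this
  have hFG0 : ev F 0 = ev G 0 := by
    refine tendsto_nhds_unique (limF 0) ?_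
    refine (limG 0).congr_dist ?_
    refine squeeze_zero (fun n => dist_nonneg) (fun n => ?_) hdec
    have := ((hfol n) _ (hmem0 n)).1
    rw [zero_add, zero_add]
    exact this
  obtain ⟨ε, hε, hident⟩ := h.ident
  obtain ⟨δ, hδ, hiso'⟩ := hiso (min (r₃ / 2) r₂) (lt_min (by positivity) hr₂)
  obtain ⟨t, ht0, htδ, htr⟩ : ∃ t : ℝ, 0 < t ∧ L * t ≤ δ / 2 ∧ t ≤ r₂ / 2 := by
    refine ⟨min (δ / (2 * L)) (r₂ / 2), lt_min (by positivity) (by positivity), ?_, min_le_right _ _⟩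
    calc L * min (δ / (2 * L)) (r₂ / 2) ≤ L * (δ / (2 * L)) :=
          mul_le_mul_of_nonneg_left (min_le_left _ _) hL.le
      _ = δ / 2 := by field_simp
  have E1 := (limF w₁).eventually (ball_mem_nhds _ (half_pos hδ))
  have E2 := (limG z₁).eventually (ball_mem_nhds _ (half_pos hδ))
  have E3 := (limF 0).eventually (ball_mem_nhds _ (half_pos hε))
  have E4 := (limG 0).eventually (ball_mem_nhds _ (half_pos hε))
  obtain ⟨n, hn1, hn2, hn3, hn4⟩ := (E1.and (E2.and (E3.and E4))).exists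
  obtain ⟨f', hf', hf'e⟩ := h.trans (f n) (hf n) (φ n (a n))
  obtain ⟨g', hg', hg'e⟩ := h.trans (g n) (hg n) (a n)
  have hf'Z : ∀ z, ev f' z ∈ Z := fun z => by rw [hf'e]; exact hfZ n _
  have hg'Z : ∀ z, ev g' z ∈ Z := fun z => by rw [hg'e]; exact hgZ n _
  rw [← hf'e] at hn1 hn3
  rw [← hg'e] at hn2 hn4
  rw [hFG1] at hn1
  rw [hFG0] at hn3
  have hnear : ∀ z', ‖z' - z₁‖ < min (r₃ / 2) r₂ → z' ∈ closedBall (0 : ℂ) r₃ := fun z' hz' => by
    rw [mem_closedBall_zero_iff]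
    have h1 : ‖z'‖ ≤ ‖z' - z₁‖ + ‖z₁‖ := by simpa using norm_add_le (z' - z₁) z₁
    have h2 := hz'.trans_le (min_le_left _ _)
    linarith
  -- first part
  have hf'near : ∀ w, ‖w - w₁‖ ≤ t → ∃ z', ‖z' - z₁‖ < min (r₃ / 2) r₂ ∧ ev f' w = ev G z' := by
    intro w hw
    refine hiso' f' hf' hf'Z w ?_
    calc dist (ev f' w) (ev G z₁) ≤ dist (ev f' w) (ev f' w₁) + dist (ev f' w₁) (ev G z₁) :=
          dist_triangle _ _ _
      _ < δ / 2 + δ / 2 := by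
          refine add_lt_add_of_le_of_lt ?_ hn1
          exact (h.lip f' hf' w w₁).trans ((mul_le_mul_of_nonneg_left hw hL.le).trans htδ)
      _ = δ := by ring
  have hchoice : ∀ w, ∃ z', ‖w - w₁‖ ≤ t → (‖z' - z₁‖ < min (r₃ / 2) r₂ ∧ ev f' w = ev G z') := by
    intro w
    by_cases hw : ‖w - w₁‖ ≤ t
    · obtain ⟨z', hz'⟩ := hf'near w hw
      exact ⟨z', fun _ => hz'⟩
    · exact ⟨0, fun h => absurd h hw⟩
  choose ζ hζ using hchoice
  have h11 : ‖w₁ - w₁‖ ≤ t := by rw [sub_self, norm_zero]; exact ht0.le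
  have hev_t : ∀ᶠ w in 𝓝[≠] w₁, ‖w - w₁‖ ≤ t ∧ w ≠ w₁ := by
    refine Filter.Eventually.and ?_ self_mem_nhdsWithin
    refine nhdsWithin_le_nhds ?_
    filter_upwards [closedBall_mem_nhds w₁ ht0] with w hw
    rw [mem_closedBall, dist_eq_norm] at hw
    exact hw
  have hlipζ : ∀ w, ‖w - w₁‖ ≤ t → c * ‖ζ w - ζ w₁‖ ≤ L * ‖w - w₁‖ := by
    intro w hw
    have h1 := hζ w hw
    have h2 := hζ w₁ h11
    have h3 : ‖ζ w - ζ w₁‖ ≤ 4 * r₂ := by
      have h4 : ‖ζ w - ζ w₁‖ ≤ ‖ζ w - z₁‖ + ‖ζ w₁ - z₁‖ := by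
        have := norm_sub_le (ζ w - z₁) (ζ w₁ - z₁)
        rwa [sub_sub_sub_cancel_right] at this
      have h5 := h1.1.trans_le (min_le_right _ _)
      have h6 := h2.1.trans_le (min_le_right _ _)
      linarith
    have h7 := h.emb G hG (ζ w) (ζ w₁) h3
    rw [← h1.2, ← h2.2] at h7
    exact h7.trans (h.lip f' hf' w w₁)
  have htend : Tendsto ζ (𝓝[≠] w₁) (𝓝[≠] (ζ w₁)) := by
    rw [tendsto_nhdsWithin_iff]
    constructor
    · rw [tendsto_iff_norm_sub_tendsto_zero]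
      have h8 : Tendsto (fun w => L / c * ‖w - w₁‖) (𝓝[≠] w₁) (𝓝 0) := by
        have h9 : Tendsto (fun w => L / c * ‖w - w₁‖) (𝓝 w₁) (𝓝 (L / c * ‖w₁ - w₁‖)) := by
          apply Continuous.tendsto
          fun_prop
        rw [sub_self, norm_zero, mul_zero] at h9
        exact h9.mono_left nhdsWithin_le_nhds
      refine squeeze_zero' (Eventually.of_forall fun w => norm_nonneg _) ?_ h8
      filter_upwards [hev_t] with w hw
      have := hlipζ w hw.1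
      rw [div_mul_eq_mul_div, le_div_iff₀ hc]
      linarith
    · filter_upwards [hev_t] with w hw heq
      have heq' : ζ w = ζ w₁ := heq
      have h1 := hζ w hw.1
      have h2 := hζ w₁ h11
      have h3 := h.emb f' hf' w w₁ (hw.1.trans (by linarith))
      rw [h1.2, h2.2, heq', dist_self] at h3
      have h4 : 0 < ‖w - w₁‖ := norm_pos_iff.2 (sub_ne_zero.2 hw.2)
      have : 0 < c * ‖w - w₁‖ := by positivity
      linarith
  have hfreq1 : ∃ᶠ z in 𝓝[≠] (ζ w₁), ev G z ∈ Pl ev r₂ f' 0 := by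
    refine htend.frequently (p := fun z => ev G z ∈ Pl ev r₂ f' 0) ?_
    refine Eventually.frequently ?_
    filter_upwards [hev_t] with w hw
    refine ⟨w, ?_, (hζ w hw.1).2⟩
    rw [mem_closedBall_zero_iff]
    have h1 : ‖w‖ ≤ ‖w - w₁‖ + ‖w₁‖ := by simpa using norm_add_le (w - w₁) w₁
    have h2 := hw.1
    linarith
  have hG0 : dist (ev G 0) (ev f' 0) ≤ ε := by
    rw [dist_comm]
    linarith
  have hGPl := hident f' hf' G hG 0 0 hG0 (ζ w₁) (hnear _ (hζ w₁ h11).1) hfreq1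
  -- second part
  have hg'0 : dist (ev g' 0) (ev f' 0) ≤ ε := by
    have := dist_triangle_right (ev g' 0) (ev f' 0) (ev G 0)
    linarith
  have hz₁mem : z₁ ∈ closedBall (0 : ℂ) r₃ := by
    rw [mem_closedBall_zero_iff]
    linarith
  have hfreq2 : ∃ᶠ z in 𝓝[≠] z₁, ev g' z ∈ Pl ev r₂ f' 0 := by
    refine Eventually.frequently ?_
    refine nhdsWithin_le_nhds ?_
    filter_upwards [closedBall_mem_nhds z₁ ht0] with w hw
    rw [mem_closedBall, dist_eq_norm] at hw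
    obtain ⟨z', hz', he⟩ := hiso' g' hg' hg'Z w (by
      calc dist (ev g' w) (ev G z₁) ≤ dist (ev g' w) (ev g' z₁) + dist (ev g' z₁) (ev G z₁) :=
            dist_triangle _ _ _
        _ < δ / 2 + δ / 2 := by
            refine add_lt_add_of_le_of_lt ?_ hn2
            exact (h.lip g' hg' w z₁).trans ((mul_le_mul_of_nonneg_left hw hL.le).trans htδ)
        _ = δ := by ring)
    rw [he]
    exact hGPl z' (hnear z' hz')
  have hfin := hident f' hf' g' hg' 0 0 hg'0 z₁ hz₁mem hfreq2 (z n - a n) (by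
    rw [mem_closedBall_zero_iff, ← dist_eq_norm]
    exact hz n)
  rw [hg'e, sub_add_cancel] at hfin
  obtain ⟨w, hw, hwe⟩ := hfin
  refine hnot n ⟨w + φ n (a n), ?_, ?_⟩
  · rw [mem_closedBall, dist_eq_norm, add_sub_cancel_right]
    exact mem_closedBall_zero_iff.1 hw
  · rw [← hwe, hf'e]

end Pool.Agent.H5.BD
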