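import Pool.Agent.H5.BD.CDef
import Pool.Agent.H14.PP.ChartFs

/-!
# BD CAtlA: a finite cover by charts; a chart is bi-Lipschitz

`exists_cover`.  For `x₀ ∈ X` let `χ` be a chart with `x₀ ∈ χ.U`, `χ.q x₀ = 0` (`Charts`).  `{y ∈ χ.U | ‖χ.q y‖ < 1 / 2}` is a neighbourhood of `x₀` and closed under multiplication by non-zero
constants (`smul_U`, `q_smul`), so by `near_of_pr` there is `d x₀ > 0` such that `Good χ y` for all `y ∈ X` with `dist (pr y) (pr x₀) < 2 d x₀`.  The compact set `pr '' X` (`isCompact_pr`) is covered by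
finitely many balls `ball (pr (x i)) (d (x i))`, `i : Fin n`, `n ≥ 1` (add one if necessary; `X` is not empty).  `δ = min (d (x i))`, and `idx y` is an `i` with
`dist y (pr (x i)) < d (x i)` if there is one, and arbitrary otherwise.

`chart_bilip`.  Let `P = closedBall (0 : ℂ × ℂ) (1 / 2)`.  If `Good χ x` then `x = a • χ.σ (χ.q x)`, `a ≠ 0` (`surj`), so `pr x = pr (χ.σ (χ.q x))` (`pr_smul`), `χ.q x ∈ P`.
(a) Lipschitz: `dist (pr y) (pr y') = √2 wd y y' / (‖y‖ ‖y'‖)` (`dist_pr`) `≤ √2 ‖y - y'‖ / ‖y'‖`-like (`wd y y' = wd y (y' - y) ≤ ‖y‖ ‖y' - y‖`), `‖χ.σ p‖` is bounded below on `P`, and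
`χ.σ` is Lipschitz on the convex compact set `P` (analytic on `ball 0 2`).
(b) Otherwise there are `p n, p' n ∈ P` with `‖p n - p' n‖ > n * dist (pr (χ.σ (p n))) (pr (χ.σ (p' n)))`; along an ultrafilter `p n → p`, `p' n → p'`; `pr (χ.σ p) = pr (χ.σ p')`, so `χ.σ p` is a
multiple of `χ.σ p'` (`pr_eq_iff`) and `p = χ.q (χ.σ p) = p'`.  Let `x₀ = χ.σ p`.  For a matrix `y` near `pr x₀` let `Q y = χ.q (y ⬝ x₀)`, `(y ⬝ x₀) i = ∑ j, y (i, j) * x₀ j`: `y ↦ y ⬝ x₀` is linear,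
`(pr x) ⬝ x₀ = (⟨x, x₀⟩ / ‖x‖²) • x` (compare `H62/EF/Loc.lean`), `(pr x₀) ⬝ x₀ = x₀`, so `Q` is analytic at `pr x₀`, hence Lipschitz near `pr x₀`, and `χ.q x = Q (pr x)` for `x ∈ χ.U` with `pr x` near
`pr x₀`.  So `‖p n - p' n‖ ≤ K dist (pr (χ.σ (p n))) (pr (χ.σ (p' n)))` for almost all `n`: contradiction.
-/

set_option autoImplicit false

open Topology Filter Metric

namespace Pool.Agent.H5.BD

open Pool.Agent.H36.BP (EN fs wd)
open Pool.Agent.H14.PP (IsCone Chart Form Tan aCoef jac)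
open Pool.Agent.H62.EF (MN pr det2 Charts)

variable {N : ℕ} {X : Set (EN N)}

/-- the points near a point of the cone are in the middle of a chart -/
private theorem CAtlA_near (hX : IsCone X) (hch : Charts X) {x₀ : EN N} (hx₀ : x₀ ∈ X) :
    ∃ (χ : Chart X) (δ : ℝ), 0 < δ ∧ ∀ y ∈ X, dist (pr y) (pr x₀) < δ → Good χ y := by
  obtain ⟨χ, hU, hq⟩ := hch x₀ hx₀
  have hV : {y | y ∈ χ.U ∧ ‖χ.q y‖ < 1 / 2} ∈ 𝓝 x₀ := by
    have h1 : ∀ᶠ y in 𝓝 x₀, y ∈ χ.U := χ.isOpen_U.mem_nhds hU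
    have h2 : ∀ᶠ y in 𝓝 x₀, ‖χ.q y‖ < 1 / 2 := by
      have hc : ContinuousAt (fun y => ‖χ.q y‖) x₀ := (χ.q_an x₀ hU).continuousAt.norm
      apply hc.eventually_lt_const
      change ‖χ.q x₀‖ < 1 / 2
      rw [hq, norm_zero]
      norm_num
    exact h1.and h2
  obtain ⟨δ, hδ, h⟩ := Pool.Agent.H62.EF.near_of_pr (hX.ne_zero hx₀) hV
  refine ⟨χ, δ, hδ, fun y hy hd => ?_⟩
  obtain ⟨c, hc, hcU, hcq⟩ := h y (hX.ne_zero hy) hd
  have hy' : c⁻¹ • (c • y) = y := by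
    rw [smul_smul, inv_mul_cancel₀ hc, one_smul]
  have hyU : y ∈ χ.U := by
    rw [← hy']
    exact χ.smul_U _ hcU _ (inv_ne_zero hc)
  refine ⟨hy, hyU, ?_⟩
  rw [← χ.q_smul y hyU c hc]
  exact hcq.le

theorem exists_cover (hX : IsCone X) (hch : Charts X) (hne : X.Nonempty) :
    ∃ (n : ℕ) (χ : Fin n → Chart X) (idx : MN N → Fin n) (δ : ℝ), 0 < δ ∧
      ∀ x ∈ X, ∀ y ∈ X, dist (pr x) (pr y) ≤ δ → Good (χ (idx (pr x))) y := by
  classical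
  choose! χ d hd hgood using fun x : X => CAtlA_near hX hch x.2
  obtain ⟨t, ht⟩ := (Pool.Agent.H62.EF.isCompact_pr hX).elim_finite_subcover
    (fun x : X => ball (pr (x : EN N)) (d x / 2)) (fun _ => isOpen_ball) (by
      rintro _ ⟨x, hx, rfl⟩
      rw [Set.mem_iUnion]
      exact ⟨⟨x, hx⟩, mem_ball_self (half_pos (hd _))⟩)
  have htne : t.Nonempty := by
    obtain ⟨x, hx⟩ := hne
    have := ht (Set.mem_image_of_mem pr hx)
    rw [Set.mem_iUnion₂] at this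
    obtain ⟨i, hi, -⟩ := this
    exact ⟨i, hi⟩
  obtain ⟨m, hm, hmin⟩ := t.exists_min_image (fun x => d x / 2) htne
  have hcard : 0 < t.card := htne.card_pos
  let e : Fin t.card ≃ t := t.equivFin.symm
  let idx : MN N → Fin t.card := fun y =>
    if h : ∃ i : Fin t.card, dist y (pr ((e i : X) : EN N)) < d (e i) / 2 then h.choose else ⟨0, hcard⟩
  refine ⟨t.card, fun i => χ (e i), idx, d m / 2, half_pos (hd m), ?_⟩
  intro x hx y hy hxy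
  have hex : ∃ i : Fin t.card, dist (pr x) (pr ((e i : X) : EN N)) < d (e i) / 2 := by
    have := ht (Set.mem_image_of_mem pr hx)
    rw [Set.mem_iUnion₂] at this
    obtain ⟨i, hi, hb⟩ := this
    refine ⟨e.symm ⟨i, hi⟩, ?_⟩
    rw [Equiv.apply_symm_apply]
    exact hb
  have hidx : idx (pr x) = hex.choose := dif_pos hex
  have hspec := hex.choose_spec
  rw [← hidx] at hspec
  apply hgood
  · exact hy
  · have h1 : d m / 2 ≤ d (e (idx (pr x))) / 2 := hmin _ (e (idx (pr x))).2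
    calc dist (pr y) (pr ((e (idx (pr x)) : X) : EN N))
        ≤ dist (pr y) (pr x) + dist (pr x) (pr ((e (idx (pr x)) : X) : EN N)) := dist_triangle _ _ _
      _ < d m / 2 + d (e (idx (pr x))) / 2 := by
          rw [dist_comm (pr y) (pr x)]
          exact add_lt_add_of_le_of_lt hxy hspec
      _ ≤ d (e (idx (pr x))) / 2 + d (e (idx (pr x))) / 2 := by linarith
      _ = d (e (idx (pr x))) := add_halves _

private theorem CAtlA_sub {p : ℂ × ℂ} (hp : p ∈ closedBall (0 : ℂ × ℂ) (1 / 2)) :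
    p ∈ ball (0 : ℂ × ℂ) 2 :=
  closedBall_subset_ball (by norm_num) hp

private theorem CAtlA_cont (χ : Chart X) : ContinuousOn χ.σ (closedBall (0 : ℂ × ℂ) (1 / 2)) :=
  fun p hp => (χ.σ_an p (CAtlA_sub hp)).continuousAt.continuousWithinAt

/-- the parametrization is Lipschitz -/
private theorem CAtlA_lip (χ : Chart X) : ∃ K : ℝ, 0 ≤ K ∧ ∀ p ∈ closedBall (0 : ℂ × ℂ) (1 / 2),
    ∀ p' ∈ closedBall (0 : ℂ × ℂ) (1 / 2), ‖χ.σ p' - χ.σ p‖ ≤ K * ‖p' - p‖ := by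
  have hcont : ContinuousOn (fun p => ‖fderiv ℂ χ.σ p‖) (closedBall (0 : ℂ × ℂ) (1 / 2)) :=
    fun p hp => (χ.σ_an p (CAtlA_sub hp)).fderiv.continuousAt.norm.continuousWithinAt
  obtain ⟨K, hK⟩ := (isCompact_closedBall (0 : ℂ × ℂ) (1 / 2)).exists_bound_of_continuousOn hcont
  refine ⟨max K 0, le_max_right _ _, fun p hp p' hp' => ?_⟩
  have := (convex_closedBall (0 : ℂ × ℂ) (1 / 2)).norm_image_sub_le_of_norm_fderiv_le (𝕜 := ℂ) (f := χ.σ)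
    (C := max K 0) (fun y hy => (χ.σ_an y (CAtlA_sub hy)).differentiableAt)
    (fun y hy => by
      have := hK y hy
      rw [norm_norm] at this
      exact this.trans (le_max_left _ _)) hp hp'
  exact this

private theorem CAtlA_upper (hX : IsCone X) (χ : Chart X) : ∃ C : ℝ, 0 ≤ C ∧
    ∀ p ∈ closedBall (0 : ℂ × ℂ) (1 / 2), ∀ p' ∈ closedBall (0 : ℂ × ℂ) (1 / 2),
      dist (pr (χ.σ p)) (pr (χ.σ p')) ≤ C * ‖p - p'‖ := by
  obtain ⟨K, hK0, hK⟩ := CAtlA_lip χ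
  obtain ⟨q, hq, hmin⟩ := (isCompact_closedBall (0 : ℂ × ℂ) (1 / 2)).exists_isMinOn
    ⟨0, mem_closedBall_self (by norm_num)⟩ (CAtlA_cont χ).norm
  have hm : 0 < ‖χ.σ q‖ := norm_pos_iff.2 (χ.sigma_ne_zero hX (CAtlA_sub hq))
  refine ⟨Real.sqrt 2 * K / ‖χ.σ q‖, by positivity, fun p hp p' hp' => ?_⟩
  have h1 : χ.σ p ≠ 0 := χ.sigma_ne_zero hX (CAtlA_sub hp)
  have h2 : χ.σ p' ≠ 0 := χ.sigma_ne_zero hX (CAtlA_sub hp')
  have hwd : Pool.Agent.H36.BP.wd (χ.σ p) (χ.σ p') ≤ ‖χ.σ p‖ * ‖χ.σ p' - χ.σ p‖ := by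
    have h3 := Pool.Agent.H36.BP.wd_inv (χ.σ p) (χ.σ p') 1 (-1)
    rw [one_smul, one_smul, neg_one_smul, ← sub_eq_add_neg, norm_one, one_pow, one_mul] at h3
    rw [← h3]
    exact Pool.Agent.H36.BP.wd_le _ _
  have hmp : ‖χ.σ q‖ ≤ ‖χ.σ p'‖ := hmin hp'
  have hp0 : 0 < ‖χ.σ p‖ := norm_pos_iff.2 h1
  have hp0' : 0 < ‖χ.σ p'‖ := norm_pos_iff.2 h2
  rw [Pool.Agent.H62.EF.dist_pr h1 h2]
  calc Real.sqrt 2 * (Pool.Agent.H36.BP.wd (χ.σ p) (χ.σ p') / (‖χ.σ p‖ * ‖χ.σ p'‖))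
      ≤ Real.sqrt 2 * ((‖χ.σ p‖ * ‖χ.σ p' - χ.σ p‖) / (‖χ.σ p‖ * ‖χ.σ p'‖)) := by
        gcongr
    _ = Real.sqrt 2 * (‖χ.σ p' - χ.σ p‖ / ‖χ.σ p'‖) := by
        rw [mul_div_mul_left _ _ hp0.ne']
    _ ≤ Real.sqrt 2 * (K * ‖p' - p‖ / ‖χ.σ q‖) := by
        gcongr
        exact hK p hp p' hp'
    _ = Real.sqrt 2 * K / ‖χ.σ q‖ * ‖p - p'‖ := by
        rw [norm_sub_rev p' p]
        ring

/-- the product of a matrix and the vector `x₀` -/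
private noncomputable def CAtlA_mul (x₀ : EN N) : MN N →ₗ[ℂ] EN N where
  toFun y := WithLp.toLp 2 fun i => ∑ j, y (i, j) * x₀ j
  map_add' y z := by
    ext i
    simp [add_mul, Finset.sum_add_distrib]
  map_smul' c y := by
    ext i
    simp [Finset.mul_sum, mul_assoc]

private theorem CAtlA_mul_pr (x₀ x : EN N) :
    CAtlA_mul x₀ (pr x) = (inner ℂ x x₀ / ((‖x‖ ^ 2 : ℝ) : ℂ)) • x := by
  ext i
  simp only [CAtlA_mul, pr, LinearMap.coe_mk, AddHom.coe_mk, PiLp.smul_apply, smul_eq_mul]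
  rw [PiLp.inner_apply, Finset.sum_div, Finset.sum_mul]
  refine Finset.sum_congr rfl fun j _ => ?_
  simp only [RCLike.inner_apply]
  ring

private theorem CAtlA_mul_self {x₀ : EN N} (hx₀ : x₀ ≠ 0) : CAtlA_mul x₀ (pr x₀) = x₀ := by
  rw [CAtlA_mul_pr]
  have h1 : inner ℂ x₀ x₀ = ((‖x₀‖ ^ 2 : ℝ) : ℂ) := by
    rw [inner_self_eq_norm_sq_to_K]
    push_cast
    rfl
  rw [h1, div_self, one_smul]
  have : ‖x₀‖ ≠ 0 := norm_ne_zero_iff.2 hx₀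
  exact_mod_cast pow_ne_zero 2 this

private theorem CAtlA_local (hX : IsCone X) (χ : Chart X) {a : ℂ × ℂ}
    (ha : a ∈ closedBall (0 : ℂ × ℂ) (1 / 2)) :
    ∃ K : ℝ, ∀ᶠ p : (ℂ × ℂ) × (ℂ × ℂ) in 𝓝 (a, a), p.1 ∈ ball (0 : ℂ × ℂ) 2 → p.2 ∈ ball (0 : ℂ × ℂ) 2 →
      ‖p.1 - p.2‖ ≤ K * dist (pr (χ.σ p.1)) (pr (χ.σ p.2)) := by
  have haB := CAtlA_sub ha
  have hx₀ : χ.σ a ≠ 0 := χ.sigma_ne_zero hX haB
  set x₀ := χ.σ a with hx₀def
  let L : MN N →L[ℂ] EN N := LinearMap.toContinuousLinearMap (CAtlA_mul x₀)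
  have hL : ∀ y, L y = CAtlA_mul x₀ y := fun y => rfl
  have hLx : L (pr x₀) = x₀ := by rw [hL, CAtlA_mul_self hx₀]
  have hQan : AnalyticAt ℂ (fun y => χ.q (L y)) (pr x₀) := by
    have h1 : AnalyticAt ℂ χ.q (L (pr x₀)) := by
      rw [hLx]
      exact χ.q_an _ (χ.σ_mem a haB).2.1
    exact h1.comp (L.analyticAt _)
  obtain ⟨K, s, hs, hK⟩ := hQan.hasStrictFDerivAt.exists_lipschitzOnWith
  have hcpr : ContinuousAt (fun p => pr (χ.σ p)) a :=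
    ContinuousAt.comp (g := pr) (Pool.Agent.H62.EF.continuousAt_pr hx₀) (χ.σ_an a haB).continuousAt
  have h1 : ∀ᶠ p in 𝓝 a, pr (χ.σ p) ∈ s := hcpr hs
  have h2 : ∀ᶠ p in 𝓝 a, L (pr (χ.σ p)) ≠ 0 := by
    have hc : ContinuousAt (fun p => L (pr (χ.σ p))) a :=
      ContinuousAt.comp (g := L) L.continuous.continuousAt hcpr
    apply hc.eventually_ne
    rw [← hx₀def, hLx]
    exact hx₀
  have h3 : ∀ p, p ∈ ball (0 : ℂ × ℂ) 2 → L (pr (χ.σ p)) ≠ 0 → χ.q (L (pr (χ.σ p))) = p := by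
    intro p hp hne
    rw [hL, CAtlA_mul_pr] at hne ⊢
    have hc : inner ℂ (χ.σ p) x₀ / ((‖χ.σ p‖ ^ 2 : ℝ) : ℂ) ≠ 0 := by
      intro h0
      rw [h0, zero_smul] at hne
      exact hne rfl
    rw [χ.q_smul _ (χ.σ_mem p hp).2.1 _ hc]
    exact (χ.σ_mem p hp).2.2
  refine ⟨K, ?_⟩
  have h12 := h1.and h2
  rw [nhds_prod_eq]
  filter_upwards [h12.prod_mk h12] with p hp hp1 hp2
  have h4 := hK.dist_le_mul _ hp.1.1 _ hp.2.1
  simp only [h3 p.1 hp1 hp.1.2, h3 p.2 hp2 hp.2.2] at h4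
  rw [dist_eq_norm p.1 p.2] at h4
  exact h4

private theorem CAtlA_lower (hX : IsCone X) (χ : Chart X) : ∃ C : ℝ,
    ∀ p ∈ closedBall (0 : ℂ × ℂ) (1 / 2), ∀ p' ∈ closedBall (0 : ℂ × ℂ) (1 / 2),
      ‖p - p'‖ ≤ C * dist (pr (χ.σ p)) (pr (χ.σ p')) := by
  by_contra hcon
  push Not at hcon
  choose p hp p' hp' hlt using fun n : ℕ => hcon n
  have hcomp : IsCompact (closedBall (0 : ℂ × ℂ) (1 / 2) ×ˢ closedBall (0 : ℂ × ℂ) (1 / 2)) :=
    (isCompact_closedBall _ _).prod (isCompact_closedBall _ _)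
  obtain ⟨⟨a, b⟩, ⟨ha, hb⟩, φ, hφ, hlim⟩ := hcomp.tendsto_subseq
    (x := fun n => (p n, p' n)) (fun n => ⟨hp n, hp' n⟩)
  have hlim' : Tendsto (fun n => (p (φ n), p' (φ n))) atTop (𝓝 (a, b)) := hlim
  have hla : Tendsto (fun n => p (φ n)) atTop (𝓝 a) :=
    (continuous_fst.tendsto (a, b)).comp hlim'
  have hlb : Tendsto (fun n => p' (φ n)) atTop (𝓝 b) :=
    (continuous_snd.tendsto (a, b)).comp hlim'
  have hφt : Tendsto (fun n => ((φ n : ℕ) : ℝ)) atTop atTop :=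
    tendsto_natCast_atTop_atTop.comp hφ.tendsto_atTop
  have hca : ∀ c ∈ closedBall (0 : ℂ × ℂ) (1 / 2), ContinuousAt (fun p => pr (χ.σ p)) c := fun c hc =>
    ContinuousAt.comp (g := pr) (Pool.Agent.H62.EF.continuousAt_pr (χ.sigma_ne_zero hX (CAtlA_sub hc)))
      (χ.σ_an c (CAtlA_sub hc)).continuousAt
  have hab : a = b := by
    have hd : Tendsto (fun n => dist (pr (χ.σ (p (φ n)))) (pr (χ.σ (p' (φ n))))) atTop
        (𝓝 (dist (pr (χ.σ a)) (pr (χ.σ b)))) :=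
      ((hca a ha).tendsto.comp hla).dist ((hca b hb).tendsto.comp hlb)
    have hd0 : Tendsto (fun n => dist (pr (χ.σ (p (φ n)))) (pr (χ.σ (p' (φ n))))) atTop (𝓝 0) := by
      refine squeeze_zero' (Eventually.of_forall fun n => dist_nonneg) ?_
        (tendsto_inv_atTop_zero.comp hφt)
      filter_upwards [hφt.eventually_gt_atTop 0] with n hn
      have h1 := hlt (φ n)
      have h2 : ‖p (φ n) - p' (φ n)‖ ≤ 1 := by
        have h3 := mem_closedBall_zero_iff.1 (hp (φ n))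
        have h4 := mem_closedBall_zero_iff.1 (hp' (φ n))
        calc ‖p (φ n) - p' (φ n)‖ ≤ ‖p (φ n)‖ + ‖p' (φ n)‖ := norm_sub_le _ _
          _ ≤ 1 / 2 + 1 / 2 := add_le_add h3 h4
          _ = 1 := by norm_num
      simp only [Function.comp_apply]
      rw [← one_div, le_div_iff₀ hn, mul_comm]
      exact (h1.trans_le h2).le
    have h0 : dist (pr (χ.σ a)) (pr (χ.σ b)) = 0 := tendsto_nhds_unique hd hd0
    obtain ⟨c, hc, hcab⟩ := (Pool.Agent.H62.EF.pr_eq_iff (χ.sigma_ne_zero hX (CAtlA_sub ha))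
      (χ.sigma_ne_zero hX (CAtlA_sub hb))).1 (dist_eq_zero.1 h0)
    have h1 := (χ.σ_mem a (CAtlA_sub ha)).2.2
    have h2 := (χ.σ_mem b (CAtlA_sub hb)).2
    rw [← h1, hcab, χ.q_smul _ h2.1 c hc, h2.2]
  subst hab
  obtain ⟨K, hK⟩ := CAtlA_local hX χ ha
  obtain ⟨n, hn, hnK⟩ := ((hlim'.eventually hK).and (hφt.eventually_ge_atTop K)).exists
  have h1 := hn (CAtlA_sub (hp _)) (CAtlA_sub (hp' _))
  have h2 := hlt (φ n)
  have h3 : K * dist (pr (χ.σ (p (φ n)))) (pr (χ.σ (p' (φ n)))) ≤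
      (φ n : ℝ) * dist (pr (χ.σ (p (φ n)))) (pr (χ.σ (p' (φ n)))) :=
    mul_le_mul_of_nonneg_right hnK dist_nonneg
  exact absurd (h1.trans h3) (not_le.2 h2)

theorem chart_bilip (hX : IsCone X) (χ : Chart X) : ∃ C : ℝ, 1 ≤ C ∧ ∀ x y, Good χ x → Good χ y →
    dist (pr x) (pr y) ≤ C * ‖χ.q x - χ.q y‖ ∧ ‖χ.q x - χ.q y‖ ≤ C * dist (pr x) (pr y) := by
  obtain ⟨C₁, -, h₁⟩ := CAtlA_upper hX χ
  obtain ⟨C₂, h₂⟩ := CAtlA_lower hX χ
  have hg : ∀ x, Good χ x → χ.q x ∈ closedBall (0 : ℂ × ℂ) (1 / 2) ∧ pr x = pr (χ.σ (χ.q x)) := by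
    rintro x ⟨hx, hU, hq⟩
    refine ⟨mem_closedBall_zero_iff.2 hq, ?_⟩
    obtain ⟨-, c, hc, hxc⟩ := χ.surj x hx hU
    rw [← Pool.Agent.H62.EF.pr_smul (χ.σ (χ.q x)) hc, ← hxc]
  refine ⟨max 1 (max C₁ C₂), le_max_left _ _, fun x y hx hy => ?_⟩
  obtain ⟨hqx, hpx⟩ := hg x hx
  obtain ⟨hqy, hpy⟩ := hg y hy
  constructor
  · rw [hpx, hpy]
    refine (h₁ _ hqx _ hqy).trans ?_
    exact mul_le_mul_of_nonneg_right ((le_max_left _ _).trans (le_max_right _ _)) (norm_nonneg _)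
  · rw [hpx, hpy]
    refine (h₂ _ hqx _ hqy).trans ?_
    exact mul_le_mul_of_nonneg_right ((le_max_right _ _).trans (le_max_right _ _)) dist_nonneg

end Pool.Agent.H5.BD
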