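import Pool.Agent.H5.BD.CDm

/-!
# BD CDet: comparison of `Dm` with the determinant for the nearest point, in another chart

Let `K₂` be as in `exists_dmBound`, `C = A.C`.  `ε` is small, depending on `s` and `η` (`ε ≤ ε₃`, `ε ≤ A.δ / 2`, `K₂ ε / s ≤ 1`, ...).  Let `F, G, z₀, φ, e, ψ, z, w` be as in the statement,
`k = A.idx (pr (F (φ z₀)))`, `i = A.idx (pr (G z))`, `x = G z`, `y = F w`, `y' = F (ψ z)`, `t = ‖(χ k).q y' - (χ k).q x‖ = ‖qc A k F (ψ z) - qc A k G z‖`.  `FolAt` gives the hypothesis of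
`exists_dmBound` (`φ z ∈ closedBall (φ z₀) (r₂ / 4)`), so `t ≤ K₂ ε`, `t ≤ K₂ ‖Dm z‖`, and `‖det2 (p_F' (ψ z)) g'‖ ≤ K₂ ε / s` where `p_F' = deriv (qc A k F)`, `g' = deriv (qc A k G) z`, `‖g'‖ ≤ K`.
`w ∈ closedBall (φ z) r₂ ⊆ closedBall (φ z₀) (2 r₂)`, so `y` is good for `k` (`goodF`), `x` is good for `k` (`goodG`).
(a) `ψ z ∈ closedBall (φ z) r₂`: by `near` for `φ z`: `‖φ z - ψ z‖ ≤ K ‖qc A k F (φ z) - qc A k G z‖ ≤ K C ε ≤ r₂`.  So `dist (pr x) (pr y) ≤ dist (pr x) (pr y') ≤ C t` (`dist_le`), and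
`‖(χ k).q y - (χ k).q x‖ ≤ C² t`; by `near` `‖w - ψ z‖ ≤ K C² t`.
(b) Let `ν = (χ k).q y - (χ k).q x`, `ν' = (χ k).q y' - (χ k).q x`.  `ν - ν' = p_F (w) - p_F (ψ z) = p_F' (ψ z) (w - ψ z) + E₁`, `‖E₁‖ ≤ K ‖w - ψ z‖²` (`der_lip`; the points are in `ball (φ z₀) (r₀ / 2)`).  So
`‖det2 ν g' - Dm z‖ ≤ (K₂ ε / s) K C² t + 2 K K (K C² t)² ≤ K₃ (ε / s + ε) t`.
(c) `x, y` are good for `i` (`dist (pr x) (pr y) ≤ C t ≤ A.δ`, `A.good`).  `T = fderiv (fun p => (χ i).q ((χ k).σ p)) ((χ k).q x)`: `A.trans` (with `i := k`, `j := i`) `(χ i).q y - (χ i).q x = T ν + E₂`,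
`‖E₂‖ ≤ C ‖ν‖² ≤ C (C² t)²`.  Chain rule: `deriv (qc A i G) z = T g'` (near `z` `qc A i G = (χ i).q ∘ (χ k).σ ∘ qc A k G` because `G = a • (χ k).σ (qc A k G)`).  `det2 (T ν) (T g') = jac * det2 ν g'`
where `jac` is the Jacobian (`T` has the matrix in the definition of `jac`).  So the determinant in the chart `i` differs from `jac * det2 ν g'` by at most `2 C (C² t)² C K`.
(d) Together: `‖det2 ((χ i).q y - (χ i).q x) (deriv (qc A i G) z) - jac * Dm z‖ ≤ K₄ (ε + ε / s) t ≤ K₄ (ε + ε / s) K₂ ‖Dm z‖ ≤ K₄ K₂ C (ε + ε / s) ‖jac‖ ‖Dm z‖` (`jac_ge`).  If `ε` is so small that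
`K₄ K₂ C (ε + ε / s) ≤ 1 - exp (-η)` this gives both inequalities (`1 - exp (-η) ≤ exp η - 1`).
-/

set_option autoImplicit false

open Topology Filter Metric

namespace Pool.Agent.H5.BD

open Pool.Agent.H36.BP (EN fs wd)
open Pool.Agent.H14.PP (IsCone Chart Form Tan aCoef jac)
open Pool.Agent.H62.EF (MN pr det2 Charts)

variable {N : ℕ} {X : Set (EN N)} {A : Atlas X} {c L r₀ c₁ K₀ r₂ r₃ ε₃ K : ℝ}

private theorem CDet_norm (a b : ℂ × ℂ) : ‖det2 a b‖ ≤ 2 * (‖a‖ * ‖b‖) := by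
  unfold det2
  have h1 : ‖a.1 * b.2‖ ≤ ‖a‖ * ‖b‖ := by
    rw [norm_mul]
    exact mul_le_mul (norm_fst_le a) (norm_snd_le b) (norm_nonneg _) (norm_nonneg _)
  have h2 : ‖a.2 * b.1‖ ≤ ‖a‖ * ‖b‖ := by
    rw [norm_mul]
    exact mul_le_mul (norm_snd_le a) (norm_fst_le b) (norm_nonneg _) (norm_nonneg _)
  calc ‖a.1 * b.2 - a.2 * b.1‖ ≤ ‖a.1 * b.2‖ + ‖a.2 * b.1‖ := norm_sub_le _ _
    _ ≤ 2 * (‖a‖ * ‖b‖) := by linarith

private theorem CDet_map (T : ℂ × ℂ →L[ℂ] ℂ × ℂ) (a b : ℂ × ℂ) :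
    det2 (T a) (T b) = ((T (1, 0)).1 * (T (0, 1)).2 - (T (0, 1)).1 * (T (1, 0)).2) * det2 a b := by
  have h : ∀ v : ℂ × ℂ, T v = v.1 • T (1, 0) + v.2 • T (0, 1) := by
    intro v
    have h1 : v = v.1 • ((1 : ℂ), (0 : ℂ)) + v.2 • ((0 : ℂ), (1 : ℂ)) := by
      ext <;> simp
    conv_lhs => rw [h1]
    rw [map_add, map_smul, map_smul]
  rw [h a, h b]
  unfold det2
  simp only [Prod.fst_add, Prod.snd_add, Prod.smul_fst, Prod.smul_snd, smul_eq_mul]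
  ring

/-- second order Taylor estimate -/
private theorem CDet_taylor {p : ℂ → ℂ × ℂ} {w₀ : ℂ} {ρ M : ℝ} (hp : ∀ u ∈ ball w₀ ρ, DifferentiableAt ℂ p u)
    (hM : ∀ u ∈ ball w₀ ρ, ∀ u' ∈ ball w₀ ρ, ‖deriv p u - deriv p u'‖ ≤ M * ‖u - u'‖) (hM0 : 0 ≤ M) {w w' : ℂ} (hw : w ∈ ball w₀ ρ)
    (hw' : w' ∈ ball w₀ ρ) : ‖p w - p w' - (w - w') • deriv p w'‖ ≤ M * ‖w - w'‖ ^ 2 := by
  have hconv : Convex ℝ (ball w₀ ρ ∩ closedBall w' ‖w - w'‖) := (convex_ball _ _).inter (convex_closedBall _ _)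
  have h1 := hconv.norm_image_sub_le_of_norm_hasDerivWithin_le (𝕜 := ℂ) (f := fun u => p u - u • deriv p w')
    (f' := fun u => deriv p u - (1 : ℂ) • deriv p w') (C := M * ‖w - w'‖) (x := w') (y := w) ?_ ?_ ?_ ?_
  · have h2 : p w - w • deriv p w' - (p w' - w' • deriv p w') = p w - p w' - (w - w') • deriv p w' := by
      rw [sub_smul]; abel
    rw [h2] at h1
    calc ‖p w - p w' - (w - w') • deriv p w'‖ ≤ M * ‖w - w'‖ * ‖w - w'‖ := h1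
      _ = M * ‖w - w'‖ ^ 2 := by ring
  · intro u hu
    exact (((hp u hu.1).hasDerivAt).sub ((hasDerivAt_id u).smul_const (deriv p w'))).hasDerivWithinAt
  · intro u hu
    rw [one_smul]
    refine (hM u hu.1 w' hw').trans (mul_le_mul_of_nonneg_left ?_ hM0)
    have h3 := hu.2
    rwa [mem_closedBall, dist_eq_norm] at h3
  · exact ⟨hw', mem_closedBall_self (norm_nonneg _)⟩
  · refine ⟨hw, ?_⟩
    rw [mem_closedBall, dist_eq_norm]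

/-- the chain rule for the change of charts -/
private theorem CDet_chain (hX : IsCone X) {G : ℂ → EN N} (hG : Differentiable ℂ G) (hGX : ∀ z, G z ∈ X) {χ χ' : Chart X} {z : ℂ}
    (h : Good χ (G z)) (h' : Good χ' (G z)) :
    deriv (fun z => χ'.q (G z)) z = fderiv ℂ (fun p => χ'.q (χ.σ p)) (χ.q (G z)) (deriv (fun z => χ.q (G z)) z) := by
  have hcurve : Pool.Agent.H14.PP.CurveAt X G z := ⟨hG.analyticAt z, Eventually.of_forall hGX⟩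
  obtain ⟨han, -, a, -, -, hev⟩ := χ.curve hX hcurve h.2.1
  have hb : χ.q (G z) ∈ ball (0 : ℂ × ℂ) 2 := (χ.surj _ h.1 h.2.1).1
  obtain ⟨a₀, ha₀, hGz⟩ := (χ.surj _ h.1 h.2.1).2
  have hσU : χ.σ (χ.q (G z)) ∈ χ'.U := by
    have h1 := χ'.smul_U _ h'.2.1 a₀⁻¹ (inv_ne_zero ha₀)
    rw [hGz] at h1
    rw [smul_smul, inv_mul_cancel₀ ha₀, one_smul] at h1
    convert h1 using 3
  have hd : DifferentiableAt ℂ (fun p => χ'.q (χ.σ p)) (χ.q (G z)) := by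
    have h1 : AnalyticAt ℂ (fun p => χ'.q (χ.σ p)) (χ.q (G z)) :=
      AnalyticAt.comp (g := χ'.q) (f := χ.σ) (χ'.q_an _ hσU) (χ.σ_an _ hb)
    exact h1.differentiableAt
  have heq : (fun z => χ'.q (G z)) =ᶠ[𝓝 z] fun z => (fun p => χ'.q (χ.σ p)) (χ.q (G z)) := by
    have hU' : ∀ᶠ u in 𝓝 z, G u ∈ χ'.U := (hG.continuous.continuousAt).eventually_mem (χ'.isOpen_U.mem_nhds h'.2.1)
    filter_upwards [hev, hU'] with u hu huU
    have ha : a u ≠ 0 := by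
      intro h0
      have h1 := hGX u
      rw [hu.2, h0, zero_smul] at h1
      exact hX.zero_notMem h1
    have h1 : χ.σ (χ.q (G u)) ∈ χ'.U := by
      have h2 := χ'.smul_U _ huU (a u)⁻¹ (inv_ne_zero ha)
      have h3 : (a u)⁻¹ • G u = χ.σ (χ.q (G u)) := by
        conv_lhs => rw [hu.2]
        rw [smul_smul, inv_mul_cancel₀ ha, one_smul]
      rwa [h3] at h2
    show χ'.q (G u) = χ'.q (χ.σ (χ.q (G u)))
    conv_lhs => rw [hu.2]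
    exact χ'.q_smul _ h1 _ ha
  rw [heq.deriv_eq]
  exact (hd.hasFDerivAt.comp_hasDerivAt z han.differentiableAt.hasDerivAt).deriv

/-- the numerical conclusion -/
private theorem CDet_num {η a J D E : ℝ} (hJD : 0 ≤ J * D) (h : |a - J * D| ≤ E * (J * D)) (hE : E ≤ 1 - Real.exp (-η)) :
    Real.exp (-η) * (J * D) ≤ a ∧ a ≤ Real.exp η * (J * D) := by
  have h1 : E * (J * D) ≤ (1 - Real.exp (-η)) * (J * D) := mul_le_mul_of_nonneg_right hE hJD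
  have h2 := abs_le.1 (h.trans h1)
  have h3 : 2 ≤ Real.exp η + Real.exp (-η) := by
    have h4 : Real.exp η * Real.exp (-η) = 1 := by rw [← Real.exp_add, add_neg_cancel, Real.exp_zero]
    nlinarith [sq_nonneg (Real.exp η - Real.exp (-η)), Real.exp_pos η, Real.exp_pos (-η), sq_nonneg (Real.exp η + Real.exp (-η) - 2),
      sq_nonneg (Real.exp η - 1), sq_nonneg (Real.exp (-η) - 1)]
  constructor
  · linarith [h2.1]
  · nlinarith [h2.2]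

/-- the estimate for one configuration -/
private theorem CDet_main (hX : IsCone X) (h : MC A c L r₀ c₁ K₀ r₂ r₃ ε₃ K) {K₂ s ε : ℝ} (hK₂ : 1 ≤ K₂) (hs : 0 < s) (hs₃ : s ≤ r₃) (hε : 0 < ε)
    (hε1 : K₂ * (ε / s) ≤ 1) (hε2 : K * (A.C * ε) ≤ r₂) (hε3 : A.C * (K₂ * ε) ≤ A.δ) {F G : ℂ → EN N} (hF : F ∈ BC X c L) (hG : G ∈ BC X c L)
    {z₀ : ℂ} {φ : ℂ → ℂ} (hfol : FolAt evp r₂ s ε F G z₀ φ) {e : Bool} {ψ : ℂ → ℂ} {k : Fin A.n} (hk : k = A.idx (pr (F (φ z₀))))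
    (hm : Match A r₂ r₃ K F G k (φ z₀) z₀ e ψ) (hD : DmBound A F G k z₀ ψ s ε K₂) {z : ℂ} (hz : z ∈ closedBall z₀ (s / 2)) {w : ℂ}
    (hw : w ∈ closedBall (φ z) r₂) (hmin : ∀ w' ∈ closedBall (φ z) r₂, dist (pr (G z)) (pr (F w)) ≤ dist (pr (G z)) (pr (F w'))) {i : Fin A.n}
    (hi : i = A.idx (pr (G z))) :
    ‖det2 (qc A i F w - qc A i G z) (deriv (qc A i G) z) - jac (fun p => (A.χ i).q ((A.χ k).σ p)) (qc A k G z) * Dm A F G k ψ z‖ ≤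
      (K * A.C ^ 2 * K₂ ^ 2 * (ε / s) + (2 * K₀ ^ 2 * K ^ 2 * A.C ^ 4 * K₂ ^ 2 + 2 * K₀ * A.C ^ 6 * K₂ ^ 2) * ε) *
        (‖jac (fun p => (A.χ i).q ((A.χ k).σ p)) (qc A k G z)‖ * ‖Dm A F G k ψ z‖) := by
  have hC : 1 ≤ A.C := A.one_le
  have hK₀ : 1 ≤ K₀ := h.lc.one_le
  have hK : 1 ≤ K := hK₀.trans h.le_K
  have hr₂ := h.r₂_pos
  have hr₃ := h.r₃_pos
  have hzn : ‖z - z₀‖ ≤ s / 2 := by rwa [mem_closedBall, dist_eq_norm] at hz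
  have hzs : z ∈ closedBall z₀ s := by rw [mem_closedBall, dist_eq_norm]; linarith
  have hzb : z ∈ ball z₀ (2 * r₃) := by rw [mem_ball, dist_eq_norm]; linarith
  obtain ⟨hd1, hd2⟩ := hfol z hzs
  have hd1' : dist (pr (G z)) (pr (F (φ z))) ≤ ε := hd1
  have hφz : φ z ∈ closedBall (φ z₀) (2 * r₂) := by rw [mem_closedBall, dist_eq_norm]; linarith
  have hwn : ‖w - φ z‖ ≤ r₂ := by rwa [mem_closedBall, dist_eq_norm] at hw
  have hwn' : ‖w - φ z₀‖ ≤ r₂ + r₂ / 4 := by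
    calc ‖w - φ z₀‖ = ‖(w - φ z) + (φ z - φ z₀)‖ := by rw [sub_add_sub_cancel]
      _ ≤ ‖w - φ z‖ + ‖φ z - φ z₀‖ := norm_add_le _ _
      _ ≤ r₂ + r₂ / 4 := add_le_add hwn hd2
  have hw2 : w ∈ closedBall (φ z₀) (2 * r₂) := by rw [mem_closedBall, dist_eq_norm]; linarith
  have hψm : ‖ψ z - φ z₀‖ ≤ r₂ := by
    have h1 := hm.mem z hzb
    rwa [mem_closedBall, dist_eq_norm] at h1
  have hψ2 : ψ z ∈ closedBall (φ z₀) (2 * r₂) := by rw [mem_closedBall, dist_eq_norm]; linarith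
  have gx : Good (A.χ k) (G z) := hm.goodG z hzb
  have gy : Good (A.χ k) (F w) := hm.goodF w hw2
  have gy' : Good (A.χ k) (F (ψ z)) := hm.goodF (ψ z) hψ2
  have gφ : Good (A.χ k) (F (φ z)) := hm.goodF (φ z) hφz
  obtain ⟨t, ht⟩ : ∃ t : ℝ, t = ‖qc A k F (ψ z) - qc A k G z‖ := ⟨_, rfl⟩
  have ht0 : 0 ≤ t := by rw [ht]; exact norm_nonneg _
  have ht1 : t ≤ K₂ * ε := by rw [ht]; exact hD.le z hzs
  have ht2 : t ≤ K₂ * ‖Dm A F G k ψ z‖ := by rw [ht]; exact hD.lower hε1 z hz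
  -- (a)
  have hψφ : ψ z ∈ closedBall (φ z) r₂ := by
    rw [mem_closedBall, dist_eq_norm, norm_sub_rev]
    have h1 := hm.near z hzb (φ z) hφz
    have h2 : ‖qc A k F (φ z) - qc A k G z‖ ≤ A.C * ε := by
      have h3 := A.le_dist k _ _ gφ gx
      rw [dist_comm] at h3
      exact h3.trans (mul_le_mul_of_nonneg_left hd1' (by linarith))
    exact h1.trans ((mul_le_mul_of_nonneg_left h2 (by linarith)).trans hε2)
  have hxy : dist (pr (G z)) (pr (F w)) ≤ A.C * t := by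
    refine (hmin (ψ z) hψφ).trans ?_
    have h1 := A.dist_le k _ _ gx gy'
    rw [norm_sub_rev] at h1
    rw [ht]
    exact h1
  have hν : ‖qc A k F w - qc A k G z‖ ≤ A.C ^ 2 * t := by
    have h1 := A.le_dist k _ _ gy gx
    rw [dist_comm] at h1
    have h2 := h1.trans (mul_le_mul_of_nonneg_left hxy (by linarith))
    calc ‖qc A k F w - qc A k G z‖ ≤ A.C * (A.C * t) := h2
      _ = A.C ^ 2 * t := by ring
  have hwψ : ‖w - ψ z‖ ≤ K * (A.C ^ 2 * t) :=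
    (hm.near z hzb w hw2).trans (mul_le_mul_of_nonneg_left hν (by linarith))
  -- (b)
  have hgoodF : ∀ u ∈ ball (φ z₀) r₀, Good (A.χ k) (F u) := by
    rw [hk]
    exact h.lc.good F hF _ (hF.2.1 _) (φ z₀) (by rw [dist_self]; have := A.δ_pos; linarith)
  have hr₀ := h.lc.r₀_pos
  have hr₂₀ := h.r₂_le
  have htay : ‖qc A k F w - qc A k F (ψ z) - (w - ψ z) • deriv (qc A k F) (ψ z)‖ ≤ K₀ * ‖w - ψ z‖ ^ 2 := by
    refine CDet_taylor (w₀ := φ z₀) (ρ := r₀ / 2) ?_ ?_ (by linarith) ?_ ?_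
    · intro u hu
      exact (h.lc.an F hF k u (hgoodF u (ball_subset_ball (by linarith) hu))).differentiableAt
    · exact h.lc.der_lip F hF k (φ z₀) hgoodF
    · rw [mem_ball, dist_eq_norm]; linarith
    · rw [mem_ball, dist_eq_norm]; linarith
  obtain ⟨g', hg'⟩ : ∃ g' : ℂ × ℂ, g' = deriv (qc A k G) z := ⟨_, rfl⟩
  have hg'n : ‖g'‖ ≤ K₀ := by rw [hg']; exact h.lc.der_le G hG k z gx
  have hang : ‖det2 (deriv (qc A k F) (ψ z)) g'‖ ≤ K₂ * (ε / s) := by rw [hg']; exact hD.angle z hz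
  obtain ⟨E₁, hE₁⟩ : ∃ E₁ : ℂ × ℂ, E₁ = qc A k F w - qc A k F (ψ z) - (w - ψ z) • deriv (qc A k F) (ψ z) := ⟨_, rfl⟩
  obtain ⟨ν, hνd⟩ : ∃ ν : ℂ × ℂ, ν = qc A k F w - qc A k G z := ⟨_, rfl⟩
  have hν' : ‖ν‖ ≤ A.C ^ 2 * t := by rw [hνd]; exact hν
  have hb1 : det2 ν g' - Dm A F G k ψ z = (w - ψ z) * det2 (deriv (qc A k F) (ψ z)) g' + det2 E₁ g' := by
    rw [hνd, hE₁, hg']
    unfold Dm det2
    simp only [Prod.fst_sub, Prod.snd_sub, Prod.smul_fst, Prod.smul_snd, smul_eq_mul]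
    ring
  have hb2 : ‖det2 ν g' - Dm A F G k ψ z‖ ≤ (K * A.C ^ 2 * K₂ * (ε / s) + 2 * K₀ ^ 2 * K ^ 2 * A.C ^ 4 * K₂ * ε) * t := by
    have hwψ2 : ‖w - ψ z‖ ^ 2 ≤ (K * (A.C ^ 2 * t)) ^ 2 := pow_le_pow_left₀ (norm_nonneg _) hwψ 2
    have h1 : ‖(w - ψ z) * det2 (deriv (qc A k F) (ψ z)) g'‖ ≤ (K * (A.C ^ 2 * t)) * (K₂ * (ε / s)) := by
      rw [norm_mul]
      exact mul_le_mul hwψ hang (norm_nonneg _) (by positivity)
    have h2 : ‖det2 E₁ g'‖ ≤ 2 * ((K₀ * (K * (A.C ^ 2 * t)) ^ 2) * K₀) := by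
      refine (CDet_norm _ _).trans (mul_le_mul_of_nonneg_left ?_ (by norm_num))
      refine mul_le_mul ?_ hg'n (norm_nonneg _) (by positivity)
      rw [hE₁]
      exact htay.trans (mul_le_mul_of_nonneg_left hwψ2 (by linarith))
    have h3 : t ^ 2 ≤ K₂ * ε * t := by nlinarith
    rw [hb1]
    calc ‖(w - ψ z) * det2 (deriv (qc A k F) (ψ z)) g' + det2 E₁ g'‖
        ≤ ‖(w - ψ z) * det2 (deriv (qc A k F) (ψ z)) g'‖ + ‖det2 E₁ g'‖ := norm_add_le _ _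
      _ ≤ (K * (A.C ^ 2 * t)) * (K₂ * (ε / s)) + 2 * ((K₀ * (K * (A.C ^ 2 * t)) ^ 2) * K₀) := add_le_add h1 h2
      _ = K * A.C ^ 2 * K₂ * (ε / s) * t + 2 * K₀ ^ 2 * K ^ 2 * A.C ^ 4 * t ^ 2 := by ring
      _ ≤ K * A.C ^ 2 * K₂ * (ε / s) * t + 2 * K₀ ^ 2 * K ^ 2 * A.C ^ 4 * (K₂ * ε * t) := by
          have h4 : 0 ≤ 2 * K₀ ^ 2 * K ^ 2 * A.C ^ 4 := by positivity
          have h5 := mul_le_mul_of_nonneg_left h3 h4
          linarith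
      _ = (K * A.C ^ 2 * K₂ * (ε / s) + 2 * K₀ ^ 2 * K ^ 2 * A.C ^ 4 * K₂ * ε) * t := by ring
  -- (c)
  have gxi : Good (A.χ i) (G z) := by
    rw [hi]
    exact A.good _ (hG.2.1 z) _ (hG.2.1 z) (by rw [dist_self]; exact A.δ_pos.le)
  have gyi : Good (A.χ i) (F w) := by
    rw [hi]
    refine A.good _ (hG.2.1 z) _ (hF.2.1 w) (hxy.trans ((mul_le_mul_of_nonneg_left ht1 (by linarith)).trans hε3))
  obtain ⟨T, hT⟩ : ∃ T : ℂ × ℂ →L[ℂ] ℂ × ℂ, T = fderiv ℂ (fun p => (A.χ i).q ((A.χ k).σ p)) (qc A k G z) := ⟨_, rfl⟩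
  obtain ⟨E₂, hE₂⟩ : ∃ E₂ : ℂ × ℂ, E₂ = qc A i F w - qc A i G z - T ν := ⟨_, rfl⟩
  have hE₂n : ‖E₂‖ ≤ A.C ^ 5 * K₂ * ε * t := by
    have h1 := A.trans k i _ _ gx gxi gy gyi
    have h2 : ‖E₂‖ ≤ A.C * ‖ν‖ ^ 2 := by
      rw [hE₂, hνd, hT]
      exact h1
    have h3 : ‖ν‖ ^ 2 ≤ (A.C ^ 2 * t) ^ 2 := pow_le_pow_left₀ (norm_nonneg _) hν' 2
    have h4 : t ^ 2 ≤ K₂ * ε * t := by nlinarith
    calc ‖E₂‖ ≤ A.C * ‖ν‖ ^ 2 := h2
      _ ≤ A.C * (A.C ^ 2 * t) ^ 2 := mul_le_mul_of_nonneg_left h3 (by linarith)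
      _ = A.C ^ 5 * t ^ 2 := by ring
      _ ≤ A.C ^ 5 * (K₂ * ε * t) := mul_le_mul_of_nonneg_left h4 (by positivity)
      _ = A.C ^ 5 * K₂ * ε * t := by ring
  have hchain : deriv (qc A i G) z = T g' := by
    rw [hT, hg']
    exact CDet_chain hX hG.1 hG.2.1 gx gxi
  have hTg : ‖T g'‖ ≤ K₀ := by
    rw [← hchain]
    exact h.lc.der_le G hG i z gxi
  obtain ⟨j, hj⟩ : ∃ j : ℂ, j = jac (fun p => (A.χ i).q ((A.χ k).σ p)) (qc A k G z) := ⟨_, rfl⟩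
  have hjT : det2 (T ν) (T g') = j * det2 ν g' := by
    rw [CDet_map, hj, hT]
    rfl
  have hjC : 1 ≤ A.C * ‖j‖ := by
    rw [hj]
    exact A.jac_ge k i _ gx gxi
  -- (d)
  rw [hchain, ← hj]
  have hd3 : det2 (qc A i F w - qc A i G z) (T g') - j * Dm A F G k ψ z =
      j * (det2 ν g' - Dm A F G k ψ z) + det2 E₂ (T g') := by
    have h1 : det2 (qc A i F w - qc A i G z) (T g') = det2 (T ν) (T g') + det2 E₂ (T g') := by
      rw [hE₂]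
      unfold det2
      simp only [Prod.fst_sub, Prod.snd_sub]
      ring
    rw [h1, hjT]
    ring
  rw [hd3]
  obtain ⟨D, hDd⟩ : ∃ D : ℝ, D = ‖Dm A F G k ψ z‖ := ⟨_, rfl⟩
  rw [← hDd] at ht2 ⊢
  have hD0 : 0 ≤ D := by rw [hDd]; exact norm_nonneg _
  have hj0 : 0 ≤ ‖j‖ := norm_nonneg _
  have hes : 0 ≤ ε / s := by positivity
  have f1 : ‖j * (det2 ν g' - Dm A F G k ψ z)‖ ≤
      ‖j‖ * ((K * A.C ^ 2 * K₂ * (ε / s) + 2 * K₀ ^ 2 * K ^ 2 * A.C ^ 4 * K₂ * ε) * (K₂ * D)) := by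
    rw [norm_mul]
    refine mul_le_mul_of_nonneg_left (hb2.trans (mul_le_mul_of_nonneg_left ht2 (by positivity))) hj0
  have f2 : ‖det2 E₂ (T g')‖ ≤ 2 * (A.C ^ 5 * K₂ * ε * (K₂ * D) * K₀) := by
    refine (CDet_norm _ _).trans (mul_le_mul_of_nonneg_left ?_ (by norm_num))
    refine mul_le_mul (hE₂n.trans (mul_le_mul_of_nonneg_left ht2 (by positivity))) hTg (norm_nonneg _) (by positivity)
  have f3 : 2 * (A.C ^ 5 * K₂ * ε * (K₂ * D) * K₀) ≤ (A.C * ‖j‖) * (2 * (A.C ^ 5 * K₂ * ε * (K₂ * D) * K₀)) :=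
    le_mul_of_one_le_left (by positivity) hjC
  calc ‖j * (det2 ν g' - Dm A F G k ψ z) + det2 E₂ (T g')‖
      ≤ ‖j * (det2 ν g' - Dm A F G k ψ z)‖ + ‖det2 E₂ (T g')‖ := norm_add_le _ _
    _ ≤ ‖j‖ * ((K * A.C ^ 2 * K₂ * (ε / s) + 2 * K₀ ^ 2 * K ^ 2 * A.C ^ 4 * K₂ * ε) * (K₂ * D)) +
        (A.C * ‖j‖) * (2 * (A.C ^ 5 * K₂ * ε * (K₂ * D) * K₀)) := add_le_add f1 (f2.trans f3)
    _ = (K * A.C ^ 2 * K₂ ^ 2 * (ε / s) + (2 * K₀ ^ 2 * K ^ 2 * A.C ^ 4 * K₂ ^ 2 + 2 * K₀ * A.C ^ 6 * K₂ ^ 2) * ε) *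
        (‖j‖ * D) := by ring

theorem MC.det_comp (hX : IsCone X) (h : MC A c L r₀ c₁ K₀ r₂ r₃ ε₃ K) {s η : ℝ} (hs : 0 < s) (hs₃ : s ≤ r₃) (hη : 0 < η) :
    ∃ ε : ℝ, 0 < ε ∧ ε ≤ ε₃ ∧ ∀ F ∈ BC X c L, ∀ G ∈ BC X c L, ∀ z₀ φ, FolAt evp r₂ s ε F G z₀ φ → ∀ e ψ,
      Match A r₂ r₃ K F G (A.idx (pr (F (φ z₀)))) (φ z₀) z₀ e ψ → ∀ z ∈ closedBall z₀ (s / 2), ∀ w ∈ closedBall (φ z) r₂,
      (∀ w' ∈ closedBall (φ z) r₂, dist (pr (G z)) (pr (F w)) ≤ dist (pr (G z)) (pr (F w'))) → ∀ i k J D,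
      i = A.idx (pr (G z)) → k = A.idx (pr (F (φ z₀))) → J = ‖jac (fun p => (A.χ i).q ((A.χ k).σ p)) (qc A k G z)‖ → D = ‖Dm A F G k ψ z‖ →
        Real.exp (-η) * (J * D) ≤ ‖det2 (qc A i F w - qc A i G z) (deriv (qc A i G) z)‖ ∧
          ‖det2 (qc A i F w - qc A i G z) (deriv (qc A i G) z)‖ ≤ Real.exp η * (J * D) := by
  obtain ⟨K₂, hK₂, hbd⟩ := h.exists_dmBound
  have hC : 1 ≤ A.C := A.one_le
  have hK₀ : 1 ≤ K₀ := h.lc.one_le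
  have hK : 1 ≤ K := hK₀.trans h.le_K
  have hτ : 0 < 1 - Real.exp (-η) := by
    have h1 : Real.exp (-η) < Real.exp 0 := Real.exp_lt_exp.2 (by linarith)
    rw [Real.exp_zero] at h1
    linarith
  obtain ⟨M₁, hM₁⟩ : ∃ M₁ : ℝ, M₁ = K * A.C ^ 2 * K₂ ^ 2 := ⟨_, rfl⟩
  obtain ⟨M₂, hM₂⟩ : ∃ M₂ : ℝ, M₂ = 2 * K₀ ^ 2 * K ^ 2 * A.C ^ 4 * K₂ ^ 2 + 2 * K₀ * A.C ^ 6 * K₂ ^ 2 := ⟨_, rfl⟩
  have hM₁0 : 0 < M₁ := by rw [hM₁]; positivity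
  have hM₂0 : 0 < M₂ := by rw [hM₂]; positivity
  have hM : 0 < M₁ / s + M₂ := by positivity
  have hr₂ := h.r₂_pos
  have hδ := A.δ_pos
  obtain ⟨ε, hε⟩ : ∃ ε : ℝ, ε = min (min ε₃ (s / K₂)) (min (min (r₂ / (K * A.C)) (A.δ / (A.C * K₂))) ((1 - Real.exp (-η)) / (M₁ / s + M₂))) :=
    ⟨_, rfl⟩
  have e0 : 0 < ε := by
    rw [hε]
    refine lt_min (lt_min h.ε₃_pos (by positivity)) (lt_min (lt_min (by positivity) (by positivity)) (div_pos hτ hM))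
  have e1 : ε ≤ ε₃ := by rw [hε]; exact (min_le_left _ _).trans (min_le_left _ _)
  have e2 : ε ≤ s / K₂ := by rw [hε]; exact (min_le_left _ _).trans (min_le_right _ _)
  have e3 : ε ≤ r₂ / (K * A.C) := by rw [hε]; exact (min_le_right _ _).trans ((min_le_left _ _).trans (min_le_left _ _))
  have e4 : ε ≤ A.δ / (A.C * K₂) := by rw [hε]; exact (min_le_right _ _).trans ((min_le_left _ _).trans (min_le_right _ _))
  have e5 : ε ≤ (1 - Real.exp (-η)) / (M₁ / s + M₂) := by rw [hε]; exact (min_le_right _ _).trans (min_le_right _ _)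
  have e2' : K₂ * (ε / s) ≤ 1 := by
    rw [le_div_iff₀ (by linarith)] at e2
    rw [← mul_div_assoc, div_le_one hs]
    linarith
  have e3' : K * (A.C * ε) ≤ r₂ := by
    rw [le_div_iff₀ (by positivity)] at e3
    linarith
  have e4' : A.C * (K₂ * ε) ≤ A.δ := by
    rw [le_div_iff₀ (by positivity)] at e4
    linarith
  have e5' : M₁ * (ε / s) + M₂ * ε ≤ 1 - Real.exp (-η) := by
    rw [le_div_iff₀ hM] at e5
    have : M₁ * (ε / s) + M₂ * ε = ε * (M₁ / s + M₂) := by ring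
    linarith
  refine ⟨ε, e0, e1, ?_⟩
  intro F hF G hG z₀ φ hfol e ψ hm z hz w hw hmin i k J D hi hk hJ hD
  rw [← hk] at hm
  have hbd' : DmBound A F G k z₀ ψ s ε K₂ := by
    refine hbd F hF G hG k (φ z₀) z₀ e ψ hm s ε hs hs₃ e0.le ?_
    intro z' hz'
    obtain ⟨h1, h2⟩ := hfol z' hz'
    refine ⟨φ z', ?_, h1⟩
    rw [mem_closedBall, dist_eq_norm]
    linarith
  have hmain := CDet_main hX h hK₂ hs hs₃ e0 e2' e3' e4' hF hG hfol hk hm hbd' hz hw hmin hi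
  rw [← hM₁, ← hM₂, ← hJ, ← hD] at hmain
  have hJ0 : 0 ≤ J := by rw [hJ]; exact norm_nonneg _
  have hD0 : 0 ≤ D := by rw [hD]; exact norm_nonneg _
  refine CDet_num (mul_nonneg hJ0 hD0) ?_ e5'
  refine le_trans ?_ hmain
  have h1 := abs_norm_sub_norm_le (det2 (qc A i F w - qc A i G z) (deriv (qc A i G) z))
    (jac (fun p => (A.χ i).q ((A.χ k).σ p)) (qc A k G z) * Dm A F G k ψ z)
  rw [norm_mul, ← hJ, ← hD] at h1
  exact h1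

end Pool.Agent.H5.BD
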