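import Pool.Agent.H5.BD.CDef

/-!
# BD CDm: the functions `d = qc A i F (ψ z) - qc A i G z` and `Dm`

Let `h : MC ...` with constants `c₁`, `K ≥ K₀ ≥ 1`, `C = A.C`, and `K₂ = 100 C K³ (1 + 1 / c₁)` or a similar constant.
(1) Let `w ∈ closedBall w₀ (2 r₂)` with `dist (pr (G z)) (pr (F w)) ≤ ε`; `‖qc A i F w - qc A i G z‖ ≤ C ε` (`le_dist`, `goodF`, `goodG`), by `near` `‖w - ψ z‖ ≤ K C ε`, and
`‖qc A i F w - qc A i F (ψ z)‖ ≤ K ‖w - ψ z‖` (mean value inequality on the convex set `closedBall w₀ (2 r₂)`, `der_le` for the good points).  So `‖d z‖ ≤ (1 + K²) C ε`.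
(2) `d` is holomorphic on `ball z₀ (2 r₃)`.  For `z ∈ closedBall z₀ (s / 2)` Cauchy's estimate on `ball z (s / 2) ⊆ closedBall z₀ s` gives `‖d' z‖ ≤ 2 (1 + K²) C ε / s`.  `d' = ψ' • p_F' (ψ) - p_G'` with
`p_F' = deriv (qc A i F)`, `p_G' = deriv (qc A i G)` (chain rule).  `det2` is bilinear and alternating, so `det2 (p_F' (ψ z)) (p_G' z) = - det2 (p_F' (ψ z)) (d' z)`, of norm `≤ 2 K ‖d' z‖`.
(3) `co e (d z) = 0` on `ball z₀ (2 r₃)`, so `co e (d' z) = 0`, `co e (p_G' z) = ψ' z * co e (p_F' (ψ z))`, and (both cases of `e`) `‖Dm z‖ = ‖d z‖ ‖co e (p_G' z)‖`.  By `coF`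
`‖co e (p_G' z)‖ ≥ ‖ψ' z‖ / K`, and `c₁ ≤ ‖p_G' z‖ ≤ ‖ψ' z‖ K + ‖d' z‖`; if `‖d' z‖ ≤ c₁ / 2` then `‖ψ' z‖ ≥ c₁ / (2 K)` and `‖d z‖ ≤ (2 K² / c₁) ‖Dm z‖`.
(4) `Dm` is holomorphic.
-/

set_option autoImplicit false

open Topology Filter Metric

namespace Pool.Agent.H5.BD

open Pool.Agent.H36.BP (EN fs wd)
open Pool.Agent.H14.PP (IsCone Chart Form Tan aCoef jac)
open Pool.Agent.H62.EF (MN pr det2 Charts)

variable {N : ℕ} {X : Set (EN N)} {A : Atlas X} {c L r₀ c₁ K₀ r₂ r₃ ε₃ K : ℝ}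

/-- bounds for `d` and `Dm` -/
structure DmBound (A : Atlas X) (F G : ℂ → EN N) (i : Fin A.n) (z₀ : ℂ) (ψ : ℂ → ℂ) (s ε K₂ : ℝ) : Prop where
  le : ∀ z ∈ closedBall z₀ s, ‖qc A i F (ψ z) - qc A i G z‖ ≤ K₂ * ε
  angle : ∀ z ∈ closedBall z₀ (s / 2), ‖det2 (deriv (qc A i F) (ψ z)) (deriv (qc A i G) z)‖ ≤ K₂ * (ε / s)
  lower : K₂ * (ε / s) ≤ 1 → ∀ z ∈ closedBall z₀ (s / 2), ‖qc A i F (ψ z) - qc A i G z‖ ≤ K₂ * ‖Dm A F G i ψ z‖

private theorem CDm_co_fst_snd (e : Bool) (p q : ℂ × ℂ) : co e (p - q) = co e p - co e q := by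
  cases e <;> simp [co]

private theorem CDm_co_norm (e : Bool) (p : ℂ × ℂ) : ‖co e p‖ ≤ ‖p‖ := by
  cases e
  · simpa [co] using norm_snd_le p
  · simpa [co] using norm_fst_le p

private theorem CDm_det2_norm (a b : ℂ × ℂ) : ‖det2 a b‖ ≤ 2 * ‖a‖ * ‖b‖ := by
  unfold det2
  have h1 : ‖a.1 * b.2‖ ≤ ‖a‖ * ‖b‖ := by
    rw [norm_mul]
    exact mul_le_mul (norm_fst_le a) (norm_snd_le b) (norm_nonneg _) (norm_nonneg _)
  have h2 : ‖a.2 * b.1‖ ≤ ‖a‖ * ‖b‖ := by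
    rw [norm_mul]
    exact mul_le_mul (norm_snd_le a) (norm_fst_le b) (norm_nonneg _) (norm_nonneg _)
  calc ‖a.1 * b.2 - a.2 * b.1‖ ≤ ‖a.1 * b.2‖ + ‖a.2 * b.1‖ := norm_sub_le _ _
    _ ≤ 2 * ‖a‖ * ‖b‖ := by nlinarith

private theorem CDm_det2_co (e : Bool) (d b : ℂ × ℂ) (h : co e d = 0) : ‖det2 d b‖ = ‖d‖ * ‖co e b‖ := by
  cases e
  · have h2 : d.2 = 0 := by simpa [co] using h
    have h3 : ‖d‖ = ‖d.1‖ := by
      rw [Prod.norm_def, h2, norm_zero]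
      exact max_eq_left (norm_nonneg _)
    have h4 : co false b = b.2 := by simp [co]
    unfold det2
    rw [h3, h4, h2, zero_mul, sub_zero, norm_mul]
  · have h2 : d.1 = 0 := by simpa [co] using h
    have h3 : ‖d‖ = ‖d.2‖ := by
      rw [Prod.norm_def, h2, norm_zero]
      exact max_eq_right (norm_nonneg _)
    have h4 : co true b = b.1 := by simp [co]
    unfold det2
    rw [h3, h4, h2, zero_mul, zero_sub, norm_neg, norm_mul]

private theorem CDm_co_deriv (e : Bool) {f : ℂ → ℂ × ℂ} {v : ℂ × ℂ} {z : ℂ} (hf : HasDerivAt f v z) :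
    HasDerivAt (fun z => co e (f z)) (co e v) z := by
  cases e
  · have h1 := (hasFDerivAt_snd (𝕜 := ℂ) (E := ℂ) (F := ℂ) (p := f z)).comp_hasDerivAt z hf
    simpa [co, Function.comp_def] using h1
  · have h1 := (hasFDerivAt_fst (𝕜 := ℂ) (E := ℂ) (F := ℂ) (p := f z)).comp_hasDerivAt z hf
    simpa [co, Function.comp_def] using h1

private theorem CDm_hasDeriv (h : MC A c L r₀ c₁ K₀ r₂ r₃ ε₃ K) {F G : ℂ → EN N} (hF : F ∈ BC X c L) (hG : G ∈ BC X c L)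
    {i : Fin A.n} {w₀ z₀ : ℂ} {e : Bool} {ψ : ℂ → ℂ} (hm : Match A r₂ r₃ K F G i w₀ z₀ e ψ) {z : ℂ} (hz : z ∈ ball z₀ (2 * r₃)) :
    HasDerivAt (fun z => qc A i F (ψ z) - qc A i G z) (deriv ψ z • deriv (qc A i F) (ψ z) - deriv (qc A i G) z) z := by
  have h1 : HasDerivAt ψ (deriv ψ z) z := ((hm.hol z hz).differentiableAt (isOpen_ball.mem_nhds hz)).hasDerivAt
  have hψ : ψ z ∈ closedBall w₀ (2 * r₂) := by
    have := hm.mem z hz
    rw [mem_closedBall] at this ⊢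
    have h2 := h.r₂_pos
    linarith
  have h2 : HasDerivAt (qc A i F) (deriv (qc A i F) (ψ z)) (ψ z) :=
    (h.lc.an F hF i _ (hm.goodF _ hψ)).differentiableAt.hasDerivAt
  have h3 : HasDerivAt (qc A i G) (deriv (qc A i G) z) z :=
    (h.lc.an G hG i _ (hm.goodG _ hz)).differentiableAt.hasDerivAt
  have h4 : HasDerivAt (fun z => qc A i F (ψ z)) (deriv ψ z • deriv (qc A i F) (ψ z)) z := h2.scomp z h1
  exact h4.sub h3

theorem MC.d_hol (h : MC A c L r₀ c₁ K₀ r₂ r₃ ε₃ K) {F G : ℂ → EN N} (hF : F ∈ BC X c L) (hG : G ∈ BC X c L) {i : Fin A.n} {w₀ z₀ : ℂ}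
    {e : Bool} {ψ : ℂ → ℂ} (hm : Match A r₂ r₃ K F G i w₀ z₀ e ψ) :
    DifferentiableOn ℂ (fun z => qc A i F (ψ z) - qc A i G z) (ball z₀ (2 * r₃)) := by
  intro z hz
  exact (CDm_hasDeriv h hF hG hm hz).differentiableAt.differentiableWithinAt

theorem MC.Dm_hol (h : MC A c L r₀ c₁ K₀ r₂ r₃ ε₃ K) {F G : ℂ → EN N} (hF : F ∈ BC X c L) (hG : G ∈ BC X c L) {i : Fin A.n} {w₀ z₀ : ℂ}
    {e : Bool} {ψ : ℂ → ℂ} (hm : Match A r₂ r₃ K F G i w₀ z₀ e ψ) : DifferentiableOn ℂ (Dm A F G i ψ) (ball z₀ (2 * r₃)) := by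
  intro z hz
  have h1 : DifferentiableAt ℂ (fun z => qc A i F (ψ z) - qc A i G z) z := (CDm_hasDeriv h hF hG hm hz).differentiableAt
  have h2 : DifferentiableAt ℂ (deriv (qc A i G)) z := (h.lc.an G hG i _ (hm.goodG _ hz)).deriv.differentiableAt
  have h3 : DifferentiableAt ℂ (Dm A F G i ψ) z := by
    have h4 : DifferentiableAt ℂ (fun z => ((qc A i F (ψ z) - qc A i G z).1 * (deriv (qc A i G) z).2 -
        (qc A i F (ψ z) - qc A i G z).2 * (deriv (qc A i G) z).1)) z :=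
      (h1.fst.mul h2.snd).sub (h1.snd.mul h2.fst)
    exact h4
  exact h3.differentiableWithinAt

theorem MC.exists_dmBound (h : MC A c L r₀ c₁ K₀ r₂ r₃ ε₃ K) : ∃ K₂ : ℝ, 1 ≤ K₂ ∧ ∀ F ∈ BC X c L, ∀ G ∈ BC X c L, ∀ i w₀ z₀ e ψ,
    Match A r₂ r₃ K F G i w₀ z₀ e ψ → ∀ s ε : ℝ, 0 < s → s ≤ r₃ → 0 ≤ ε →
      (∀ z ∈ closedBall z₀ s, ∃ w ∈ closedBall w₀ (2 * r₂), dist (pr (G z)) (pr (F w)) ≤ ε) → DmBound A F G i z₀ ψ s ε K₂ := by
  have hK₀ : 1 ≤ K₀ := h.lc.one_le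
  have hK : 1 ≤ K := hK₀.trans h.le_K
  have hC : 1 ≤ A.C := A.one_le
  have hc₁ : 0 < c₁ := h.lc.c₁_pos
  have hr₂ : 0 < r₂ := h.r₂_pos
  have hr₃ : 0 < r₃ := h.r₃_pos
  set M : ℝ := (1 + K ^ 2) * A.C with hMdef
  have hM1 : 1 ≤ M := by rw [hMdef]; nlinarith [sq_nonneg K]
  have hM0 : 0 < M := by linarith
  have p1 : 0 ≤ 4 * K * M := by positivity
  have p2 : 0 ≤ 4 * M / c₁ := by positivity
  have p3 : 0 ≤ 2 * K ^ 2 / c₁ := by positivity
  refine ⟨M + 4 * K * M + 4 * M / c₁ + 2 * K ^ 2 / c₁, by linarith, ?_⟩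
  intro F hF G hG i w₀ z₀ e ψ hm s ε hs hsr hε hw
  have hsub : closedBall z₀ s ⊆ ball z₀ (2 * r₃) := closedBall_subset_ball (by linarith)
  -- (1)
  have hd : ∀ z ∈ closedBall z₀ s, ‖qc A i F (ψ z) - qc A i G z‖ ≤ M * ε := by
    intro z hz
    obtain ⟨w, hwm, hwd⟩ := hw z hz
    have hzb := hsub hz
    have e1 : ‖qc A i F w - qc A i G z‖ ≤ A.C * ε := by
      have := A.le_dist i (F w) (G z) (hm.goodF w hwm) (hm.goodG z hzb)
      rw [dist_comm] at this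
      exact this.trans (mul_le_mul_of_nonneg_left hwd (by linarith))
    have e2 : ‖w - ψ z‖ ≤ K * (A.C * ε) :=
      (hm.near z hzb w hwm).trans (mul_le_mul_of_nonneg_left e1 (by linarith))
    have hψ : ψ z ∈ closedBall w₀ (2 * r₂) := closedBall_subset_closedBall (by linarith) (hm.mem z hzb)
    have e3 : ‖qc A i F (ψ z) - qc A i F w‖ ≤ K * ‖ψ z - w‖ := by
      refine Convex.norm_image_sub_le_of_norm_deriv_le (𝕜 := ℂ) (s := closedBall w₀ (2 * r₂)) ?_ ?_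
        (convex_closedBall _ _) hwm hψ
      · intro x hx
        exact (h.lc.an F hF i x (hm.goodF x hx)).differentiableAt
      · intro x hx
        exact (h.lc.der_le F hF i x (hm.goodF x hx)).trans h.le_K
    have e4 : ‖ψ z - w‖ ≤ K * (A.C * ε) := by rw [norm_sub_rev]; exact e2
    have e5 : qc A i F (ψ z) - qc A i G z = (qc A i F (ψ z) - qc A i F w) + (qc A i F w - qc A i G z) := by abel
    rw [e5]
    refine (norm_add_le _ _).trans ?_
    have e6 : K * ‖ψ z - w‖ ≤ K * (K * (A.C * ε)) := mul_le_mul_of_nonneg_left e4 (by linarith)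
    have e7 : K * (K * (A.C * ε)) + A.C * ε = M * ε := by rw [hMdef]; ring
    linarith
  -- (2)
  have hd' : ∀ z ∈ closedBall z₀ (s / 2), ‖deriv ψ z • deriv (qc A i F) (ψ z) - deriv (qc A i G) z‖ ≤ 2 * M * (ε / s) := by
    intro z hz
    have hzs : closedBall z (s / 2) ⊆ closedBall z₀ s := by
      apply closedBall_subset_closedBall'
      rw [mem_closedBall] at hz
      linarith
    have hzb : z ∈ ball z₀ (2 * r₃) := hsub (hzs (mem_closedBall_self (by linarith)))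
    have h1 := (CDm_hasDeriv h hF hG hm hzb).deriv
    rw [← h1]
    have h2 : DifferentiableOn ℂ (fun z => qc A i F (ψ z) - qc A i G z) (closedBall z (s / 2)) :=
      (h.d_hol hF hG hm).mono (hzs.trans hsub)
    have h3 : DiffContOnCl ℂ (fun z => qc A i F (ψ z) - qc A i G z) (ball z (s / 2)) :=
      h2.diffContOnCl_ball subset_rfl
    have h4 := Complex.norm_deriv_le_of_forall_mem_sphere_norm_le (by linarith : 0 < s / 2) h3
      (fun u hu => hd u (hzs (sphere_subset_closedBall hu)))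
    refine h4.trans (le_of_eq ?_)
    field_simp
  have hψm : ∀ z ∈ closedBall z₀ (s / 2), z ∈ ball z₀ (2 * r₃) ∧ ψ z ∈ closedBall w₀ (2 * r₂) := by
    intro z hz
    have hzb : z ∈ ball z₀ (2 * r₃) := hsub (closedBall_subset_closedBall (by linarith) hz)
    exact ⟨hzb, closedBall_subset_closedBall (by linarith) (hm.mem z hzb)⟩
  have hεs : 0 ≤ ε / s := by positivity
  refine ⟨?_, ?_, ?_⟩
  · intro z hz
    refine (hd z hz).trans ?_
    apply mul_le_mul_of_nonneg_right _ hε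
    linarith
  · intro z hz
    obtain ⟨hzb, hψ⟩ := hψm z hz
    have a1 := hd' z hz
    set a := deriv (qc A i F) (ψ z) with ha
    set b := deriv (qc A i G) z with hb
    set d' := deriv ψ z • a - b with hd'def
    have a2 : det2 a b = - det2 a d' := by
      have : b = deriv ψ z • a - d' := by rw [hd'def]; abel
      rw [hd'def]
      simp only [det2, Prod.fst_sub, Prod.snd_sub, Prod.smul_fst, Prod.smul_snd, smul_eq_mul]
      ring
    rw [a2, norm_neg]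
    have a3 : ‖a‖ ≤ K := (h.lc.der_le F hF i _ (hm.goodF _ hψ)).trans h.le_K
    calc ‖det2 a d'‖ ≤ 2 * ‖a‖ * ‖d'‖ := CDm_det2_norm a d'
      _ ≤ 2 * K * (2 * M * (ε / s)) := by
          apply mul_le_mul _ a1 (norm_nonneg _) (by positivity)
          linarith
      _ = 4 * K * M * (ε / s) := by ring
      _ ≤ (M + 4 * K * M + 4 * M / c₁ + 2 * K ^ 2 / c₁) * (ε / s) := by
          apply mul_le_mul_of_nonneg_right _ hεs
          linarith
  · intro hsmall z hz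
    obtain ⟨hzb, hψ⟩ := hψm z hz
    have a1 := hd' z hz
    have hco0 : co e (qc A i F (ψ z) - qc A i G z) = 0 := by
      rw [CDm_co_fst_snd, hm.eq z hzb, sub_self]
    have hcod : co e (deriv ψ z • deriv (qc A i F) (ψ z) - deriv (qc A i G) z) = 0 := by
      have h1 := CDm_co_deriv e (CDm_hasDeriv h hF hG hm hzb)
      have h2 : HasDerivAt (fun z => co e (qc A i F (ψ z) - qc A i G z)) 0 z := by
        apply (hasDerivAt_const z (0 : ℂ)).congr_of_eventuallyEq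
        filter_upwards [isOpen_ball.mem_nhds hzb] with u hu
        rw [CDm_co_fst_snd, hm.eq u hu, sub_self]
      exact h1.unique h2
    set a := deriv (qc A i F) (ψ z) with ha
    set b := deriv (qc A i G) z with hb
    have a3 : ‖a‖ ≤ K := (h.lc.der_le F hF i _ (hm.goodF _ hψ)).trans h.le_K
    have a4 : c₁ ≤ ‖b‖ := h.lc.der_ge G hG i _ (hm.goodG _ hzb)
    have a5 : 1 ≤ K * ‖co e a‖ := hm.coF _ hψ
    have a6 : co e b = deriv ψ z * co e a := by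
      have : co e (deriv ψ z • a) = deriv ψ z * co e a := by cases e <;> simp [co]
      rw [CDm_co_fst_snd, this] at hcod
      exact (sub_eq_zero.1 hcod).symm
    have a7 : ‖deriv ψ z • a - b‖ ≤ c₁ / 2 := by
      refine a1.trans ?_
      have h1 : 4 * M / c₁ * (ε / s) ≤ 1 := by
        refine le_trans ?_ hsmall
        apply mul_le_mul_of_nonneg_right _ hεs
        linarith
      have h2 : 2 * M * (ε / s) = (c₁ / 2) * (4 * M / c₁ * (ε / s)) := by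
        field_simp
        ring
      rw [h2]
      have := mul_le_mul_of_nonneg_left h1 (by positivity : 0 ≤ c₁ / 2)
      linarith
    have a8 : c₁ / 2 ≤ K * ‖deriv ψ z‖ := by
      have h1 : b = deriv ψ z • a - (deriv ψ z • a - b) := by abel
      have h2 : ‖b‖ ≤ ‖deriv ψ z • a‖ + ‖deriv ψ z • a - b‖ := by
        calc ‖b‖ = ‖deriv ψ z • a - (deriv ψ z • a - b)‖ := by rw [← h1]
          _ ≤ _ := norm_sub_le _ _
      rw [norm_smul] at h2
      have h3 : ‖deriv ψ z‖ * ‖a‖ ≤ ‖deriv ψ z‖ * K := mul_le_mul_of_nonneg_left a3 (norm_nonneg _)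
      nlinarith
    have a9 : c₁ / 2 ≤ K ^ 2 * ‖co e b‖ := by
      rw [a6, norm_mul]
      have h1 : ‖deriv ψ z‖ * 1 ≤ ‖deriv ψ z‖ * (K * ‖co e a‖) := mul_le_mul_of_nonneg_left a5 (norm_nonneg _)
      have h2 : K * (‖deriv ψ z‖ * 1) ≤ K * (‖deriv ψ z‖ * (K * ‖co e a‖)) := mul_le_mul_of_nonneg_left h1 (by linarith)
      calc c₁ / 2 ≤ K * ‖deriv ψ z‖ := a8
        _ = K * (‖deriv ψ z‖ * 1) := by ring
        _ ≤ K * (‖deriv ψ z‖ * (K * ‖co e a‖)) := h2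
        _ = K ^ 2 * (‖deriv ψ z‖ * ‖co e a‖) := by ring
    have a10 : ‖Dm A F G i ψ z‖ = ‖qc A i F (ψ z) - qc A i G z‖ * ‖co e b‖ := by
      unfold Dm
      exact CDm_det2_co e _ _ hco0
    have a11 : ‖qc A i F (ψ z) - qc A i G z‖ ≤ 2 * K ^ 2 / c₁ * ‖Dm A F G i ψ z‖ := by
      rw [a10]
      have h1 : ‖qc A i F (ψ z) - qc A i G z‖ * (c₁ / 2) ≤ ‖qc A i F (ψ z) - qc A i G z‖ * (K ^ 2 * ‖co e b‖) :=
        mul_le_mul_of_nonneg_left a9 (norm_nonneg _)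
      have h2 : 2 * K ^ 2 / c₁ * (‖qc A i F (ψ z) - qc A i G z‖ * ‖co e b‖) =
          (2 / c₁) * (‖qc A i F (ψ z) - qc A i G z‖ * (K ^ 2 * ‖co e b‖)) := by ring
      rw [h2]
      have h3 : ‖qc A i F (ψ z) - qc A i G z‖ = (2 / c₁) * (‖qc A i F (ψ z) - qc A i G z‖ * (c₁ / 2)) := by
        field_simp
      calc ‖qc A i F (ψ z) - qc A i G z‖ = (2 / c₁) * (‖qc A i F (ψ z) - qc A i G z‖ * (c₁ / 2)) := h3
        _ ≤ _ := mul_le_mul_of_nonneg_left h1 (by positivity)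
    refine a11.trans ?_
    apply mul_le_mul_of_nonneg_right _ (norm_nonneg _)
    linarith

end Pool.Agent.H5.BD
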