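import Pool.Agent.H5.BD.CDef
import Pool.Agent.H14.PP.ChartFs

/-!
# BD CLoc: uniform bounds for the curves in the charts

`lip`: `pr_lipschitz` (`U = univ`).
Let `C₁ ≥ 1` be larger than the constants of `Chart.exists_fs_bound` (`H14/PP/ChartFs.lean`) for the charts of the atlas.  `r₀ = A.δ / (4 L + 1)`, `c₁ = c / C₁`, `K = max (max 1 (C₁ L)) (4 (C₁ L + 1) / r₀)`.
`good`: `dist (pr x) (pr (F w)) ≤ A.δ / 2 + 2 L r₀ ≤ A.δ` and `A.good`.
`an`: `F w ∈ (A.χ i).U`, `q_an`, and `F` is analytic.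
`der_ge`, `der_le`: `F` is a `CurveAt` (`H14.PP.CurveAt X F w`), `Chart.curve`: `deriv (qc A i F) w = fderiv q (F w) (deriv F w)`; `exists_fs_bound`.
`der_lip`: `deriv (qc A i F)` is holomorphic on `ball w₀ r₀`, of norm `≤ K₁ = C₁ L` there, so (Cauchy's estimate on discs of radius `r₀ / 2 - t`, or `r₀ / 4`) its derivative is bounded by
`4 K₁ / r₀` on `ball w₀ (r₀ / 2)`; mean value inequality on the convex set `ball w₀ (r₀ / 2)`.
-/

set_option autoImplicit false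

open Topology Filter Metric

namespace Pool.Agent.H5.BD

open Pool.Agent.H36.BP (EN fs wd)
open Pool.Agent.H14.PP (IsCone Chart Form Tan aCoef jac)
open Pool.Agent.H62.EF (MN pr det2 Charts)

variable {N : ℕ} {X : Set (EN N)}

theorem exists_LC (hX : IsCone X) (A : Atlas X) {c L : ℝ} (hc : 0 < c) (hL : 0 < L) : ∃ r₀ c₁ K : ℝ, LC A c L r₀ c₁ K := by
  have hex : ∀ i : Fin A.n, ∃ C : ℝ, 1 ≤ C ∧
      (∀ x ∈ X, x ∈ (A.χ i).U → ‖(A.χ i).q x‖ ≤ 1 → ∀ v, ‖fderiv ℂ (A.χ i).q x v‖ ≤ C * fs x v) ∧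
      ∀ (F : ℂ → EN N) (z₀ : ℂ), Pool.Agent.H14.PP.CurveAt X F z₀ → F z₀ ∈ (A.χ i).U → ‖(A.χ i).q (F z₀)‖ ≤ 1 →
        fs (F z₀) (deriv F z₀) ≤ C * ‖deriv (fun z => (A.χ i).q (F z)) z₀‖ := fun i =>
    Pool.Agent.H14.PP.Chart.exists_fs_bound hX (A.χ i)
  choose f hf1 hf2 hf3 using hex
  obtain ⟨C₁, hC₁, hfC⟩ : ∃ C₁ : ℝ, 1 ≤ C₁ ∧ ∀ i, f i ≤ C₁ := by
    refine ⟨1 + ∑ i, f i, ?_, fun i => ?_⟩
    · have h0 : 0 ≤ ∑ i, f i := Finset.sum_nonneg fun i _ => zero_le_one.trans (hf1 i)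
      linarith
    · have h0 : f i ≤ ∑ i, f i :=
        Finset.single_le_sum (f := f) (fun j _ => zero_le_one.trans (hf1 j)) (Finset.mem_univ i)
      linarith
  have hC₁0 : 0 < C₁ := by linarith
  have hδ := A.δ_pos
  have hlip : ∀ F ∈ BC X c L, ∀ z w, dist (pr (F z)) (pr (F w)) ≤ 2 * L * ‖z - w‖ := by
    intro F hF z w
    exact Pool.Agent.H62.EF.pr_lipschitz isOpen_univ convex_univ hF.1.differentiableOn
      (fun y _ => hX.ne_zero (hF.2.1 y)) (fun y _ => (hF.2.2 y).2) z (Set.mem_univ z) w (Set.mem_univ w)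
  have hcurve : ∀ F ∈ BC X c L, ∀ z, Pool.Agent.H14.PP.CurveAt X F z := by
    intro F hF z
    exact ⟨hF.1.analyticAt z, Filter.Eventually.of_forall fun y => hF.2.1 y⟩
  have han : ∀ F ∈ BC X c L, ∀ i w, Good (A.χ i) (F w) → AnalyticAt ℂ (qc A i F) w := by
    intro F hF i w hg
    exact (Pool.Agent.H14.PP.Chart.curve hX (A.χ i) (hcurve F hF w) hg.2.1).1
  have hle : ∀ F ∈ BC X c L, ∀ i w, Good (A.χ i) (F w) → ‖deriv (qc A i F) w‖ ≤ C₁ * L := by
    intro F hF i w hg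
    have h1 : deriv (qc A i F) w = fderiv ℂ (A.χ i).q (F w) (deriv F w) :=
      (Pool.Agent.H14.PP.Chart.curve hX (A.χ i) (hcurve F hF w) hg.2.1).2.1
    rw [h1]
    have h2 := hf2 i (F w) hg.1 hg.2.1 (hg.2.2.trans (by norm_num)) (deriv F w)
    have h3 : 0 ≤ fs (F w) (deriv F w) := hc.le.trans (hF.2.2 w).1
    calc ‖fderiv ℂ (A.χ i).q (F w) (deriv F w)‖ ≤ f i * fs (F w) (deriv F w) := h2
      _ ≤ C₁ * fs (F w) (deriv F w) := mul_le_mul_of_nonneg_right (hfC i) h3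
      _ ≤ C₁ * L := mul_le_mul_of_nonneg_left (hF.2.2 w).2 hC₁0.le
  obtain ⟨r₀, hr₀, hr₀e⟩ : ∃ r₀ : ℝ, 0 < r₀ ∧ 2 * L * r₀ ≤ A.δ / 2 := by
    refine ⟨A.δ / (4 * L + 1), by positivity, ?_⟩
    have h1 : 2 * L * (A.δ / (4 * L + 1)) = (2 * L * A.δ) / (4 * L + 1) := by ring
    rw [h1, div_le_div_iff₀ (by positivity) (by norm_num)]
    nlinarith
  have hK1 : (1 : ℝ) ≤ max (max 1 (C₁ * L)) (4 * (C₁ * L + 1) / r₀) := (le_max_left _ _).trans (le_max_left _ _)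
  have hK2 : C₁ * L ≤ max (max 1 (C₁ * L)) (4 * (C₁ * L + 1) / r₀) := (le_max_right _ _).trans (le_max_left _ _)
  have hK3 : 4 * (C₁ * L + 1) / r₀ ≤ max (max 1 (C₁ * L)) (4 * (C₁ * L + 1) / r₀) := le_max_right _ _
  refine ⟨r₀, c / C₁, max (max 1 (C₁ * L)) (4 * (C₁ * L + 1) / r₀), hr₀, by positivity, hK1, hL, hlip, ?_, han, ?_, ?_, ?_⟩
  · intro F hF x hx w₀ hd w hw
    refine A.good x hx (F w) (hF.2.1 w) ?_
    have h1 := hlip F hF w₀ w
    have h2 : ‖w₀ - w‖ ≤ r₀ := by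
      rw [mem_ball, dist_eq_norm] at hw
      rw [norm_sub_rev]
      exact hw.le
    calc dist (pr x) (pr (F w)) ≤ dist (pr x) (pr (F w₀)) + dist (pr (F w₀)) (pr (F w)) := dist_triangle _ _ _
      _ ≤ A.δ / 2 + 2 * L * r₀ := add_le_add hd (h1.trans (mul_le_mul_of_nonneg_left h2 (by positivity)))
      _ ≤ A.δ := by linarith
  · intro F hF i w hg
    have h1 := hf3 i F w (hcurve F hF w) hg.2.1 (hg.2.2.trans (by norm_num))
    rw [div_le_iff₀ hC₁0]
    calc c ≤ fs (F w) (deriv F w) := (hF.2.2 w).1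
      _ ≤ f i * ‖deriv (qc A i F) w‖ := h1
      _ ≤ C₁ * ‖deriv (qc A i F) w‖ := mul_le_mul_of_nonneg_right (hfC i) (norm_nonneg _)
      _ = ‖deriv (qc A i F) w‖ * C₁ := mul_comm _ _
  · intro F hF i w hg
    exact (hle F hF i w hg).trans hK2
  · intro F hF i w₀ hgood w hw w' hw'
    have hdiff : ∀ z ∈ ball w₀ r₀, DifferentiableAt ℂ (deriv (qc A i F)) z := fun z hz =>
      (han F hF i z (hgood z hz)).deriv.differentiableAt
    have hbd : ∀ z ∈ ball w₀ (r₀ / 2), ‖deriv (deriv (qc A i F)) z‖ ≤ 4 * (C₁ * L + 1) / r₀ := by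
      intro z hz
      have hsub : closedBall z (r₀ / 4) ⊆ ball w₀ r₀ := by
        intro y hy
        rw [mem_closedBall] at hy
        rw [mem_ball] at hz ⊢
        have := dist_triangle y z w₀
        linarith
      have h1 : ‖deriv (deriv (qc A i F)) z‖ ≤ (C₁ * L) / (r₀ / 4) := by
        refine Complex.norm_deriv_le_of_forall_mem_sphere_norm_le (by positivity) ?_ ?_
        · refine DifferentiableOn.diffContOnCl_ball (U := ball w₀ r₀) (fun y hy => (hdiff y hy).differentiableWithinAt) hsub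
        · intro y hy
          exact hle F hF i y (hgood y (hsub (sphere_subset_closedBall hy)))
      refine h1.trans ?_
      rw [div_div_eq_mul_div]
      refine div_le_div_of_nonneg_right ?_ hr₀.le
      linarith
    have h2 := Convex.norm_image_sub_le_of_norm_deriv_le (𝕜 := ℂ) (f := deriv (qc A i F)) (s := ball w₀ (r₀ / 2))
      (C := 4 * (C₁ * L + 1) / r₀)
      (fun z hz => hdiff z (ball_subset_ball (by linarith) hz)) hbd (convex_ball _ _) hw' hw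
    exact h2.trans (mul_le_mul_of_nonneg_right hK3 (norm_nonneg _))

end Pool.Agent.H5.BD
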