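import Pool.Agent.H5.BD.CDet
import Pool.Agent.H14.PP.FormTrans
import Mathlib.Topology.Order.Compact

/-!
# BD CRho: the function `rh`

`nearest_spec`: `w' ↦ dist y (pr (F w'))` is continuous on the compact set `closedBall w r₂` (`LC.lip`); `IsCompact.exists_isMinOn`.
`rh_bdd`: `B₁` bounds `‖aCoef Ω (A.χ i) p‖ * ‖(A.χ i).σ p‖` for all `i` and `‖p‖ ≤ 1 / 2` (compact, `aCoef_analytic` with `K = X`, `σ_an`).  Let `dist (pr (G z)) (pr (F w)) ≤ ε := A.δ`, `i = A.idx (pr (G z))`,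
`w' = nearest ..`; `dist (pr (G z)) (pr (F w')) ≤ dist (pr (G z)) (pr (F w)) ≤ A.δ`, so `G z` and `F w'` are good for `i` (`A.good`), so the difference of the coordinates has norm `≤ 1`, the derivative has
norm `≤ K` (`der_le`), the determinant is at most `2 K`: `rh ≤ B₁ (2 K)^m`.
`coef_trans`: `ACoef_trans` (`H14/PP/FormTrans.lean`) for `K = X`, `p = (A.χ k).q x`: `x = a • (A.χ k).σ p`, so `(A.χ i).q ((A.χ k).σ p) = (A.χ i).q x`; take the `m`-th power (`ACoef = ‖aCoef‖ ^ (1 / m) ‖σ‖ ^ (1 / m)`).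
`rh_cmp`: `det_comp` with `η / m`, `w = nearest r₂ F (φ z) (pr (G z))` (`nearest_spec`), `coef_trans` for `x = G z` (good for `k` by `goodG`, good for `i` by `A.good`):
`‖aCoef_k‖ ‖σ_k‖ D ^ m = ‖aCoef_i‖ ‖σ_i‖ (J D) ^ m`.
-/

set_option autoImplicit false

open Topology Filter Metric

namespace Pool.Agent.H5.BD

open Pool.Agent.H36.BP (EN fs wd)
open Pool.Agent.H14.PP (IsCone Chart Form Tan aCoef jac)
open Pool.Agent.H62.EF (MN pr det2 Charts)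

variable {N : ℕ} {X : Set (EN N)} {A : Atlas X} {c L r₀ c₁ K₀ r₂ r₃ ε₃ K : ℝ} {m : ℕ}

open Classical in
/-- the parameter of the point of the plaque of `F` at `w` which is nearest to `y` -/
noncomputable def nearest (r₂ : ℝ) (F : ℂ → EN N) (w : ℂ) (y : MN N) : ℂ :=
  if h : ∃ w' ∈ closedBall w r₂, ∀ w'' ∈ closedBall w r₂, dist y (pr (F w')) ≤ dist y (pr (F w'')) then h.choose else w

theorem MC.nearest_spec (h : MC A c L r₀ c₁ K₀ r₂ r₃ ε₃ K) {F : ℂ → EN N} (hF : F ∈ BC X c L) (w : ℂ) (y : MN N) :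
    nearest r₂ F w y ∈ closedBall w r₂ ∧ ∀ w' ∈ closedBall w r₂, dist y (pr (F (nearest r₂ F w y))) ≤ dist y (pr (F w')) := by
  have hcont : Continuous (fun z => pr (F z)) :=
    (LipschitzWith.of_dist_le_mul (K := (2 * L).toNNReal) fun z w => by
      rw [Real.coe_toNNReal _ (mul_nonneg zero_le_two h.lc.L_pos.le), dist_eq_norm z w]
      exact h.lc.lip F hF z w).continuous
  have hex : ∃ w' ∈ closedBall w r₂, ∀ w'' ∈ closedBall w r₂, dist y (pr (F w')) ≤ dist y (pr (F w'')) := by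
    obtain ⟨x, hx, hmin⟩ := (isCompact_closedBall w r₂).exists_isMinOn
      ⟨w, mem_closedBall_self h.r₂_pos.le⟩ (continuous_const.dist hcont).continuousOn
    exact ⟨x, hx, fun w'' hw'' => hmin hw''⟩
  have hn : nearest r₂ F w y = hex.choose := by
    unfold nearest
    rw [dif_pos hex]
  rw [hn]
  exact hex.choose_spec

/-- the norm of the form at `x`, in the chart `i` -/
noncomputable def cf (A : Atlas X) (Ω : Form X m 1) (i : Fin A.n) (x : EN N) : ℝ :=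
  ‖aCoef Ω (A.χ i) ((A.χ i).q x)‖ * ‖(A.χ i).σ ((A.χ i).q x)‖

/-- the distance of `G z` to the plaque of `F` at `w`, measured by the form `Ω` and `G' z` -/
noncomputable def rh (A : Atlas X) (Ω : Form X m 1) (r₂ : ℝ) (F : ℂ → EN N) (w : ℂ) (G : ℂ → EN N) (z : ℂ) : ℝ :=
  cf A Ω (A.idx (pr (G z))) (G z) *
    ‖det2 (qc A (A.idx (pr (G z))) F (nearest r₂ F w (pr (G z))) - qc A (A.idx (pr (G z))) G z) (deriv (qc A (A.idx (pr (G z))) G) z)‖ ^ m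

private theorem CRho_open (hX : IsCone X) : Pool.Agent.H14.PP.IsOpenPart X X :=
  ⟨subset_rfl, hX.smul_mem, fun _ _ => Eventually.of_forall fun _ hy => hy⟩

private theorem CRho_cf_nonneg (A : Atlas X) (Ω : Form X m 1) (i : Fin A.n) (x : EN N) : 0 ≤ cf A Ω i x :=
  mul_nonneg (norm_nonneg _) (norm_nonneg _)

private theorem CRho_sub {p : ℂ × ℂ} (hp : ‖p‖ ≤ 1 / 2) : p ∈ ball (0 : ℂ × ℂ) 2 := by
  rw [mem_ball_zero_iff]
  exact hp.trans_lt (by norm_num)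

private theorem CRho_cf_bdd (hX : IsCone X) (A : Atlas X) (Ω : Form X m 1) :
    ∃ B : ℝ, 0 ≤ B ∧ ∀ i x, Good (A.χ i) x → cf A Ω i x ≤ B := by
  have h1 : ∀ i, ∃ b : ℝ, ∀ p ∈ closedBall (0 : ℂ × ℂ) (1 / 2), ‖aCoef Ω (A.χ i) p‖ * ‖(A.χ i).σ p‖ ≤ b := by
    intro i
    have hc : ContinuousOn (fun p => ‖aCoef Ω (A.χ i) p‖ * ‖(A.χ i).σ p‖) (closedBall (0 : ℂ × ℂ) (1 / 2)) := by
      intro p hp
      have hp' := CRho_sub (mem_closedBall_zero_iff.1 hp)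
      have h2 := (Pool.Agent.H14.PP.aCoef_analytic (CRho_open hX) Ω (A.χ i) hp' ((A.χ i).σ_mem p hp').1).continuousAt
      have h3 := ((A.χ i).σ_an p hp').continuousAt
      exact (h2.norm.mul h3.norm).continuousWithinAt
    obtain ⟨b, hb⟩ := (isCompact_closedBall (0 : ℂ × ℂ) (1 / 2)).exists_bound_of_continuousOn hc
    exact ⟨b, fun p hp => (le_abs_self _).trans (hb p hp)⟩
  choose b hb using h1
  refine ⟨∑ i, |b i|, Finset.sum_nonneg fun i _ => abs_nonneg _, fun i x hx => ?_⟩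
  calc cf A Ω i x ≤ b i := hb i _ (mem_closedBall_zero_iff.2 hx.2.2)
    _ ≤ |b i| := le_abs_self _
    _ ≤ ∑ i, |b i| := Finset.single_le_sum (f := fun i => |b i|) (fun _ _ => abs_nonneg _) (Finset.mem_univ i)

private theorem CRho_det (a b : ℂ × ℂ) : ‖det2 a b‖ ≤ 2 * (‖a‖ * ‖b‖) := by
  unfold det2
  have h1 : ‖a.1 * b.2‖ ≤ ‖a‖ * ‖b‖ := by
    rw [norm_mul]
    exact mul_le_mul (norm_fst_le a) (norm_snd_le b) (norm_nonneg _) (norm_nonneg _)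
  have h2 : ‖a.2 * b.1‖ ≤ ‖a‖ * ‖b‖ := by
    rw [norm_mul]
    exact mul_le_mul (norm_snd_le a) (norm_fst_le b) (norm_nonneg _) (norm_nonneg _)
  calc ‖a.1 * b.2 - a.2 * b.1‖ ≤ ‖a.1 * b.2‖ + ‖a.2 * b.1‖ := norm_sub_le _ _
    _ ≤ ‖a‖ * ‖b‖ + ‖a‖ * ‖b‖ := add_le_add h1 h2
    _ = 2 * (‖a‖ * ‖b‖) := by ring

private theorem CRho_good (A : Atlas X) {x : EN N} (hx : x ∈ X) : Good (A.χ (A.idx (pr x))) x :=
  A.good x hx x hx (by rw [dist_self]; exact A.δ_pos.le)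

theorem rh_bdd (hX : IsCone X) (h : MC A c L r₀ c₁ K₀ r₂ r₃ ε₃ K) (Ω : Form X m 1) : ∃ B ε : ℝ, 0 ≤ B ∧ 0 < ε ∧
    ∀ F ∈ BC X c L, ∀ G ∈ BC X c L, ∀ w z, dist (evp G z) (evp F w) ≤ ε → 0 ≤ rh A Ω r₂ F w G z ∧ rh A Ω r₂ F w G z ≤ B := by
  obtain ⟨B₁, hB₁, hB⟩ := CRho_cf_bdd hX A Ω
  have hK₀ : 0 ≤ K₀ := zero_le_one.trans h.lc.one_le
  refine ⟨B₁ * (2 * K₀) ^ m, A.δ, by positivity, A.δ_pos, fun F hF G hG w z hd => ?_⟩
  have hGX : G z ∈ X := hG.2.1 z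
  obtain ⟨-, hmin⟩ := h.nearest_spec hF w (pr (G z))
  have hd' : dist (pr (G z)) (pr (F (nearest r₂ F w (pr (G z))))) ≤ A.δ :=
    (hmin w (mem_closedBall_self h.r₂_pos.le)).trans hd
  have hg := CRho_good A hGX
  have hg' : Good (A.χ (A.idx (pr (G z)))) (F (nearest r₂ F w (pr (G z)))) := A.good _ hGX _ (hF.2.1 _) hd'
  constructor
  · exact mul_nonneg (CRho_cf_nonneg _ _ _ _) (pow_nonneg (norm_nonneg _) _)
  · unfold rh
    refine mul_le_mul (hB _ _ hg) (pow_le_pow_left₀ (norm_nonneg _) ?_ _) (pow_nonneg (norm_nonneg _) _) hB₁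
    refine (CRho_det _ _).trans ?_
    have h1 : ‖qc A (A.idx (pr (G z))) F (nearest r₂ F w (pr (G z))) - qc A (A.idx (pr (G z))) G z‖ ≤ 1 := by
      refine (norm_sub_le _ _).trans ?_
      have h2 := hg.2.2
      have h3 := hg'.2.2
      unfold qc
      linarith
    have h2 := h.lc.der_le G hG _ z hg
    calc 2 * (‖qc A (A.idx (pr (G z))) F (nearest r₂ F w (pr (G z))) - qc A (A.idx (pr (G z))) G z‖ *
          ‖deriv (qc A (A.idx (pr (G z))) G) z‖) ≤ 2 * (1 * K₀) := by gcongr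
      _ = 2 * K₀ := by ring

private theorem CRho_pow {j : ℕ} (hj : j = 1) (hm : 1 ≤ m) (Ω : Form X m j) (χ : Chart X) (p : ℂ × ℂ) :
    Pool.Agent.H14.PP.ACoef Ω χ p ^ m = ‖aCoef Ω χ p‖ * ‖χ.σ p‖ := by
  subst hj
  have hm0 : (m : ℝ) ≠ 0 := by
    have : (1 : ℝ) ≤ m := by exact_mod_cast hm
    linarith
  unfold Pool.Agent.H14.PP.ACoef
  rw [mul_pow, ← Real.rpow_natCast (‖aCoef Ω χ p‖ ^ (1 / (m : ℝ))) m,
    ← Real.rpow_natCast (‖χ.σ p‖ ^ (((1 : ℕ) : ℝ) / m)) m, ← Real.rpow_mul (norm_nonneg _),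
    ← Real.rpow_mul (norm_nonneg _), Nat.cast_one, one_div_mul_cancel hm0, Real.rpow_one, Real.rpow_one]

theorem coef_trans (hX : IsCone X) (A : Atlas X) (hm : 1 ≤ m) (Ω : Form X m 1) {i k : Fin A.n} {x : EN N} (hk : Good (A.χ k) x)
    (hi : Good (A.χ i) x) : cf A Ω k x = ‖jac (fun p => (A.χ i).q ((A.χ k).σ p)) ((A.χ k).q x)‖ ^ m * cf A Ω i x := by
  have hp := CRho_sub hk.2.2
  obtain ⟨-, a, ha, hxa⟩ := (A.χ k).surj x hk.1 hk.2.1
  have hσ : (A.χ k).σ ((A.χ k).q x) = a⁻¹ • x := by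
    conv_rhs => rw [hxa]
    rw [smul_smul, inv_mul_cancel₀ ha, one_smul]
  have hU : (A.χ k).σ ((A.χ k).q x) ∈ (A.χ i).U := by
    rw [hσ]
    exact (A.χ i).smul_U x hi.2.1 _ (inv_ne_zero ha)
  have hq : (A.χ i).q ((A.χ k).σ ((A.χ k).q x)) = (A.χ i).q x := by
    rw [hσ, (A.χ i).q_smul x hi.2.1 _ (inv_ne_zero ha)]
  have h1 := Pool.Agent.H14.PP.ACoef_trans hX (CRho_open hX) hm Ω (A.χ k) (A.χ i) hp ((A.χ k).σ_mem _ hp).1 hU
  unfold cf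
  rw [← CRho_pow rfl hm Ω (A.χ k), ← CRho_pow rfl hm Ω (A.χ i), h1, mul_pow, hq]

theorem rh_cmp (hX : IsCone X) (h : MC A c L r₀ c₁ K₀ r₂ r₃ ε₃ K) (hm : 1 ≤ m) (Ω : Form X m 1) {s η : ℝ} (hs : 0 < s) (hs₃ : s ≤ r₃)
    (hη : 0 < η) : ∃ ε : ℝ, 0 < ε ∧ ε ≤ ε₃ ∧ ∀ F ∈ BC X c L, ∀ G ∈ BC X c L, ∀ z₀ φ, FolAt evp r₂ s ε F G z₀ φ → ∀ e ψ,
      Match A r₂ r₃ K F G (A.idx (pr (F (φ z₀)))) (φ z₀) z₀ e ψ → ∀ z ∈ closedBall z₀ (s / 2), ∀ k, k = A.idx (pr (F (φ z₀))) →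
        Real.exp (-η) * (cf A Ω k (G z) * ‖Dm A F G k ψ z‖ ^ m) ≤ rh A Ω r₂ F (φ z) G z ∧
          rh A Ω r₂ F (φ z) G z ≤ Real.exp η * (cf A Ω k (G z) * ‖Dm A F G k ψ z‖ ^ m) := by
  have hm0 : (0 : ℝ) < m := by exact_mod_cast hm
  obtain ⟨ε, hε, hε₃, H⟩ := h.det_comp hX hs hs₃ (div_pos hη hm0)
  refine ⟨ε, hε, hε₃, ?_⟩
  intro F hF G hG z₀ φ hfol e ψ hM z hz k hk
  obtain ⟨hn, hmin⟩ := h.nearest_spec hF (φ z) (pr (G z))
  obtain ⟨hlo, hup⟩ := H F hF G hG z₀ φ hfol e ψ hM z hz (nearest r₂ F (φ z) (pr (G z))) hn hmin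
    (A.idx (pr (G z))) k _ _ rfl hk rfl rfl
  have hzb : z ∈ ball z₀ (2 * r₃) := by
    rw [mem_closedBall] at hz
    rw [mem_ball]
    have := h.r₃_pos
    linarith
  have hgk : Good (A.χ k) (G z) := by
    rw [hk]
    exact hM.goodG z hzb
  have hgi := CRho_good A (hG.2.1 z)
  have hct := coef_trans hX A hm Ω hgk hgi
  have hcf := CRho_cf_nonneg A Ω (A.idx (pr (G z))) (G z)
  have hexp : ∀ t : ℝ, Real.exp (t / m) ^ m = Real.exp t := by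
    intro t
    rw [← Real.exp_nat_mul, mul_div_cancel₀ _ hm0.ne']
  have hexp' : Real.exp (-(η / m)) ^ m = Real.exp (-η) := by
    rw [← neg_div, hexp]
  have hkey : ∀ t : ℝ, t ^ m * (cf A Ω k (G z) * ‖Dm A F G k ψ z‖ ^ m) =
      cf A Ω (A.idx (pr (G z))) (G z) *
        (t * (‖jac (fun p => (A.χ (A.idx (pr (G z)))).q ((A.χ k).σ p)) (qc A k G z)‖ * ‖Dm A F G k ψ z‖)) ^ m := by
    intro t
    rw [hct, mul_pow, mul_pow]
    unfold qc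
    ring
  constructor
  · rw [← hexp', hkey]
    unfold rh
    refine mul_le_mul_of_nonneg_left (pow_le_pow_left₀ ?_ hlo _) hcf
    positivity
  · rw [← hexp, hkey]
    unfold rh
    exact mul_le_mul_of_nonneg_left (pow_le_pow_left₀ (norm_nonneg _) hup _) hcf

end Pool.Agent.H5.BD
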