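import Pool.Agent.H5.BD.CPer
import Pool.Agent.H14.PP.FormChart

/-!
# BD CThin: the final form of the theorem on curves with bounded distortion
-/

set_option autoImplicit false

open Topology Filter Metric

namespace Pool.Agent.H5.BD

open Pool.Agent.H36.BP (EN fs wd)
open Pool.Agent.H14.PP (IsCone Chart Form Tan aCoef jac IsOpenPart)
open Pool.Agent.H62.EF (MN pr det2 Charts)

variable {N : ℕ} {X : Set (EN N)} {m : ℕ}

theorem thin_of (hX : IsCone X) (Ω : Form X m 1) {q : EN N → ℂ} {d : ℕ} (hhom : ∀ (c : ℂ) (x : EN N), q (c • x) = c ^ d * q x)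
    (hthin : ∀ x ∈ X, ¬ ∀ᶠ y in 𝓝 x, y ∈ X → q y = 0) (hΩ : Ω.NoZeroOff {x | x ∈ X ∧ q x = 0}) : Thin Ω := by
  intro χ p hp hcon
  have hK : IsOpenPart X X := ⟨subset_rfl, hX.smul_mem, fun _ _ => Eventually.of_forall fun _ h => h⟩
  have h1 : ∀ᶠ p' in 𝓝 p, p' ∈ ball (0 : ℂ × ℂ) 2 ∧ aCoef Ω χ p' = 0 := by
    filter_upwards [hcon, isOpen_ball.mem_nhds hp] with p' h1 h2
    exact ⟨h2, not_not.1 h1⟩
  obtain ⟨h2, h3, h4⟩ := χ.σ_mem p hp
  have h5 : ∀ᶠ p' in 𝓝 p, q (χ.σ p') = 0 := by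
    filter_upwards [h1] with p' hp'
    by_contra hne
    exact Pool.Agent.H14.PP.aCoef_ne_zero hX hK Ω χ hΩ hp'.1 (χ.σ_mem p' hp'.1).1 (fun h => hne h.2) hp'.2
  apply hthin _ h2
  have h6 : Tendsto χ.q (𝓝 (χ.σ p)) (𝓝 p) := by
    have := (χ.q_an _ h3).continuousAt.tendsto
    rwa [h4] at this
  filter_upwards [h6.eventually h5, χ.isOpen_U.mem_nhds h3] with y hy hyU hyX
  obtain ⟨-, a, ha, h7⟩ := χ.surj y hyX hyU
  rw [h7, hhom, hy, mul_zero]

/-- **Curves with bounded distortion on surfaces of general type.**  Let `X` be the cone of a smooth projective surface, and `Ω` a section of `m K - H` whose zeros are on the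
hypersurface section `q = 0`, which contains no open subset of `X`.  Let `0 < c ≤ L`.  Every entire curve in the surface whose derivative is between `c` and `L` is doubly periodic,
and up to `z ↦ a z + b` there are only finitely many of them. -/
theorem curves_of_bounded_distortion (hX : IsCone X) (hch : Charts X) (hm : 1 ≤ m) (Ω : Form X m 1) {q : EN N → ℂ} {d : ℕ}
    (hhom : ∀ (c : ℂ) (x : EN N), q (c • x) = c ^ d * q x) (hthin : ∀ x ∈ X, ¬ ∀ᶠ y in 𝓝 x, y ∈ X → q y = 0)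
    (hΩ : Ω.NoZeroOff {x | x ∈ X ∧ q x = 0}) {c L : ℝ} (hc : 0 < c) (hL : 0 < L) :
    (∀ F ∈ BC X c L, ∃ ω₁ ω₂ : ℂ, LinearIndependent ℝ ![ω₁, ω₂] ∧ ∀ z, pr (F (z + ω₁)) = pr (F z) ∧ pr (F (z + ω₂)) = pr (F z)) ∧
      ∃ T : Finset (ℂ → EN N), (∀ G ∈ T, G ∈ BC X c L) ∧ ∀ F ∈ BC X c L, ∃ G ∈ T, Equi F G :=
  bounded_distortion hX hch hm Ω (thin_of hX Ω hhom hthin hΩ) hc hL

end Pool.Agent.H5.BD
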