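import Pool.Agent.H5.BD.CRho

/-!
# BD CZ: the zero set of the form

`mem_ZΩ`: let `Good χ x`, `p = χ.q x`, `x = a • χ.σ p`, `a ≠ 0`.  Every tangent vector at `y = χ.σ p` is `v = dσ_p ξ + b • y` (`Chart.curve` for a curve `F` with `F 0 = y`, `F' 0 = v`: `F z = c z • σ (q (F z))` near `0`,
`c 0 = 1`), so `Ω y v w = det (ξ, ξ')^m aCoef Ω χ p` (`add_smul`, `det`), and `dσ_p (1, 0)`, `dσ_p (0, 1)` are tangent vectors (`Chart.tan`).  So `Ω y v w = 0` for all tangent `v, w` iff `aCoef Ω χ p = 0`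
(`m ≥ 1`).  By `scale` the condition is invariant under `y ↦ a • y` (`Tan` is), and `pr x = pr x'` iff `x, x'` are proportional (`pr_eq_iff`).
`isClosed_ZΩ`: let `y n ∈ ZΩ Ω`, `y n → y`; `y ∈ pr '' X` (compact, `isCompact_pr`), `y = pr x`; let `i = A.idx (pr x)`; for large `n` `y n = pr (x n)`, `x n` good for `i` (`A.good`), `aCoef (q (x n)) = 0`,
`q (x n) → q x` (`A.le_dist`), `aCoef` is continuous, so `aCoef (q x) = 0`.
`ZΩ_small`: otherwise there are `η > 0`, `i n`, `x n` good for `i n`, with `cf A Ω (i n) (x n) → 0` and no point of `ZΩ Ω` at distance `≤ η` of `pr (x n)`; along an ultrafilter `i n = i` is constant, `p n = q (x n) → p`, `‖p‖ ≤ 1 / 2`;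
`‖aCoef Ω (A.χ i) p‖ ‖σ p‖ = 0`, so `aCoef = 0`, `pr (σ p) ∈ ZΩ Ω` and `pr (x n) = pr (σ (p n)) → pr (σ p)`: contradiction.
`ZΩ_dense`: `F` is continuous; near every `z₁` with `i = A.idx (pr (F z₁))` `pr (F z) ∈ ZΩ Ω` iff `aCoef Ω (A.χ i) (qc A i F z) = 0`, an analytic function of `z`; so
(`AnalyticAt.eventually_eq_zero_or_eventually_ne_zero`) it is `0` near `z₁` or `≠ 0` for `z ≠ z₁` near `z₁`.  Both sets of points `z₁` are open and disjoint, their union is `ℂ` (connected).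
-/

set_option autoImplicit false

open Topology Filter Metric

namespace Pool.Agent.H5.BD

open Pool.Agent.H36.BP (EN fs wd)
open Pool.Agent.H14.PP (IsCone Chart Form Tan aCoef jac)
open Pool.Agent.H62.EF (MN pr det2 Charts)

variable {N : ℕ} {X : Set (EN N)} {m : ℕ}

/-- the zero set of the form `Ω` in the projective space -/
def ZΩ (Ω : Form X m 1) : Set (MN N) := {y | ∃ x ∈ X, y = pr x ∧ ∀ v w, Tan X x v → Tan X x w → Ω.toFun x v w = 0}

private theorem cz_open (hX : IsCone X) : Pool.Agent.H14.PP.IsOpenPart X X :=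
  ⟨subset_rfl, hX.smul_mem, fun _ _ => Filter.Eventually.of_forall fun _ h => h⟩

private theorem cz_ball {χ : Chart X} {x : EN N} (hx : Good χ x) : χ.q x ∈ ball (0 : ℂ × ℂ) 2 := by
  rw [mem_ball_zero_iff]
  have := hx.2.2
  linarith

private theorem cz_tan_smul (hX : IsCone X) {x v : EN N} (h : Tan X x v) {c : ℂ} (hc : c ≠ 0) :
    Tan X (c • x) (c • v) := by
  obtain ⟨F, ⟨hF, hFX⟩, h0, h1⟩ := h
  refine ⟨fun z => c • F z, ⟨?_, ?_⟩, ?_, ?_⟩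
  · exact AnalyticAt.fun_const_smul hF
  · filter_upwards [hFX] with z hz
    exact hX.smul_mem _ hz c hc
  · simp only [h0]
  · rw [← h1]
    exact (hF.differentiableAt.hasDerivAt.const_smul c).deriv

/-- the tangent vectors in a chart -/
private theorem cz_tan (hX : IsCone X) (χ : Chart X) {p : ℂ × ℂ} (hp : p ∈ ball (0 : ℂ × ℂ) 2) {v : EN N}
    (hv : Tan X (χ.σ p) v) : ∃ (ξ : ℂ × ℂ) (b : ℂ), v = fderiv ℂ χ.σ p ξ + b • χ.σ p := by
  obtain ⟨F, hF, h0, h1⟩ := hv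
  have hσ := χ.σ_mem p hp
  have hU : F 0 ∈ χ.U := by rw [h0]; exact hσ.2.1
  obtain ⟨a1, _, c, hc, hc0, hev⟩ := Chart.curve hX χ hF hU
  have hq0 : χ.q (F 0) = p := by rw [h0]; exact hσ.2.2
  have hne : χ.σ p ≠ 0 := Chart.sigma_ne_zero hX χ hp
  have e0 := hev.self_of_nhds.2
  rw [hq0, h0] at e0
  have hc1 : c 0 = 1 := by
    have h2 : (1 : ℂ) • χ.σ p = c 0 • χ.σ p := by rw [one_smul]; exact e0
    exact (smul_left_injective ℂ hne h2).symm
  have hσd : DifferentiableAt ℂ χ.σ p := (χ.σ_an p hp).differentiableAt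
  have hg : HasDerivAt (fun z => χ.q (F z)) (deriv (fun z => χ.q (F z)) 0) 0 :=
    a1.differentiableAt.hasDerivAt
  have hσF : HasFDerivAt χ.σ (fderiv ℂ χ.σ p) (χ.q (F 0)) := by
    rw [hq0]; exact hσd.hasFDerivAt
  have hcomp : HasDerivAt (fun z => χ.σ (χ.q (F z)))
      (fderiv ℂ χ.σ p (deriv (fun z => χ.q (F z)) 0)) 0 := hσF.comp_hasDerivAt (0 : ℂ) hg
  have hprod := hc.differentiableAt.hasDerivAt.smul hcomp
  have heq : F =ᶠ[𝓝 0] fun z => c z • χ.σ (χ.q (F z)) := hev.mono fun z hz => hz.2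
  have hd := heq.deriv_eq
  have hd2 : deriv (fun z => c z • χ.σ (χ.q (F z))) 0
      = c 0 • fderiv ℂ χ.σ p (deriv (fun z => χ.q (F z)) 0) + deriv c 0 • χ.σ (χ.q (F 0)) :=
    hprod.deriv
  refine ⟨deriv (fun z => χ.q (F z)) 0, deriv c 0, ?_⟩
  rw [← h1, hd, hd2, hc1, one_smul, hq0]

private theorem cz_vanish (hX : IsCone X) (Ω : Form X m 1) (χ : Chart X) {p : ℂ × ℂ}
    (hp : p ∈ ball (0 : ℂ × ℂ) 2) :
    (∀ v w, Tan X (χ.σ p) v → Tan X (χ.σ p) w → Ω.toFun (χ.σ p) v w = 0) ↔ aCoef Ω χ p = 0 := by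
  have hσ := χ.σ_mem p hp
  have ht : ∀ w : ℂ × ℂ, Tan X (χ.σ p) (fderiv ℂ χ.σ p w) := fun w =>
    Chart.tan (cz_open hX) χ hp hσ.1 w
  constructor
  · intro h
    exact h _ _ (ht (1, 0)) (ht (0, 1))
  · intro h v w hv hw
    obtain ⟨ξ, b, rfl⟩ := cz_tan hX χ hp hv
    obtain ⟨ξ', b', rfl⟩ := cz_tan hX χ hp hw
    rw [Ω.add_smul _ hσ.1 _ _ (ht ξ) (ht ξ')]
    have hl : ∀ ζ : ℂ × ℂ, fderiv ℂ χ.σ p ζ
        = ζ.1 • fderiv ℂ χ.σ p (1, 0) + ζ.2 • fderiv ℂ χ.σ p (0, 1) := by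
      intro ζ
      rw [← map_smul, ← map_smul, ← map_add]
      congr 1
      ext <;> simp
    rw [hl ξ, hl ξ', Ω.det _ hσ.1 _ _ (ht (1, 0)) (ht (0, 1))]
    have h2 : Ω.toFun (χ.σ p) (fderiv ℂ χ.σ p (1, 0)) (fderiv ℂ χ.σ p (0, 1)) = 0 := h
    rw [h2, mul_zero]

theorem mem_ZΩ (hX : IsCone X) (hm : 1 ≤ m) (Ω : Form X m 1) (χ : Chart X) {x : EN N} (hx : Good χ x) :
    pr x ∈ ZΩ Ω ↔ aCoef Ω χ (χ.q x) = 0 := by
  have hp := cz_ball hx
  have hσ := χ.σ_mem _ hp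
  have hne : χ.σ (χ.q x) ≠ 0 := Chart.sigma_ne_zero hX χ hp
  obtain ⟨_, a, ha, hxa⟩ := χ.surj x hx.1 hx.2.1
  have hpr : pr x = pr (χ.σ (χ.q x)) := by
    conv_lhs => rw [hxa]
    exact Pool.Agent.H62.EF.pr_smul _ ha
  rw [← cz_vanish hX Ω χ hp]
  constructor
  · rintro ⟨x', hx', he, h⟩ v w hv hw
    rw [hpr] at he
    obtain ⟨c, hc, hc'⟩ := (Pool.Agent.H62.EF.pr_eq_iff hne (fun h0 => hX.zero_notMem (h0 ▸ hx'))).1 he
    have h1 := Ω.scale _ hσ.1 v w hv hw c⁻¹ (inv_ne_zero hc)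
    have h2 : c⁻¹ • χ.σ (χ.q x) = x' := by rw [hc', smul_smul, inv_mul_cancel₀ hc, one_smul]
    have hv' := cz_tan_smul hX hv (inv_ne_zero hc)
    have hw' := cz_tan_smul hX hw (inv_ne_zero hc)
    rw [h2] at hv' hw' h1
    rw [← h1, h _ _ hv' hw', mul_zero]
  · intro h
    exact ⟨χ.σ (χ.q x), hσ.1, hpr, h⟩

private theorem cz_aC (hX : IsCone X) (Ω : Form X m 1) (χ : Chart X) {p : ℂ × ℂ}
    (hp : p ∈ ball (0 : ℂ × ℂ) 2) : AnalyticAt ℂ (aCoef Ω χ) p :=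
  Pool.Agent.H14.PP.aCoef_analytic (cz_open hX) Ω χ hp (χ.σ_mem p hp).1

theorem isClosed_ZΩ (hX : IsCone X) (A : Atlas X) (hm : 1 ≤ m) (Ω : Form X m 1) : IsClosed (ZΩ Ω) := by
  apply IsSeqClosed.isClosed
  intro y y₀ hy hlim
  have hsub : ∀ n, y n ∈ pr '' X := fun n => by
    obtain ⟨x, hx, h, _⟩ := hy n
    exact ⟨x, hx, h.symm⟩
  have h0 : y₀ ∈ pr '' X :=
    (Pool.Agent.H62.EF.isCompact_pr hX).isClosed.mem_of_tendsto hlim (Filter.Eventually.of_forall hsub)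
  obtain ⟨x, hx, rfl⟩ := h0
  choose x' hx' hy' using hsub
  obtain ⟨i, hi⟩ : ∃ i, i = A.idx (pr x) := ⟨_, rfl⟩
  have hgx : Good (A.χ i) x := by
    rw [hi]
    exact A.good x hx x hx (by rw [dist_self]; exact A.δ_pos.le)
  rw [mem_ZΩ hX hm Ω (A.χ i) hgx]
  have hdist : Tendsto (fun n => dist (y n) (pr x)) atTop (𝓝 0) := tendsto_iff_dist_tendsto_zero.1 hlim
  have hg : ∀ᶠ n in atTop, Good (A.χ i) (x' n) := by
    filter_upwards [hdist.eventually (gt_mem_nhds A.δ_pos)] with n hn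
    rw [hi]
    refine A.good x hx (x' n) (hx' n) ?_
    rw [dist_comm, hy' n]
    exact hn.le
  have hq : Tendsto (fun n => (A.χ i).q (x' n)) atTop (𝓝 ((A.χ i).q x)) := by
    rw [tendsto_iff_norm_sub_tendsto_zero]
    have h3 : Tendsto (fun n => A.C * dist (y n) (pr x)) atTop (𝓝 0) := by
      have := hdist.const_mul A.C
      rwa [mul_zero] at this
    refine squeeze_zero' (Filter.Eventually.of_forall fun _ => norm_nonneg _) ?_ h3
    filter_upwards [hg] with n hn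
    have := A.le_dist i (x' n) x hn hgx
    rwa [hy' n] at this
  have hc := ((cz_aC hX Ω (A.χ i) (cz_ball hgx)).continuousAt.tendsto).comp hq
  refine tendsto_nhds_unique hc ?_
  refine tendsto_const_nhds.congr' ?_
  filter_upwards [hg] with n hn
  have h4 := hy n
  rw [← hy' n, mem_ZΩ hX hm Ω (A.χ i) hn] at h4
  exact h4.symm

private theorem cz_small (hX : IsCone X) (hm : 1 ≤ m) (Ω : Form X m 1) (χ : Chart X) {η : ℝ} (hη : 0 < η) :
    ∃ δ : ℝ, 0 < δ ∧ ∀ x, Good χ x → ‖aCoef Ω χ (χ.q x)‖ * ‖χ.σ (χ.q x)‖ ≤ δ →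
      ∃ y ∈ ZΩ Ω, dist (pr x) y ≤ η := by
  have hB : ∀ p ∈ closedBall (0 : ℂ × ℂ) (1 / 2), p ∈ ball (0 : ℂ × ℂ) 2 := fun p hp => by
    rw [mem_closedBall_zero_iff] at hp
    rw [mem_ball_zero_iff]
    linarith
  have hσc : ∀ p ∈ closedBall (0 : ℂ × ℂ) (1 / 2), ContinuousAt χ.σ p := fun p hp =>
    (χ.σ_an p (hB p hp)).continuousAt
  have hprc : ContinuousOn (fun p => pr (χ.σ p)) (closedBall (0 : ℂ × ℂ) (1 / 2)) := fun p hp =>
    (ContinuousAt.comp (Pool.Agent.H62.EF.continuousAt_pr (Chart.sigma_ne_zero hX χ (hB p hp)))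
      (hσc p hp)).continuousWithinAt
  have hfc : ContinuousOn (fun p => ‖aCoef Ω χ p‖ * ‖χ.σ p‖) (closedBall (0 : ℂ × ℂ) (1 / 2)) :=
    fun p hp => ((cz_aC hX Ω χ (hB p hp)).continuousAt.norm.mul (hσc p hp).norm).continuousWithinAt
  obtain ⟨Cs, hCs⟩ : ∃ Cs : Set (MN N), Cs = {y' | ∀ y ∈ ZΩ Ω, η ≤ dist y' y} := ⟨_, rfl⟩
  have hCcl : IsClosed Cs := by
    have h1 : Cs = ⋂ y ∈ ZΩ Ω, {y' | η ≤ dist y' y} := by
      rw [hCs]
      ext y'
      simp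
    rw [h1]
    exact isClosed_biInter fun y _ => isClosed_le continuous_const (continuous_id.dist continuous_const)
  obtain ⟨S, hS⟩ : ∃ S : Set (ℂ × ℂ), S = closedBall (0 : ℂ × ℂ) (1 / 2) ∩ (fun p => pr (χ.σ p)) ⁻¹' Cs :=
    ⟨_, rfl⟩
  have hScl : IsClosed S := by
    rw [hS]
    exact hprc.preimage_isClosed_of_isClosed isClosed_closedBall hCcl
  have hSc : IsCompact S := by
    refine (isCompact_closedBall (0 : ℂ × ℂ) (1 / 2)).of_isClosed_subset hScl ?_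
    rw [hS]
    exact Set.inter_subset_left
  have hgood : ∀ p ∈ closedBall (0 : ℂ × ℂ) (1 / 2), Good χ (χ.σ p) := fun p hp => by
    have h1 := χ.σ_mem p (hB p hp)
    refine ⟨h1.1, h1.2.1, ?_⟩
    rw [h1.2.2]
    exact mem_closedBall_zero_iff.1 hp
  have hpos : ∀ p ∈ S, 0 < ‖aCoef Ω χ p‖ * ‖χ.σ p‖ := by
    intro p hp
    rw [hS] at hp
    have hne : χ.σ p ≠ 0 := Chart.sigma_ne_zero hX χ (hB p hp.1)
    refine mul_pos (norm_pos_iff.2 fun h0 => ?_) (norm_pos_iff.2 hne)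
    have h1 : pr (χ.σ p) ∈ ZΩ Ω := by
      rw [mem_ZΩ hX hm Ω χ (hgood p hp.1), (χ.σ_mem p (hB p hp.1)).2.2]
      exact h0
    have h2 := hp.2
    rw [Set.mem_preimage, hCs] at h2
    have h3 := h2 _ h1
    rw [dist_self] at h3
    linarith
  have hmin : ∃ δ : ℝ, 0 < δ ∧ ∀ p ∈ S, δ < ‖aCoef Ω χ p‖ * ‖χ.σ p‖ := by
    rcases S.eq_empty_or_nonempty with h0 | h0
    · exact ⟨1, one_pos, fun p hp => by rw [h0] at hp; exact absurd hp (Set.notMem_empty p)⟩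
    · have hSsub : S ⊆ closedBall (0 : ℂ × ℂ) (1 / 2) := by
        rw [hS]
        exact Set.inter_subset_left
      obtain ⟨p, hp, hpm⟩ := hSc.exists_isMinOn h0 (hfc.mono hSsub)
      refine ⟨(‖aCoef Ω χ p‖ * ‖χ.σ p‖) / 2, half_pos (hpos p hp), fun p' hp' => ?_⟩
      have h1 : ‖aCoef Ω χ p‖ * ‖χ.σ p‖ ≤ ‖aCoef Ω χ p'‖ * ‖χ.σ p'‖ := hpm hp'
      have h2 := hpos p hp
      linarith
  obtain ⟨δ, hδ, hδ'⟩ := hmin
  refine ⟨δ, hδ, fun x hx hle => ?_⟩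
  have hpx : χ.q x ∈ closedBall (0 : ℂ × ℂ) (1 / 2) := mem_closedBall_zero_iff.2 hx.2.2
  have hnS : χ.q x ∉ S := fun h => absurd hle (not_le.2 (hδ' _ h))
  rw [hS, Set.mem_inter_iff, not_and, Set.mem_preimage, hCs] at hnS
  have h2 := hnS hpx
  obtain ⟨_, a, ha, hxa⟩ := χ.surj x hx.1 hx.2.1
  have hpr : pr x = pr (χ.σ (χ.q x)) := by
    conv_lhs => rw [hxa]
    exact Pool.Agent.H62.EF.pr_smul _ ha
  rw [← hpr] at h2
  by_contra hcon
  apply h2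
  intro y hy
  by_contra h3
  exact hcon ⟨y, hy, (not_le.1 h3).le⟩

theorem ZΩ_small (hX : IsCone X) (A : Atlas X) (hm : 1 ≤ m) (Ω : Form X m 1) {η : ℝ} (hη : 0 < η) :
    ∃ δ : ℝ, 0 < δ ∧ ∀ i x, Good (A.χ i) x → cf A Ω i x ≤ δ → ∃ y ∈ ZΩ Ω, dist (pr x) y ≤ η := by
  choose d hd hd' using fun i => cz_small hX hm Ω (A.χ i) hη
  rcases isEmpty_or_nonempty (Fin A.n) with h0 | h0
  · exact ⟨1, one_pos, fun i => isEmptyElim i⟩
  · obtain ⟨i₀, hi₀⟩ := Finite.exists_min d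
    exact ⟨d i₀, hd i₀, fun i x hx hle => hd' i x hx (hle.trans (hi₀ i))⟩

theorem ZΩ_dense (hX : IsCone X) (A : Atlas X) (hm : 1 ≤ m) (Ω : Form X m 1) {F : ℂ → EN N} (hF : Differentiable ℂ F) (hFX : ∀ z, F z ∈ X) :
    (∀ z, evp F z ∈ ZΩ Ω) ∨ ∀ z₀, ∀ᶠ z in 𝓝[≠] z₀, evp F z ∉ ZΩ Ω := by
  have hne : ∀ z, F z ≠ 0 := fun z h0 => hX.zero_notMem (h0 ▸ hFX z)
  have hcont : Continuous fun z => pr (F z) := continuous_iff_continuousAt.2 fun z =>
    ContinuousAt.comp (g := pr) (f := F) (Pool.Agent.H62.EF.continuousAt_pr (hne z)) hF.continuous.continuousAt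
  have hdich : ∀ z₁, (∀ᶠ z in 𝓝 z₁, evp F z ∈ ZΩ Ω) ∨ ∀ᶠ z in 𝓝[≠] z₁, evp F z ∉ ZΩ Ω := by
    intro z₁
    obtain ⟨i, hi⟩ : ∃ i, i = A.idx (pr (F z₁)) := ⟨_, rfl⟩
    have hg : ∀ᶠ z in 𝓝 z₁, Good (A.χ i) (F z) := by
      have h1 : Tendsto (fun z => dist (pr (F z₁)) (pr (F z))) (𝓝 z₁) (𝓝 0) := by
        have h2 : Continuous fun z => dist (pr (F z₁)) (pr (F z)) := continuous_const.dist hcont
        have h3 := h2.tendsto z₁
        rwa [dist_self] at h3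
      filter_upwards [h1.eventually (gt_mem_nhds A.δ_pos)] with z hz
      rw [hi]
      exact A.good _ (hFX z₁) _ (hFX z) hz.le
    have hg1 := hg.self_of_nhds
    have ha : AnalyticAt ℂ (fun z => aCoef Ω (A.χ i) ((A.χ i).q (F z))) z₁ := by
      have h1 : AnalyticAt ℂ F z₁ := hF.analyticAt z₁
      have h2 : AnalyticAt ℂ (fun z => (A.χ i).q (F z)) z₁ :=
        AnalyticAt.fun_comp ((A.χ i).q_an _ hg1.2.1) h1
      exact AnalyticAt.fun_comp (f := fun z => (A.χ i).q (F z)) (cz_aC hX Ω (A.χ i) (cz_ball hg1)) h2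
    rcases ha.eventually_eq_zero_or_eventually_ne_zero with h | h
    · left
      filter_upwards [h, hg] with z hz hz'
      exact (mem_ZΩ hX hm Ω (A.χ i) hz').2 hz
    · right
      filter_upwards [h, hg.filter_mono nhdsWithin_le_nhds] with z hz hz'
      exact fun h' => hz ((mem_ZΩ hX hm Ω (A.χ i) hz').1 h')
  by_cases hall : ∀ z₀, ∀ᶠ z in 𝓝[≠] z₀, evp F z ∉ ZΩ Ω
  · exact Or.inr hall
  · left
    push Not at hall
    obtain ⟨z₀, hz₀⟩ := hall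
    obtain ⟨U, hU⟩ : ∃ U : Set ℂ, U = {z₁ | ∀ᶠ z in 𝓝 z₁, evp F z ∈ ZΩ Ω} := ⟨_, rfl⟩
    have hUo : IsOpen U := by
      rw [hU, isOpen_iff_mem_nhds]
      intro z hz
      exact eventually_eventually_nhds.2 hz
    have hUc : IsClosed U := by
      rw [← isOpen_compl_iff, isOpen_iff_mem_nhds]
      intro z hz
      rcases hdich z with h | h
      · exact absurd (by rw [hU]; exact h) hz
      · rw [eventually_nhdsWithin_iff] at h
        filter_upwards [h] with z' hz' hz'U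
        by_cases he : z' = z
        · rw [he] at hz'U
          exact hz hz'U
        · have h1 : ∀ᶠ w in 𝓝 z', evp F w ∈ ZΩ Ω := by rw [hU] at hz'U; exact hz'U
          exact hz' he h1.self_of_nhds
    have hUn : U.Nonempty := by
      refine ⟨z₀, ?_⟩
      rcases hdich z₀ with h | h
      · rw [hU]; exact h
      · exact absurd h hz₀
    have huniv : U = Set.univ := IsClopen.eq_univ ⟨hUc, hUo⟩ hUn
    intro z
    have h1 : z ∈ U := by rw [huniv]; exact Set.mem_univ z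
    rw [hU] at h1
    exact (show ∀ᶠ w in 𝓝 z, evp F w ∈ ZΩ Ω from h1).self_of_nhds

end Pool.Agent.H5.BD
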